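import Mathlib


set_option autoImplicit false

namespace Pool.Agent.Lib.MP_304139_nt.LM

open Finset

private noncomputable def bp (m0 k : ℕ) : Polynomial ℝ :=
  Polynomial.C (1 / (k.factorial : ℝ)) *
    (descPochhammer ℝ k).comp (Polynomial.X - Polynomial.C (m0 : ℝ))

private lemma bp_natDegree (m0 k : ℕ) : (bp m0 k).natDegree ≤ k := by
  unfold bp
  refine (Polynomial.natDegree_C_mul_le _ _).trans ?_
  rw [Polynomial.natDegree_comp, descPochhammer_natDegree, Polynomial.natDegree_X_sub_C, mul_one]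

private lemma bp_eval (m0 k : ℕ) (x : ℝ) :
    (bp m0 k).eval x = 1 / (k.factorial : ℝ) * ∏ j ∈ range k, (x - m0 - j) := by
  unfold bp
  rw [Polynomial.eval_mul, Polynomial.eval_C, Polynomial.eval_comp, Polynomial.eval_sub,
    Polynomial.eval_X, Polynomial.eval_C, descPochhammer_eval_eq_prod_range]

private lemma bp_eval_nat (m0 k m : ℕ) (hm : m0 ≤ m) :
    (bp m0 k).eval (m : ℝ) = ((m - m0).choose k : ℝ) := by
  have hk : (k.factorial : ℝ) ≠ 0 := by exact_mod_cast k.factorial_ne_zero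
  rw [bp_eval]
  have h1 : ∏ j ∈ range k, ((m : ℝ) - m0 - j) = ((m - m0).descFactorial k : ℝ) := by
    rw [← descPochhammer_eval_eq_descFactorial, descPochhammer_eval_eq_prod_range,
      Nat.cast_sub hm]
  rw [h1, Nat.descFactorial_eq_factorial_mul_choose]
  push_cast
  field_simp

private lemma bp_eval_neg (m0 k n : ℕ) (hk : k ≤ n) (y : ℝ) (h0 : 0 ≤ y) (h1 : y ≤ 1) :
    |(bp m0 k).eval (-y)| ≤ ((m0 + n).choose n : ℝ) := by
  have hk0 : (0 : ℝ) < (k.factorial : ℝ) := by exact_mod_cast k.factorial_pos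
  rw [bp_eval, abs_mul, Finset.abs_prod, abs_of_nonneg (by positivity)]
  have h2 : ∏ j ∈ range k, |(-y - m0 - j : ℝ)| ≤ ((m0 + 1).ascFactorial k : ℝ) := by
    rw [Nat.ascFactorial_eq_prod_range]
    push_cast
    refine Finset.prod_le_prod (fun _ _ => abs_nonneg _) fun j _ => ?_
    have h3 : (0 : ℝ) ≤ m0 := Nat.cast_nonneg _
    have h4 : (0 : ℝ) ≤ j := Nat.cast_nonneg _
    rw [abs_le]
    constructor <;> linarith
  rw [Nat.ascFactorial_eq_factorial_mul_choose] at h2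
  push_cast at h2
  have h5 : ((m0 + k).choose k : ℝ) ≤ ((m0 + n).choose n : ℝ) := by
    have h6 : (m0 + k).choose k ≤ (m0 + n).choose n := by
      rw [← Nat.choose_symm_add, ← Nat.choose_symm_add (a := m0) (b := n)]
      exact Nat.choose_le_choose _ (by omega)
    exact_mod_cast h6
  refine le_trans ?_ h5
  rw [one_div, inv_mul_le_iff₀ hk0]
  exact h2

/-- q = ∑_{k<n} t_k binom(X - m0, k). -/
theorem exists_pol (n m0 : ℕ) (hn : 1 ≤ n) (t : ℕ → ℤ) (X0 : ℝ) (ht : ∀ k < n, |(t k : ℝ)| ≤ X0) :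
    ∃ q : Polynomial ℝ, q.natDegree < n ∧
      (∀ m : ℕ, m0 ≤ m → q.eval (m : ℝ) = ((∑ k ∈ range n, t k * ((m - m0).choose k : ℤ) : ℤ) : ℝ)) ∧
      (∀ y : ℝ, 0 ≤ y → y ≤ 1 → |q.eval (-y)| ≤ n * X0 * ((m0 + n).choose n : ℝ)) ∧
      (∀ Q r : ℕ, 1 ≤ Q → ∃ z : ℤ, ((n.factorial : ℝ) * (Q : ℝ) ^ n) * q.eval (-((r : ℝ) / Q)) = z) ∧
      ((∃ k < n, t k ≠ 0) → q ≠ 0) := by
  classical
  obtain ⟨q, hq⟩ : ∃ q : Polynomial ℝ, q = ∑ k ∈ range n, Polynomial.C (t k : ℝ) * bp m0 k :=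
    ⟨_, rfl⟩
  have heval : ∀ x : ℝ, q.eval x = ∑ k ∈ range n, (t k : ℝ) * (bp m0 k).eval x := by
    intro x
    rw [hq, Polynomial.eval_finsetSum]
    refine Finset.sum_congr rfl fun k _ => ?_
    rw [Polynomial.eval_mul, Polynomial.eval_C]
  have hnat : ∀ m : ℕ, m0 ≤ m →
      q.eval (m : ℝ) = ((∑ k ∈ range n, t k * ((m - m0).choose k : ℤ) : ℤ) : ℝ) := by
    intro m hm
    rw [heval]
    push_cast
    refine Finset.sum_congr rfl fun k _ => ?_
    rw [bp_eval_nat m0 k m hm]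
  refine ⟨q, ?_, hnat, ?_, ?_, ?_⟩
  · have h1 : q.natDegree ≤ n - 1 := by
      rw [hq]
      refine Polynomial.natDegree_sum_le_of_forall_le _ _ fun k hk => ?_
      refine (Polynomial.natDegree_C_mul_le _ _).trans ((bp_natDegree m0 k).trans ?_)
      rw [Finset.mem_range] at hk
      omega
    omega
  · intro y h0 h1
    rw [heval]
    refine (Finset.abs_sum_le_sum_abs _ _).trans ?_
    have h2 : ∀ k ∈ range n, |(t k : ℝ) * (bp m0 k).eval (-y)| ≤
        X0 * ((m0 + n).choose n : ℝ) := by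
      intro k hk
      rw [Finset.mem_range] at hk
      rw [abs_mul]
      have h3 := ht k hk
      exact mul_le_mul h3 (bp_eval_neg m0 k n hk.le y h0 h1) (abs_nonneg _)
        ((abs_nonneg _).trans h3)
    refine (Finset.sum_le_sum h2).trans ?_
    rw [Finset.sum_const, Finset.card_range, nsmul_eq_mul, mul_assoc]
  · intro Q r hQ
    have hQ0 : (Q : ℝ) ≠ 0 := by
      have : (0 : ℝ) < Q := by exact_mod_cast hQ
      exact this.ne'
    obtain ⟨c, hc⟩ : ∃ c : ℕ → ℕ, ∀ k, k < n → n.factorial = k.factorial * c k :=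
      ⟨fun k => n.factorial / k.factorial, fun k hk =>
        (Nat.mul_div_cancel' (Nat.factorial_dvd_factorial hk.le)).symm⟩
    refine ⟨∑ k ∈ range n, t k * (c k : ℤ) * (Q : ℤ) ^ (n - k) *
      ∏ j ∈ range k, (-((r : ℤ) + Q * (m0 + j))), ?_⟩
    rw [heval, Finset.mul_sum]
    push_cast
    refine Finset.sum_congr rfl fun k hk => ?_
    rw [Finset.mem_range] at hk
    have hk0 : (k.factorial : ℝ) ≠ 0 := by exact_mod_cast k.factorial_ne_zero
    rw [bp_eval, hc k hk, Nat.cast_mul]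
    have h1 : ∏ j ∈ range k, (-((r : ℝ) + Q * (m0 + j))) =
        (Q : ℝ) ^ k * ∏ j ∈ range k, (-((r : ℝ) / Q) - m0 - j) := by
      have h2 : (Q : ℝ) ^ k = ∏ _j ∈ range k, (Q : ℝ) := by
        rw [Finset.prod_const, Finset.card_range]
      rw [h2, ← Finset.prod_mul_distrib]
      refine Finset.prod_congr rfl fun j _ => ?_
      field_simp
      ring
    have h3 : (Q : ℝ) ^ n = (Q : ℝ) ^ (n - k) * (Q : ℝ) ^ k := by
      rw [← pow_add]
      congr 1
      omega
    rw [h1, h3]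
    field_simp
  · rintro ⟨k, hk, htk⟩ h0
    have hex : ∃ k, k < n ∧ t k ≠ 0 := ⟨k, hk, htk⟩
    obtain ⟨h1, h2⟩ := Nat.find_spec hex
    have h3 := hnat (m0 + Nat.find hex) (by omega)
    rw [h0, Polynomial.eval_zero] at h3
    have h4 : (∑ k ∈ range n, t k * ((m0 + Nat.find hex - m0).choose k : ℤ) : ℤ) = 0 := by
      exact_mod_cast h3.symm
    rw [Nat.add_sub_cancel_left, Finset.sum_eq_single (Nat.find hex)] at h4
    · rw [Nat.choose_self, Nat.cast_one, mul_one] at h4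
      exact h2 h4
    · intro j hj hne
      rw [Finset.mem_range] at hj
      rcases Nat.lt_or_gt_of_ne hne with h5 | h5
      · have h6 := Nat.find_min hex h5
        rw [not_and, not_not] at h6
        rw [h6 hj, zero_mul]
      · rw [Nat.choose_eq_zero_of_lt h5, Nat.cast_zero, mul_zero]
    · intro h5
      exact absurd (Finset.mem_range.2 h1) h5

end Pool.Agent.Lib.MP_304139_nt.LM
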