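import Mathlib


set_option autoImplicit false

namespace Pool.Agent.Lib.MP_304139_nt.LM

open Finset

attribute [local instance] Matrix.seminormedAddCommGroup

/-- Mathlib: Int.Matrix.exists_ne_zero_int_vec_norm_le (Siegel's lemma), exponent 3d/(4d-3d) = 3. -/
theorem siegel (d C : ℕ) (hd : 1 ≤ d) (hC : 1 ≤ C) (M : ℕ → ℕ → ℤ) (hM : ∀ i < 3 * d, ∀ k < 4 * d, |M i k| ≤ C) :
    ∃ t : ℕ → ℤ, (∃ k < 4 * d, t k ≠ 0) ∧ (∀ k < 4 * d, |t k| ≤ (((4 * d * C) ^ 3 : ℕ) : ℤ)) ∧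
      ∀ i < 3 * d, ∑ k ∈ range (4 * d), M i k * t k = 0 := by
  have hex : ∃ t : Fin (4 * d) → ℤ, t ≠ 0 ∧ (∀ k, |t k| ≤ (((4 * d * C) ^ 3 : ℕ) : ℤ)) ∧
      ∀ i : Fin (3 * d), ∑ k : Fin (4 * d), M i k * t k = 0 := by
    let A : Matrix (Fin (3 * d)) (Fin (4 * d)) ℤ := fun i k => M i k
    obtain ⟨t, ht0, ht1, ht2⟩ := Int.Matrix.exists_ne_zero_int_vec_norm_le A
      (by simp only [Fintype.card_fin]; omega) (by simp only [Fintype.card_fin]; omega)
    refine ⟨t, ht0, ?_, ?_⟩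
    · intro k
      have hCr : (1 : ℝ) ≤ C := by exact_mod_cast hC
      have hdr : (1 : ℝ) ≤ d := by exact_mod_cast hd
      have hAn : max 1 ‖A‖ ≤ (C : ℝ) := by
        refine max_le hCr ?_
        refine (Matrix.norm_le_iff (by linarith)).2 ?_
        intro i j
        rw [Int.norm_eq_abs]
        have := hM i i.2 j j.2
        have h2 : |(M i j : ℝ)| ≤ C := by exact_mod_cast this
        exact h2
      have hexp : ((Fintype.card (Fin (3 * d)) : ℕ) : ℝ) / (((Fintype.card (Fin (4 * d)) : ℕ) : ℝ) -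
          ((Fintype.card (Fin (3 * d)) : ℕ) : ℝ)) = 3 := by
        simp only [Fintype.card_fin]
        push_cast
        have : (4 : ℝ) * d - 3 * d = d := by ring
        rw [this]
        field_simp
      rw [hexp] at ht2
      have h3 : ((((Fintype.card (Fin (4 * d)) : ℕ) : ℝ) * max 1 ‖A‖) ^ (3 : ℝ)) ≤
          ((4 * d * C : ℝ)) ^ (3 : ℕ) := by
        rw [← Real.rpow_natCast]
        norm_num
        refine pow_le_pow_left₀ (mul_nonneg (by positivity) (zero_le_one.trans (le_max_left _ _))) ?_ 3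
        have := mul_le_mul_of_nonneg_left hAn (show (0 : ℝ) ≤ 4 * d by positivity)
        linarith
      have h4 : ‖t k‖ ≤ ‖t‖ := norm_le_pi_norm t k
      rw [Int.norm_eq_abs] at h4
      have h5 : (|(t k : ℝ)|) ≤ ((4 * d * C : ℝ)) ^ (3 : ℕ) := h4.trans (ht2.trans h3)
      exact_mod_cast h5
    · intro i
      have := congrFun ht1 i
      simpa [Matrix.mulVec, dotProduct, A] using this
  obtain ⟨t, h0, h1, h2⟩ := hex
  refine ⟨fun k => if h : k < 4 * d then t ⟨k, h⟩ else 0, ?_, ?_, ?_⟩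
  · obtain ⟨k, hk⟩ := Function.ne_iff.1 h0
    exact ⟨k, k.2, by simpa using hk⟩
  · intro k hk
    simpa [hk] using h1 ⟨k, hk⟩
  · intro i hi
    rw [← h2 ⟨i, hi⟩, Finset.sum_range]
    refine Finset.sum_congr rfl fun k _ => ?_
    simp

end Pool.Agent.Lib.MP_304139_nt.LM
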