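import Mathlib
import Pool.Agent.Lib.MP_304139_nt.LM.Siegel
import Pool.Agent.Lib.MP_304139_nt.LM.Pol

set_option autoImplicit false

namespace Pool.Agent.Lib.MP_304139_nt.LM

open Finset

/-- siegel with M i k = choose(ν i - m0) k for k < 2d and x_i choose(ν i - m0) (k - 2d) for 2d ≤ k < 4d, C = Bn 2^N;
q0, q1 from exists_pol. q1 ≠ 0: else q0 vanishes at 3d nodes, so q0 = 0 and all t vanish. -/
theorem exists_q (d N m0 Bn : ℕ) (hd : 1 ≤ d) (hBn : 1 ≤ Bn) (ν : ℕ → ℕ) (hinj : StrictMono ν)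
    (hν : ∀ j < 3 * d, m0 ≤ ν j ∧ ν j < m0 + N) (x : ℕ → ℤ) (hx : ∀ j < 3 * d, |x j| ≤ Bn) :
    ∃ q0 q1 : Polynomial ℝ, q0.natDegree < 2 * d ∧ q1.natDegree < 2 * d ∧ q1 ≠ 0 ∧
      (∀ j < 3 * d, q0.eval (ν j : ℝ) + x j * q1.eval (ν j : ℝ) = 0) ∧
      (∀ m : ℕ, m0 ≤ m → ∃ z0 z1 : ℤ, q0.eval (m : ℝ) = z0 ∧ q1.eval (m : ℝ) = z1) ∧
      (∀ m : ℕ, m0 ≤ m → m < m0 + N →
        |q1.eval (m : ℝ)| ≤ ((2 * d * (4 * d * (Bn * 2 ^ N)) ^ 3 * 2 ^ N : ℕ) : ℝ)) ∧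
      (∀ y : ℝ, 0 ≤ y → y ≤ 1 →
        |q1.eval (-y)| ≤ ((2 * d * (4 * d * (Bn * 2 ^ N)) ^ 3 * (m0 + 2 * d).choose (2 * d) : ℕ) : ℝ)) ∧
      (∀ Q r : ℕ, 1 ≤ Q → q1.eval (-((r : ℝ) / Q)) ≠ 0 →
        1 ≤ (((2 * d).factorial : ℝ) * (Q : ℝ) ^ (2 * d)) * |q1.eval (-((r : ℝ) / Q))|) := by
  classical
  set C : ℕ := Bn * 2 ^ N with hCdef
  have hC : 1 ≤ C := Nat.one_le_iff_ne_zero.2 (Nat.mul_ne_zero (by omega) (by positivity))
  have hch : ∀ j < 3 * d, ∀ k : ℕ, (((ν j - m0).choose k : ℕ) : ℤ) ≤ ((2 ^ N : ℕ) : ℤ) := by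
    intro j hj k
    have h1 : (ν j - m0).choose k ≤ 2 ^ (ν j - m0) := Nat.choose_le_two_pow _ _
    have h2 : 2 ^ (ν j - m0) ≤ 2 ^ N :=
      Nat.pow_le_pow_right (by norm_num) (by have := hν j hj; omega)
    exact_mod_cast h1.trans h2
  have hM : ∀ i < 3 * d, ∀ k < 4 * d,
      |(if k < 2 * d then (((ν i - m0).choose k : ℕ) : ℤ)
        else x i * (((ν i - m0).choose (k - 2 * d) : ℕ) : ℤ))| ≤ (C : ℤ) := by
    intro i hi k hk
    have hB1 : (1 : ℤ) ≤ (Bn : ℤ) := by exact_mod_cast hBn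
    have h2N : (0 : ℤ) ≤ ((2 ^ N : ℕ) : ℤ) := by positivity
    split_ifs with h
    · rw [abs_of_nonneg (by positivity)]
      calc (((ν i - m0).choose k : ℕ) : ℤ) ≤ ((2 ^ N : ℕ) : ℤ) := hch i hi k
        _ = 1 * ((2 ^ N : ℕ) : ℤ) := (one_mul _).symm
        _ ≤ (Bn : ℤ) * ((2 ^ N : ℕ) : ℤ) := mul_le_mul_of_nonneg_right hB1 h2N
        _ = (C : ℤ) := by rw [hCdef]; push_cast; ring
    · rw [abs_mul, abs_of_nonneg (by positivity : (0 : ℤ) ≤ (((ν i - m0).choose (k - 2 * d) : ℕ) : ℤ))]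
      calc |x i| * (((ν i - m0).choose (k - 2 * d) : ℕ) : ℤ)
          ≤ (Bn : ℤ) * ((2 ^ N : ℕ) : ℤ) :=
            mul_le_mul (hx i hi) (hch i hi _) (by positivity) (by positivity)
        _ = (C : ℤ) := by rw [hCdef]; push_cast; ring
  obtain ⟨t, htne, htb, hts⟩ := siegel d C hd hC
    (fun i k => if k < 2 * d then (((ν i - m0).choose k : ℕ) : ℤ)
        else x i * (((ν i - m0).choose (k - 2 * d) : ℕ) : ℤ)) hM
  have htR : ∀ k < 4 * d, |(t k : ℝ)| ≤ (((4 * d * C) ^ 3 : ℕ) : ℝ) := by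
    intro k hk
    have := htb k hk
    have h2 : ((|t k| : ℤ) : ℝ) ≤ ((((4 * d * C) ^ 3 : ℕ) : ℤ) : ℝ) := by exact_mod_cast this
    rw [Int.cast_abs] at h2
    exact h2.trans (le_of_eq (by norm_cast))
  obtain ⟨q0, hq0d, hq0e, -, -, hq0n⟩ := exists_pol (2 * d) m0 (by omega) t
    (((4 * d * C) ^ 3 : ℕ) : ℝ) (fun k hk => htR k (by omega))
  obtain ⟨q1, hq1d, hq1e, hq1y, hq1z, hq1n⟩ := exists_pol (2 * d) m0 (by omega)
    (fun k => t (2 * d + k)) (((4 * d * C) ^ 3 : ℕ) : ℝ) (fun k hk => htR _ (by omega))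
  have heq : ∀ j < 3 * d, q0.eval (ν j : ℝ) + x j * q1.eval (ν j : ℝ) = 0 := by
    intro j hj
    have h1 := hts j hj
    have h4 : 4 * d = 2 * d + 2 * d := by ring
    rw [h4, Finset.sum_range_add] at h1
    have h2 : ∑ k ∈ range (2 * d), (if k < 2 * d then (((ν j - m0).choose k : ℕ) : ℤ)
        else x j * (((ν j - m0).choose (k - 2 * d) : ℕ) : ℤ)) * t k
        = ∑ k ∈ range (2 * d), t k * (((ν j - m0).choose k : ℕ) : ℤ) := by
      refine Finset.sum_congr rfl fun k hk => ?_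
      rw [if_pos (Finset.mem_range.1 hk)]
      ring
    have h3 : ∑ k ∈ range (2 * d), (if 2 * d + k < 2 * d then (((ν j - m0).choose (2 * d + k) : ℕ) : ℤ)
        else x j * (((ν j - m0).choose (2 * d + k - 2 * d) : ℕ) : ℤ)) * t (2 * d + k)
        = x j * ∑ k ∈ range (2 * d), t (2 * d + k) * (((ν j - m0).choose k : ℕ) : ℤ) := by
      rw [Finset.mul_sum]
      refine Finset.sum_congr rfl fun k hk => ?_
      rw [if_neg (by omega), Nat.add_sub_cancel_left]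
      ring
    rw [h2, h3] at h1
    rw [hq0e _ (hν j hj).1, hq1e _ (hν j hj).1]
    exact_mod_cast h1
  refine ⟨q0, q1, hq0d, hq1d, ?_, heq, ?_, ?_, ?_, ?_⟩
  · intro hq1
    have ht1 : ∀ k < 2 * d, t (2 * d + k) = 0 := by
      intro k hk
      by_contra hne
      exact hq1n ⟨k, hk, hne⟩ hq1
    have ht0 : ∃ k < 2 * d, t k ≠ 0 := by
      obtain ⟨k, hk, hkne⟩ := htne
      by_cases h : k < 2 * d
      · exact ⟨k, h, hkne⟩
      · exfalso
        apply hkne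
        have := ht1 (k - 2 * d) (by omega)
        rwa [show 2 * d + (k - 2 * d) = k by omega] at this
    apply hq0n ht0
    refine Polynomial.eq_zero_of_natDegree_lt_card_of_eval_eq_zero q0
      (f := fun j : Fin (3 * d) => ((ν j : ℕ) : ℝ)) ?_ ?_ ?_
    · intro a b hab
      have h1 : (ν a : ℝ) = ν b := hab
      have h2 : ν a = ν b := by exact_mod_cast h1
      exact Fin.ext (hinj.injective h2)
    · intro j
      have := heq j j.2
      rw [hq1] at this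
      simpa using this
    · rw [Fintype.card_fin]
      omega
  · intro m hm
    exact ⟨_, _, hq0e m hm, hq1e m hm⟩
  · intro m hm hmN
    rw [hq1e m hm]
    push_cast
    calc |∑ k ∈ range (2 * d), (t (2 * d + k) : ℝ) * ((m - m0).choose k : ℝ)|
        ≤ ∑ k ∈ range (2 * d), |(t (2 * d + k) : ℝ) * ((m - m0).choose k : ℝ)| :=
          Finset.abs_sum_le_sum_abs _ _
      _ ≤ ∑ _k ∈ range (2 * d), (((4 * d * C) ^ 3 : ℕ) : ℝ) * 2 ^ N := by
          refine Finset.sum_le_sum fun k hk => ?_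
          rw [abs_mul, abs_of_nonneg (by positivity : (0 : ℝ) ≤ ((m - m0).choose k : ℝ))]
          refine mul_le_mul (htR _ (by have := Finset.mem_range.1 hk; omega)) ?_ (by positivity)
            (by positivity)
          have h1 : (m - m0).choose k ≤ 2 ^ (m - m0) := Nat.choose_le_two_pow _ _
          have h2 : 2 ^ (m - m0) ≤ 2 ^ N := Nat.pow_le_pow_right (by norm_num) (by omega)
          exact_mod_cast h1.trans h2
      _ = 2 * d * (4 * d * C) ^ 3 * 2 ^ N := by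
          rw [Finset.sum_const, Finset.card_range, nsmul_eq_mul]
          push_cast
          ring
  · intro y hy0 hy1
    have := hq1y y hy0 hy1
    refine this.trans (le_of_eq ?_)
    rw [hCdef]
    push_cast
    ring
  · intro Q r hQ hne
    obtain ⟨z, hz⟩ := hq1z Q r hQ
    have hpos : (0 : ℝ) < ((2 * d).factorial : ℝ) * (Q : ℝ) ^ (2 * d) := by
      have : (0 : ℝ) < (Q : ℝ) := by exact_mod_cast hQ
      positivity
    have hz0 : z ≠ 0 := by
      rintro rfl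
      rw [Int.cast_zero] at hz
      exact (mul_ne_zero hpos.ne' hne) hz
    have h1 : (1 : ℤ) ≤ |z| := Int.one_le_abs hz0
    have h2 : (1 : ℝ) ≤ |(z : ℝ)| := by
      have : ((1 : ℤ) : ℝ) ≤ ((|z| : ℤ) : ℝ) := by exact_mod_cast h1
      simpa using this
    rw [← hz, abs_mul, abs_of_pos hpos] at h2
    exact h2

end Pool.Agent.Lib.MP_304139_nt.LM
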