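import Mathlib

/-! Basic facts for the linear independence measure of factorial series with Thue-Morse digits. -/

set_option autoImplicit false

namespace Pool.Agent.Lib.MP_304139_nt.LM

open Finset

/-- sum of the binary digits -/
def s2 (n : ℕ) : ℕ := (Nat.digits 2 n).sum

theorem s2_bit (n b : ℕ) (hb : b < 2) : s2 (2 * n + b) = s2 n + b := by
  unfold s2
  rcases Nat.eq_zero_or_pos n with h | h
  · subst h
    interval_cases b <;> simp
  · have := Nat.digits_add 2 (by norm_num) b n hb (Or.inr h.ne')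
    rw [show 2 * n + b = b + 2 * n by ring, this, List.sum_cons]
    ring

theorem s2_pow (m : ℕ) : ∀ v u : ℕ, u < 2 ^ m → s2 (2 ^ m * v + u) = s2 v + s2 u := by
  induction m with
  | zero =>
    intro v u hu
    have : u = 0 := by simpa using hu
    subst this
    simp [s2]
  | succ m ih =>
    intro v u hu
    have h1 : u = 2 * (u / 2) + u % 2 := by omega
    have h2 : u / 2 < 2 ^ m := by
      rw [pow_succ] at hu
      omega
    have h3 : u % 2 < 2 := Nat.mod_lt _ (by norm_num)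
    have e1 : 2 ^ (m + 1) * v + u = 2 * (2 ^ m * v + u / 2) + u % 2 := by
      rw [pow_succ]
      conv_lhs => rw [h1]
      ring
    have e2 : s2 u = s2 (u / 2) + u % 2 := by
      conv_lhs => rw [h1]
      exact s2_bit _ _ h3
    rw [e1, s2_bit _ _ h3, ih v (u / 2) h2, e2]
    ring

theorem s2_compl (r : ℕ) : ∀ n : ℕ, n < 2 ^ r → s2 n + s2 (2 ^ r - 1 - n) = r := by
  induction r with
  | zero =>
    intro n hn
    have : n = 0 := by simpa using hn
    subst this
    simp [s2]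
  | succ r ih =>
    intro n hn
    rw [pow_succ] at hn
    have hp : 0 < 2 ^ r := by positivity
    have h2 : n / 2 < 2 ^ r := by omega
    have h3 : n % 2 < 2 := Nat.mod_lt _ (by norm_num)
    have e1 : n = 2 * (n / 2) + n % 2 := by omega
    have e2 : 2 ^ (r + 1) - 1 - n = 2 * (2 ^ r - 1 - n / 2) + (1 - n % 2) := by
      rw [pow_succ]
      omega
    have e3 : s2 n = s2 (n / 2) + n % 2 := by
      conv_lhs => rw [e1]
      exact s2_bit _ _ h3
    rw [e2, s2_bit _ _ (by omega), e3]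
    have := ih _ h2
    omega

/-! ### Factorial series with bounded integer digits -/

theorem summ (g : ℕ → ℤ) (B : ℝ) (hg : ∀ n, |(g n : ℝ)| ≤ B) :
    Summable fun n : ℕ => (g n : ℝ) / (n.factorial : ℝ) := by
  refine Summable.of_norm_bounded (g := fun n : ℕ => B * ((1 : ℝ) ^ n / n.factorial))
    ((Real.summable_pow_div_factorial 1).mul_left B) (fun n => ?_)
  rw [Real.norm_eq_abs, abs_div, one_pow, Nat.abs_cast, mul_one_div]
  have := hg n
  gcongr

/-- the factorial series with digits `g` -/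
noncomputable def ser (g : ℕ → ℤ) : ℝ := ∑' n : ℕ, (g n : ℝ) / (n.factorial : ℝ)

/-- `a!` times the tail of the series -/
noncomputable def rho (g : ℕ → ℤ) (a : ℕ) : ℝ :=
  (a.factorial : ℝ) * (ser g - ∑ n ∈ range (a + 1), (g n : ℝ) / (n.factorial : ℝ))

theorem rho_int (g : ℕ → ℤ) (a : ℕ) : ∃ I : ℤ, rho g a = (a.factorial : ℝ) * ser g - I := by
  refine ⟨∑ n ∈ range (a + 1), (g n * ((a.factorial / n.factorial : ℕ) : ℤ)), ?_⟩
  unfold rho
  rw [mul_sub, Finset.mul_sum, Int.cast_sum]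
  congr 1
  refine Finset.sum_congr rfl fun n hn => ?_
  have hle : n ≤ a := by
    have := Finset.mem_range.1 hn
    omega
  rw [Int.cast_mul, Int.cast_natCast,
    Nat.cast_div (Nat.factorial_dvd_factorial hle) (by positivity)]
  ring

theorem rho_split (g : ℕ → ℤ) (B : ℝ) (hB : 0 ≤ B) (hg : ∀ n, |(g n : ℝ)| ≤ B) (a L : ℕ) :
    ∃ E : ℝ, |E| ≤ B * (2 / ((a : ℝ) + 1) ^ (L + 1)) ∧
    (1 ≤ a → rho g a =
      (∑ u ∈ range L, (g (a + 1 + u) : ℝ) * ((a.factorial : ℝ) / (a + u + 1).factorial)) + E) := by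
  by_cases ha : 1 ≤ a
  swap
  · exact ⟨0, by rw [abs_zero]; positivity, fun h => absurd h ha⟩
  set f : ℕ → ℝ := fun n => (g n : ℝ) / (n.factorial : ℝ) with hf
  refine ⟨(a.factorial : ℝ) * ∑' u : ℕ, f (u + (a + 1 + L)), ?_, ?_⟩
  · rw [← tsum_mul_left]
    have hgs : HasSum (fun u : ℕ => (B / ((a : ℝ) + 1) ^ (L + 1)) * (1 / 2 : ℝ) ^ u)
        ((B / ((a : ℝ) + 1) ^ (L + 1)) * 2) := hasSum_geometric_two.mul_left _
    have := tsum_of_norm_bounded (f := fun u : ℕ => (a.factorial : ℝ) * f (u + (a + 1 + L))) hgs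
      (fun u => ?_)
    · rw [Real.norm_eq_abs] at this
      refine this.trans (le_of_eq ?_)
      ring
    · have h1 : a.factorial * (a + 1) ^ (L + 1 + u) ≤ (a + (L + 1 + u)).factorial :=
        Nat.factorial_mul_pow_le_factorial
      have h2 : 2 ^ u ≤ (a + 1) ^ u := Nat.pow_le_pow_left (by omega) u
      have h3 : a.factorial * (a + 1) ^ (L + 1) * 2 ^ u ≤ (a + (L + 1 + u)).factorial := by
        refine le_trans ?_ h1
        rw [pow_add (a + 1) (L + 1) u, ← mul_assoc]
        exact Nat.mul_le_mul_left _ h2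
      have h4 : (a.factorial : ℝ) * ((a : ℝ) + 1) ^ (L + 1) * 2 ^ u ≤ ((a + (L + 1 + u)).factorial : ℝ) := by
        exact_mod_cast h3
      have e : u + (a + 1 + L) = a + (L + 1 + u) := by ring
      simp only [hf, e]
      rw [Real.norm_eq_abs, abs_mul, abs_div, Nat.abs_cast, Nat.abs_cast, one_div_pow, ← div_eq_mul_one_div,
        div_div, mul_div_assoc', div_le_div_iff₀ (by positivity) (by positivity)]
      have h5 := hg (a + (L + 1 + u))
      calc (a.factorial : ℝ) * |(g (a + (L + 1 + u)) : ℝ)| * (((a : ℝ) + 1) ^ (L + 1) * 2 ^ u)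
          = ((a.factorial : ℝ) * ((a : ℝ) + 1) ^ (L + 1) * 2 ^ u) * |(g (a + (L + 1 + u)) : ℝ)| := by ring
        _ ≤ ((a + (L + 1 + u)).factorial : ℝ) * B := by gcongr
        _ = B * ((a + (L + 1 + u)).factorial : ℝ) := by ring
  · intro _
    have h1 := (summ g B hg).sum_add_tsum_nat_add (a + 1 + L)
    unfold rho
    have h2 : ser g = ∑ i ∈ range (a + 1 + L), f i + ∑' i : ℕ, f (i + (a + 1 + L)) := h1.symm
    rw [h2, Finset.sum_range_add, hf]
    rw [show ∀ A B C : ℝ, (a.factorial : ℝ) * (A + B + C - A) = (a.factorial : ℝ) * B + (a.factorial : ℝ) * C by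
      intro A B C; ring]
    congr 1
    rw [Finset.mul_sum]
    refine Finset.sum_congr rfl fun u _ => ?_
    rw [show a + 1 + u = a + u + 1 by ring]
    ring

/-! ### Shifts of the Thue-Morse sequence -/

noncomputable def xx (n : ℕ) : ℝ := (-1) ^ ((Nat.digits 2 n).sum)

theorem xx_even (n : ℕ) : xx (2 * n) = xx n := by
  unfold xx
  rcases Nat.eq_zero_or_pos n with h | h
  · subst h; simp
  · rw [Nat.digits_def' (by norm_num) (by omega : 0 < 2 * n)]
    simp

theorem xx_odd (n : ℕ) : xx (2 * n + 1) = - xx n := by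
  unfold xx
  rw [Nat.digits_def' (by norm_num) (by omega : 0 < 2 * n + 1)]
  have h1 : (2 * n + 1) % 2 = 1 := by omega
  have h2 : (2 * n + 1) / 2 = n := by omega
  rw [h1, h2, List.sum_cons, pow_add]
  ring

theorem sumA (b : ℕ → ℝ) (m K : ℕ) :
    ∑ j ∈ Finset.range (2 * K), b j * xx (2 * m + j) =
      ∑ i ∈ Finset.range K, (b (2 * i) - b (2 * i + 1)) * xx (m + i) := by
  induction K with
  | zero => simp
  | succ K ih =>
    rw [show 2 * (K + 1) = 2 * K + 1 + 1 by ring, Finset.sum_range_succ, Finset.sum_range_succ, ih,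
      Finset.sum_range_succ, show 2 * m + 2 * K = 2 * (m + K) by ring,
      show 2 * m + (2 * K + 1) = 2 * (m + K) + 1 by ring, xx_even, xx_odd]
    ring

theorem sumB (b : ℕ → ℝ) (m K : ℕ) :
    ∑ j ∈ Finset.range (2 * K), b j * xx (2 * m + 1 + j) =
      ∑ i ∈ Finset.range K, (b (2 * i + 1) * xx (m + (i + 1)) - b (2 * i) * xx (m + i)) := by
  induction K with
  | zero => simp
  | succ K ih =>
    rw [show 2 * (K + 1) = 2 * K + 1 + 1 by ring, Finset.sum_range_succ, Finset.sum_range_succ, ih,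
      Finset.sum_range_succ, show 2 * m + 1 + 2 * K = 2 * (m + K) + 1 by ring,
      show 2 * m + 1 + (2 * K + 1) = 2 * (m + (K + 1)) by ring, xx_even, xx_odd]
    ring

theorem sum_ext (b : ℕ → ℝ) (f : ℕ → ℝ) {J L : ℕ} (h : ∀ j, J ≤ j → b j = 0) (hJL : J ≤ L) :
    ∑ j ∈ Finset.range L, b j * f j = ∑ j ∈ Finset.range J, b j * f j := by
  symm
  apply Finset.sum_subset
  · intro a ha
    rw [Finset.mem_range] at ha ⊢
    omega
  · intro j _ hj
    rw [Finset.mem_range, not_lt] at hj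
    rw [h j hj, zero_mul]

theorem core (J : ℕ) : ∃ N0 : ℕ, ∃ C : ℝ, 0 < C ∧ ∀ b : ℕ → ℝ, ∀ ε : ℝ, 0 ≤ ε →
    (∀ j, J ≤ j → b j = 0) → (∀ n < N0, |∑ j ∈ Finset.range J, b j * xx (n + j)| ≤ ε) →
    ∀ j, |b j| ≤ C * ε := by
  induction J using Nat.strong_induction_on with
  | _ J ih =>
    rcases Nat.lt_or_ge J 3 with hJ | hJ
    · have x0 : xx 0 = 1 := by simp [xx]
      have x1 : xx 1 = -1 := by
        have := xx_odd 0
        simpa [x0] using this
      have x2 : xx 2 = -1 := by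
        have := xx_even 1
        simpa [x1] using this
      interval_cases J
      · refine ⟨0, 1, one_pos, fun b ε hε hb _ j => ?_⟩
        rw [hb j (Nat.zero_le j), abs_zero]; linarith
      · refine ⟨1, 1, one_pos, fun b ε hε hb h j => ?_⟩
        have h0 := h 0 (by norm_num)
        simp only [Finset.sum_range_one, x0, mul_one, add_zero] at h0
        rcases Nat.eq_zero_or_pos j with hj | hj
        · subst hj; linarith
        · rw [hb j hj, abs_zero]; linarith
      · refine ⟨2, 1, one_pos, fun b ε hε hb h j => ?_⟩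
        have h0 := h 0 (by norm_num)
        have h1 := h 1 (by norm_num)
        simp only [Finset.sum_range_succ, Finset.sum_range_zero, zero_add, add_zero] at h0 h1
        rw [show (1 : ℕ) + 1 = 2 from rfl] at h1
        rw [x0, x1] at h0
        rw [x1, x2] at h1
        rw [abs_le] at h0 h1
        rcases Nat.lt_or_ge j 2 with hj | hj
        · rw [abs_le]
          interval_cases j
          · constructor <;> linarith [h0.1, h0.2, h1.1, h1.2]
          · constructor <;> linarith [h0.1, h0.2, h1.1, h1.2]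
        · rw [hb j hj, abs_zero]; linarith
    · obtain ⟨N1, C1, hC1, H1⟩ := ih ((J + 1) / 2) (by omega)
      obtain ⟨N2, C2, hC2, H2⟩ := ih (J / 2 + 1) (by omega)
      refine ⟨2 * (N1 + N2) + 2, ((J : ℝ) + 1) * (C1 + C2), by positivity, fun b ε hε hb h => ?_⟩
      have hbig : ∀ n < 2 * (N1 + N2) + 2, |∑ j ∈ Finset.range (2 * J), b j * xx (n + j)| ≤ ε := by
        intro n hn
        rw [sum_ext b (fun j => xx (n + j)) hb (by omega)]
        exact h n hn
      have hu : ∀ i, |b (2 * i) - b (2 * i + 1)| ≤ C1 * ε := by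
        apply H1 (fun i => b (2 * i) - b (2 * i + 1)) ε hε
        · intro i hi
          rw [hb (2 * i) (by omega), hb (2 * i + 1) (by omega), sub_zero]
        · intro m hm
          have h1 := hbig (2 * m) (by omega)
          rw [sumA] at h1
          rw [sum_ext (fun i => b (2 * i) - b (2 * i + 1)) (fun i => xx (m + i))
            (J := (J + 1) / 2) (by
              intro i hi
              rw [hb (2 * i) (by omega), hb (2 * i + 1) (by omega), sub_zero]) (by omega)] at h1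
          exact h1
      set w : ℕ → ℝ := fun i => if i = 0 then 0 else b (2 * i - 1) with hw
      have hw1 : ∀ i, w (i + 1) = b (2 * i + 1) := by
        intro i
        simp only [hw, Nat.succ_ne_zero, if_false]
        congr 1
      have hsupp : ∀ i, J / 2 + 1 ≤ i → w i - b (2 * i) = 0 := by
        intro i hi
        have hi0 : i ≠ 0 := by omega
        simp only [hw, hi0, if_false]
        rw [hb (2 * i - 1) (by omega), hb (2 * i) (by omega), sub_zero]
      have hv : ∀ i, |w i - b (2 * i)| ≤ C2 * ε := by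
        apply H2 (fun i => w i - b (2 * i)) ε hε hsupp
        intro m hm
        have h1 := hbig (2 * m + 1) (by omega)
        rw [sumB] at h1
        have h2 : ∑ i ∈ Finset.range (J + 1), (w i - b (2 * i)) * xx (m + i) =
            ∑ i ∈ Finset.range J, (b (2 * i + 1) * xx (m + (i + 1)) - b (2 * i) * xx (m + i)) := by
          have h3 : ∑ i ∈ Finset.range (J + 1), (w i - b (2 * i)) * xx (m + i) =
              ∑ i ∈ Finset.range (J + 1), w i * xx (m + i) -
                ∑ i ∈ Finset.range (J + 1), b (2 * i) * xx (m + i) := by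
            rw [← Finset.sum_sub_distrib]
            exact Finset.sum_congr rfl fun i _ => by ring
          rw [h3, Finset.sum_range_succ', Finset.sum_range_succ (fun i => b (2 * i) * xx (m + i)),
            Finset.sum_sub_distrib, hb (2 * J) (by omega)]
          simp only [hw1]
          simp [hw]
        rw [← h2] at h1
        rw [sum_ext (fun i => w i - b (2 * i)) (fun i => xx (m + i))
          (J := J / 2 + 1) hsupp (by omega)] at h1
        exact h1
      have hstep : ∀ j, |b j - b (j + 1)| ≤ (C1 + C2) * ε := by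
        intro j
        have e1 : 0 ≤ C1 * ε := by positivity
        have e2 : 0 ≤ C2 * ε := by positivity
        rcases Nat.even_or_odd j with ⟨i, hi⟩ | ⟨i, hi⟩
        · have h1 := hu i
          rw [show j = 2 * i by omega]
          linarith
        · have h1 := hv (i + 1)
          rw [hw1] at h1
          rw [show j = 2 * i + 1 by omega, show 2 * i + 1 + 1 = 2 * (i + 1) by ring]
          linarith
      have hb0 : |b 0| ≤ (C1 + C2) * ε := by
        have h1 := hv 0
        have e1 : 0 ≤ C1 * ε := by positivity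
        simp only [hw, if_true, Nat.mul_zero, zero_sub, abs_neg] at h1
        linarith
      have hlin : ∀ j : ℕ, |b j| ≤ ((j : ℝ) + 1) * ((C1 + C2) * ε) := by
        intro j
        induction j with
        | zero => simpa using hb0
        | succ j ihj =>
          have h1 := hstep j
          have h2 : |b (j + 1)| ≤ |b j| + |b j - b (j + 1)| := by
            have h3 : b (j + 1) = b j - (b j - b (j + 1)) := by ring
            calc |b (j + 1)| = |b j - (b j - b (j + 1))| := by rw [← h3]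
              _ ≤ |b j| + |b j - b (j + 1)| := abs_sub _ _
          push_cast
          linarith
      intro j
      rcases Nat.lt_or_ge j J with hj | hj
      · refine (hlin j).trans ?_
        have h1 : (j : ℝ) + 1 ≤ (J : ℝ) + 1 := by
          have : (j : ℝ) ≤ J := by exact_mod_cast hj.le
          linarith
        have h2 : 0 ≤ (C1 + C2) * ε := by positivity
        calc ((j : ℝ) + 1) * ((C1 + C2) * ε) ≤ ((J : ℝ) + 1) * ((C1 + C2) * ε) :=
              mul_le_mul_of_nonneg_right h1 h2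
          _ = ((J : ℝ) + 1) * (C1 + C2) * ε := by ring
      · rw [hb j hj, abs_zero]
        positivity

theorem cond (J : ℕ) : ∃ N0 : ℕ, ∃ δ : ℝ, 0 < δ ∧ ∀ b : ℕ → ℝ, ∀ X : ℝ, 0 ≤ X →
    (∃ j < J, X ≤ |b j|) →
    ∃ n < N0, δ * X ≤ |∑ j ∈ Finset.range J, b j * (-1) ^ ((Nat.digits 2 (n + j)).sum)| := by
  obtain ⟨N0, C, hC, H⟩ := core J
  refine ⟨N0 + 1, 1 / (2 * C), by positivity, fun b X hX hj => ?_⟩
  obtain ⟨j, hjJ, hXj⟩ := hj
  by_contra hcon
  push Not at hcon
  have h0 : 0 < X := by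
    have h1 := hcon 0 (by omega)
    have h2 : 0 < 1 / (2 * C) * X := lt_of_le_of_lt (abs_nonneg _) h1
    have h3 : 0 < 1 / (2 * C) := by positivity
    exact (pos_iff_pos_of_mul_pos h2).mp h3
  set b' : ℕ → ℝ := fun i => if i < J then b i else 0 with hb'
  have h1 := H b' (1 / (2 * C) * X) (by positivity) (by
      intro i hi
      simp only [hb', not_lt.mpr hi, if_false]) (by
      intro n hn
      have h2 : ∑ i ∈ Finset.range J, b' i * xx (n + i) =
          ∑ i ∈ Finset.range J, b i * (-1) ^ ((Nat.digits 2 (n + i)).sum) := by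
        apply Finset.sum_congr rfl
        intro i hi
        rw [Finset.mem_range] at hi
        simp only [hb', hi, if_true, xx]
      rw [h2]
      exact (hcon n (by omega)).le) j
  simp only [hb', hjJ, if_true] at h1
  have h2 : C * (1 / (2 * C) * X) = X / 2 := by
    field_simp
  rw [h2] at h1
  linarith

theorem s2_mul (P x : ℕ) (hP : 1 ≤ P) (hx : P ≤ 2 ^ x) : s2 (P * (2 ^ x - 1)) = x := by
  have e : P * (2 ^ x - 1) = 2 ^ x * (P - 1) + (2 ^ x - 1 - (P - 1)) := by
    obtain ⟨Q, rfl⟩ : ∃ Q, P = Q + 1 := ⟨P - 1, by omega⟩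
    obtain ⟨d, hd⟩ : ∃ d, 2 ^ x = Q + 1 + d := ⟨2 ^ x - (Q + 1), by omega⟩
    rw [hd]
    have h1 : Q + 1 + d - 1 = Q + d := by omega
    have h2 : Q + d - (Q + 1 - 1) = d := by omega
    rw [h1, h2, Nat.add_sub_cancel]
    ring
  rw [e, s2_pow _ _ _ (by omega)]
  exact s2_compl x (P - 1) (by omega)

theorem mod_two_diff (m : ℕ) : (((0 + m) % 2 : ℕ) : ℝ) - (((1 + m) % 2 : ℕ) : ℝ) = -(-1) ^ m := by
  rcases Nat.even_or_odd m with h | h
  · have h1 := Nat.even_iff.1 h
    have h2 : (0 + m) % 2 = 0 := by omega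
    have h3 : (1 + m) % 2 = 1 := by omega
    rw [h2, h3, h.neg_one_pow]
    norm_num
  · have h1 := Nat.odd_iff.1 h
    have h2 : (0 + m) % 2 = 1 := by omega
    have h3 : (1 + m) % 2 = 0 := by omega
    rw [h2, h3, h.neg_one_pow]
    norm_num

theorem cond2 (S P : ℕ) (hP : 1 ≤ P) : ∃ N1 : ℕ, ∃ δ : ℝ, 0 < δ ∧ δ ≤ 1 ∧ ∀ (b p : ℕ → ℤ) (X : ℝ),
    (∀ n, p (n + P) = p n) → 1 ≤ X →
    ((∃ n, X ≤ |(p n : ℝ)|) ∨ ∃ j < S, X ≤ |(b j : ℝ)|) →
    ∃ n < N1, ∃ e < 2, ∀ s : ℕ, s % 2 = e →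
      δ * (((S : ℝ) + 1) * X) ≤ |(p n : ℝ) + ∑ j ∈ range S, (b j : ℝ) * (((s + s2 (n + j)) % 2 : ℕ) : ℝ)| := by
  obtain ⟨N0, δ0, hδ0, hc⟩ := cond S
  have hS : (0 : ℝ) < (S : ℝ) + 1 := by positivity
  set δ' : ℝ := 1 / (2 * ((S : ℝ) + 1)) with hδ'
  have hδ'0 : 0 < δ' := by positivity
  set κ : ℝ := min (1 / 2) (δ0 * δ' / 2) with hκ
  have hκ0 : 0 < κ := lt_min (by norm_num) (by positivity)
  have hκ1 : κ ≤ 1 / 2 := min_le_left _ _
  have hκ2 : κ ≤ δ0 * δ' / 2 := min_le_right _ _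
  refine ⟨N0 + P, κ / ((S : ℝ) + 1), by positivity, ?_, fun b p X hp hX hmax => ?_⟩
  · rw [div_le_one hS]
    have : (0 : ℝ) ≤ (S : ℝ) := by positivity
    linarith
  have e0 : κ / ((S : ℝ) + 1) * (((S : ℝ) + 1) * X) = κ * X := by
    field_simp
  rw [e0]
  have hmod : ∀ s e m : ℕ, s % 2 = e → (s + m) % 2 = (e + m) % 2 := by
    intro s e m h
    omega
  by_cases h1 : ∃ j < S, δ' * X ≤ |(b j : ℝ)|
  · obtain ⟨n, hn, hn2⟩ := hc (fun j => (b j : ℝ)) (δ' * X) (by positivity) h1
    set y : ℕ → ℝ := fun e => (p n : ℝ) + ∑ j ∈ range S, (b j : ℝ) * (((e + s2 (n + j)) % 2 : ℕ) : ℝ) with hy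
    have hdiff : y 0 - y 1 = -∑ j ∈ range S, (b j : ℝ) * (-1) ^ ((Nat.digits 2 (n + j)).sum) := by
      simp only [hy]
      rw [add_sub_add_left_eq_sub, ← Finset.sum_sub_distrib, ← Finset.sum_neg_distrib]
      refine Finset.sum_congr rfl fun j _ => ?_
      rw [← mul_sub, mod_two_diff]
      unfold s2
      ring
    have habs : δ0 * (δ' * X) ≤ |y 0| + |y 1| := by
      have h2 : |y 0 - y 1| ≤ |y 0| + |y 1| := abs_sub _ _
      rw [hdiff, abs_neg] at h2
      linarith
    have hκX : κ * X ≤ δ0 * δ' / 2 * X := by gcongr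
    by_cases h0 : κ * X ≤ |y 0|
    · refine ⟨n, by omega, 0, by norm_num, fun s hs => ?_⟩
      simp only [hmod s 0 _ hs]
      exact h0
    · refine ⟨n, by omega, 1, by norm_num, fun s hs => ?_⟩
      simp only [hmod s 1 _ hs]
      push Not at h0
      have : κ * X ≤ |y 1| := by nlinarith
      exact this
  · push Not at h1
    have hδX : δ' * X ≤ X := by
      have : δ' ≤ 1 := by
        rw [hδ', div_le_one (by positivity)]
        have : (0 : ℝ) ≤ (S : ℝ) := by positivity
        linarith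
      calc δ' * X ≤ 1 * X := by gcongr
        _ = X := one_mul X
    rcases hmax with ⟨n, hn⟩ | ⟨j, hj, hj2⟩
    · refine ⟨n % P, by have := Nat.mod_lt n (show 0 < P by omega); omega, 0, by norm_num, fun s hs => ?_⟩
      have hper : Function.Periodic p P := hp
      rw [hper.map_mod_nat n]
      have h2 : |∑ j ∈ range S, (b j : ℝ) * (((s + s2 (n % P + j)) % 2 : ℕ) : ℝ)| ≤ X / 2 := by
        refine (Finset.abs_sum_le_sum_abs _ _).trans ?_
        have h3 : ∑ j ∈ range S, |(b j : ℝ) * (((s + s2 (n % P + j)) % 2 : ℕ) : ℝ)| ≤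
            ∑ j ∈ range S, δ' * X := by
          refine Finset.sum_le_sum fun j hj => ?_
          rw [abs_mul, Nat.abs_cast]
          have h4 : (((s + s2 (n % P + j)) % 2 : ℕ) : ℝ) ≤ 1 := by
            have : (s + s2 (n % P + j)) % 2 ≤ 1 := by omega
            exact_mod_cast this
          have h5 := (h1 j (Finset.mem_range.1 hj)).le
          calc |(b j : ℝ)| * (((s + s2 (n % P + j)) % 2 : ℕ) : ℝ) ≤ |(b j : ℝ)| * 1 := by gcongr
            _ ≤ δ' * X := by linarith
        refine h3.trans ?_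
        rw [Finset.sum_const, Finset.card_range, nsmul_eq_mul]
        have h6 : (S : ℝ) * δ' ≤ 1 / 2 := by
          rw [hδ', mul_one_div, div_le_div_iff₀ (by positivity) (by norm_num)]
          linarith
        calc (S : ℝ) * (δ' * X) = ((S : ℝ) * δ') * X := by ring
          _ ≤ 1 / 2 * X := by gcongr
          _ = X / 2 := by ring
      have h3 : |(p n : ℝ)| ≤ |(p n : ℝ) + ∑ j ∈ range S, (b j : ℝ) * (((s + s2 (n % P + j)) % 2 : ℕ) : ℝ)| +
          |∑ j ∈ range S, (b j : ℝ) * (((s + s2 (n % P + j)) % 2 : ℕ) : ℝ)| := by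
        have := abs_sub ((p n : ℝ) + ∑ j ∈ range S, (b j : ℝ) * (((s + s2 (n % P + j)) % 2 : ℕ) : ℝ))
          (∑ j ∈ range S, (b j : ℝ) * (((s + s2 (n % P + j)) % 2 : ℕ) : ℝ))
        simpa using this
      have h4 : κ * X ≤ 1 / 2 * X := by gcongr
      linarith
    · have := h1 j hj
      linarith

theorem ser_split (S : ℕ) (b p : ℕ → ℤ) (B : ℝ) (hpB : ∀ n, |(p n : ℝ)| ≤ B) :
    ser (fun n => p n + ∑ j ∈ range S, b j * (((s2 (n + j) % 2 : ℕ)) : ℤ)) =
    (∑' n : ℕ, (p n : ℝ) / ((Nat.factorial n : ℕ) : ℝ)) + ∑ j ∈ range S, (b j : ℝ) *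
      ∑' n : ℕ, ((((Nat.digits 2 (n + j)).sum % 2 : ℕ) : ℝ) / ((Nat.factorial n : ℕ) : ℝ)) := by
  have h1 := (summ p B hpB).hasSum
  have h2 : ∀ j : ℕ, HasSum (fun n : ℕ => (b j : ℝ) * ((((Nat.digits 2 (n + j)).sum % 2 : ℕ) : ℝ) / ((Nat.factorial n : ℕ) : ℝ)))
      ((b j : ℝ) * ∑' n : ℕ, ((((Nat.digits 2 (n + j)).sum % 2 : ℕ) : ℝ) / ((Nat.factorial n : ℕ) : ℝ))) := by
    intro j
    have h3 := (summ (fun n => (((Nat.digits 2 (n + j)).sum % 2 : ℕ) : ℤ)) 1 (fun n => by
      rw [Int.cast_natCast, Nat.abs_cast]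
      have : (Nat.digits 2 (n + j)).sum % 2 ≤ 1 := by omega
      exact_mod_cast this)).hasSum
    simp only [Int.cast_natCast] at h3
    exact h3.mul_left _
  have h3 := h1.add (hasSum_sum (s := range S) fun j _ => h2 j)
  rw [← h3.tsum_eq]
  unfold ser
  refine tsum_congr fun n => ?_
  simp only [Int.cast_add, Int.cast_sum, Int.cast_mul, Int.cast_natCast]
  rw [add_div, Finset.sum_div]
  congr 1
  refine Finset.sum_congr rfl fun j _ => ?_
  unfold s2
  ring

theorem exists_max (S H : ℕ) (b p : ℕ → ℤ) (hpH : ∀ n, |p n| ≤ H) (hbH : ∀ j < S, |b j| ≤ H)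
    (h0 : (∃ n, p n ≠ 0) ∨ ∃ j < S, b j ≠ 0) :
    ∃ X : ℕ, 1 ≤ X ∧ X ≤ H ∧ (∀ n, |p n| ≤ X) ∧ (∀ j < S, |b j| ≤ X) ∧
      ((∃ n, (X : ℤ) ≤ |p n|) ∨ ∃ j < S, (X : ℤ) ≤ |b j|) := by
  classical
  have hex : ∃ X : ℕ, (∀ n, |p n| ≤ X) ∧ (∀ j < S, |b j| ≤ X) := ⟨H, hpH, hbH⟩
  obtain ⟨h1, h2⟩ := Nat.find_spec hex
  have hpos : 1 ≤ Nat.find hex := by
    by_contra h
    have h3 : Nat.find hex = 0 := by omega
    rw [h3] at h1 h2
    rcases h0 with ⟨n, hn⟩ | ⟨j, hj, hj2⟩
    · have := h1 n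
      simp at this
      exact hn this
    · have := h2 j hj
      simp at this
      exact hj2 this
  refine ⟨Nat.find hex, hpos, Nat.find_min' hex ⟨hpH, hbH⟩, h1, h2, ?_⟩
  have h3 := Nat.find_min hex (m := Nat.find hex - 1) (by omega)
  by_contra h4
  push Not at h4
  apply h3
  constructor
  · intro n
    have := h4.1 n
    omega
  · intro j hj
    have := h4.2 j hj
    omega

/-- the digits -/
def dig (S : ℕ) (b p : ℕ → ℤ) (n : ℕ) : ℤ := p n + ∑ j ∈ range S, b j * (((s2 (n + j) % 2 : ℕ)) : ℤ)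

theorem dig_bound (S X : ℕ) (b p : ℕ → ℤ) (hpX : ∀ n, |(p n : ℝ)| ≤ X)
    (hbX : ∀ j < S, |(b j : ℝ)| ≤ X) (n : ℕ) : |(dig S b p n : ℝ)| ≤ ((S : ℝ) + 1) * X := by
  unfold dig
  simp only [Int.cast_add, Int.cast_sum, Int.cast_mul, Int.cast_natCast]
  refine (abs_add_le _ _).trans ?_
  have h1 : |∑ j ∈ range S, (b j : ℝ) * ((s2 (n + j) % 2 : ℕ) : ℝ)| ≤ S * X := by
    refine (Finset.abs_sum_le_sum_abs _ _).trans ?_
    have h2 : ∑ j ∈ range S, |(b j : ℝ) * ((s2 (n + j) % 2 : ℕ) : ℝ)| ≤ ∑ j ∈ range S, (X : ℝ) := by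
      refine Finset.sum_le_sum fun j hj => ?_
      rw [abs_mul, Nat.abs_cast]
      have h4 : (((s2 (n + j)) % 2 : ℕ) : ℝ) ≤ 1 := by
        have : (s2 (n + j)) % 2 ≤ 1 := by omega
        exact_mod_cast this
      have h5 := hbX j (Finset.mem_range.1 hj)
      calc |(b j : ℝ)| * (((s2 (n + j)) % 2 : ℕ) : ℝ) ≤ |(b j : ℝ)| * 1 := by gcongr
        _ ≤ X := by linarith
    rw [Finset.sum_const, Finset.card_range, nsmul_eq_mul] at h2
    exact h2
  have h2 := hpX n
  linarith

/-- the word at a place whose colour is `e` -/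
def wd (S : ℕ) (b p : ℕ → ℤ) (e n : ℕ) : ℤ :=
  p n + ∑ j ∈ range S, b j * (((e + s2 (n + j)) % 2 : ℕ) : ℤ)

end Pool.Agent.Lib.MP_304139_nt.LM
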