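import Mathlib


set_option autoImplicit false

namespace Pool.Agent.Lib.MP_304139_nt.LM

open Finset

theorem pfr (u : ℕ) (z : ℝ) (hz : 0 < z) :
    1 / ∏ v ∈ range (u + 1), (z + v) =
      (1 / (u.factorial : ℝ)) * ∑ v ∈ range (u + 1), (-1) ^ v * (u.choose v : ℝ) / (z + v) := by
  induction u generalizing z with
  | zero => simp
  | succ u ih =>
    have hpos : ∀ v : ℕ, (0 : ℝ) < z + v := fun v => by positivity
    have hu : (0 : ℝ) < u.factorial := by exact_mod_cast u.factorial_pos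
    -- difference equation
    have h1 := ih z hz
    have h2 := ih (z + 1) (by linarith)
    have hprod : ∏ v ∈ range (u + 1), (z + 1 + (v : ℝ)) = ∏ v ∈ range (u + 1), (z + ((v + 1 : ℕ) : ℝ)) :=
      prod_congr rfl fun v _ => by push_cast; ring
    have hP : (0 : ℝ) < ∏ v ∈ range u, (z + ((v + 1 : ℕ) : ℝ)) :=
      prod_pos fun v _ => hpos (v + 1)
    have e0 : ∏ v ∈ range (u + 1), (z + (v : ℝ)) = z * ∏ v ∈ range u, (z + ((v + 1 : ℕ) : ℝ)) := by
      rw [prod_range_succ']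
      simp only [Nat.cast_zero, add_zero]
      ring
    have e1 : ∏ v ∈ range (u + 1), (z + ((v + 1 : ℕ) : ℝ)) =
        (∏ v ∈ range u, (z + ((v + 1 : ℕ) : ℝ))) * (z + ((u + 1 : ℕ) : ℝ)) := prod_range_succ _ _
    have e2 : ∏ v ∈ range (u + 1 + 1), (z + (v : ℝ)) =
        z * (∏ v ∈ range u, (z + ((v + 1 : ℕ) : ℝ))) * (z + ((u + 1 : ℕ) : ℝ)) := by
      rw [prod_range_succ, e0]
    have hdiff : 1 / ∏ v ∈ range (u + 1 + 1), (z + (v : ℝ)) = (1 / ((u : ℝ) + 1)) *
        (1 / ∏ v ∈ range (u + 1), (z + (v : ℝ)) - 1 / ∏ v ∈ range (u + 1), (z + 1 + (v : ℝ))) := by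
      rw [e2, e0, hprod, e1]
      have hu1 := hpos (u + 1)
      have hu2 : (0 : ℝ) < (u : ℝ) + 1 := by positivity
      field_simp
      push_cast
      ring
    rw [hdiff, h1, h2, ← mul_sub, ← mul_assoc]
    have hfac : 1 / ((u : ℝ) + 1) * (1 / (u.factorial : ℝ)) = 1 / ((u + 1).factorial : ℝ) := by
      rw [Nat.factorial_succ]
      push_cast
      field_simp
    rw [hfac]
    congr 1
    -- the sums
    have s1 : ∑ v ∈ range (u + 1), (-1 : ℝ) ^ v * (u.choose v : ℝ) / (z + v) =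
        ∑ v ∈ range (u + 1 + 1), (-1 : ℝ) ^ v * (u.choose v : ℝ) / (z + v) := by
      rw [sum_range_succ _ (u + 1), Nat.choose_succ_self]
      simp
    have s2 : ∑ v ∈ range (u + 1), (-1 : ℝ) ^ v * (u.choose v : ℝ) / (z + 1 + v) =
        -∑ v ∈ range (u + 1), (-1 : ℝ) ^ (v + 1) * (u.choose v : ℝ) / (z + ((v + 1 : ℕ) : ℝ)) := by
      rw [← sum_neg_distrib]
      refine sum_congr rfl fun v _ => ?_
      rw [pow_succ]
      push_cast
      ring
    rw [s1, s2, sub_neg_eq_add, sum_range_succ' _ (u + 1), sum_range_succ' _ (u + 1), add_right_comm,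
      ← sum_add_distrib]
    congr 1
    · refine sum_congr rfl fun v _ => ?_
      rw [Nat.choose_succ_succ]
      push_cast
      ring
    · simp

end Pool.Agent.Lib.MP_304139_nt.LM
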