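import Mathlib


set_option autoImplicit false

namespace Pool.Agent.Lib.MP_304139_nt.LM

open Finset

/-- weights of the divided difference -/
noncomputable def wt (T : ℕ) (μ : ℕ → ℝ) (j : ℕ) : ℝ := ∏ i ∈ (range (T + 1)).erase j, (μ j - μ i)⁻¹

theorem wt_poly (T : ℕ) (μ : ℕ → ℝ) (hμ : Set.InjOn μ (range (T + 1))) (q : Polynomial ℝ) (hq : q.natDegree < T) :
    ∑ j ∈ range (T + 1), wt T μ j * q.eval (μ j) = 0 := by
  have hdeg : q.degree < ((range (T + 1)).card : ℕ) := by
    rw [card_range]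
    exact lt_of_le_of_lt Polynomial.degree_le_natDegree (by exact_mod_cast (by omega))
  have h := Lagrange.coeff_eq_sum hμ hdeg
  rw [card_range, Nat.add_sub_cancel, Polynomial.coeff_eq_zero_of_natDegree_lt hq] at h
  rw [h]
  refine sum_congr rfl fun j _ => ?_
  rw [wt, prod_inv_distrib, div_eq_mul_inv, mul_comm]

theorem wt_frac (T : ℕ) (μ : ℕ → ℝ) (hμ : Set.InjOn μ (range (T + 1))) (q : Polynomial ℝ) (hq : q.natDegree ≤ T)
    (y : ℝ) (hy : ∀ j ∈ range (T + 1), μ j + y ≠ 0) :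
    ∑ j ∈ range (T + 1), wt T μ j * (q.eval (μ j) / (μ j + y)) =
      (-1) ^ T * q.eval (-y) / ∏ j ∈ range (T + 1), (μ j + y) := by
  have hdeg : q.degree < ((range (T + 1)).card : ℕ) := by
    rw [card_range]
    exact lt_of_le_of_lt Polynomial.degree_le_natDegree (by exact_mod_cast (by omega))
  have hP : ∏ j ∈ range (T + 1), (μ j + y) ≠ 0 := prod_ne_zero_iff.2 hy
  have h1 := Lagrange.eval_interpolate_not_at_node (s := range (T + 1)) (v := μ) (x := -y)
    (fun i => q.eval (μ i)) (fun i hi h => hy i hi (by linarith))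
  rw [← Lagrange.eq_interpolate hμ hdeg, Lagrange.eval_nodal] at h1
  have h2 : ∏ i ∈ range (T + 1), (-y - μ i) =
      (-1) ^ (T + 1) * ∏ j ∈ range (T + 1), (μ j + y) := by
    have : ∀ i ∈ range (T + 1), (-y - μ i) = (-1) * (μ i + y) := fun i _ => by ring
    rw [prod_congr rfl this, prod_mul_distrib, prod_const, card_range]
  have h3 : ∑ i ∈ range (T + 1), Lagrange.nodalWeight (range (T + 1)) μ i * (-y - μ i)⁻¹ *
      q.eval (μ i) = - ∑ j ∈ range (T + 1), wt T μ j * (q.eval (μ j) / (μ j + y)) := by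
    rw [← sum_neg_distrib]
    refine sum_congr rfl fun i hi => ?_
    have h4 : Lagrange.nodalWeight (range (T + 1)) μ i = wt T μ i := rfl
    have h5 : (-y - μ i)⁻¹ = -(μ i + y)⁻¹ := by
      rw [show -y - μ i = -(μ i + y) by ring, inv_neg]
    rw [h4, h5, div_eq_mul_inv]
    ring
  rw [h2, h3] at h1
  rw [eq_div_iff hP, h1]
  have h6 : ((-1 : ℝ) ^ T) * (-1) ^ T = 1 := by rw [← mul_pow]; norm_num
  rw [pow_succ]
  linear_combination (-(∑ j ∈ range (T + 1), wt T μ j * (q.eval (μ j) / (μ j + y))) *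
    ∏ j ∈ range (T + 1), (μ j + y)) * h6

end Pool.Agent.Lib.MP_304139_nt.LM
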