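import Mathlib
import Pool.Agent.Lib.MP_304139_nt.LM.Wt
import Pool.Agent.Lib.MP_304139_nt.LM.PFr

set_option autoImplicit false

namespace Pool.Agent.Lib.MP_304139_nt.LM

open Finset

private theorem sum_two_pow (L : ℕ) : ∑ u ∈ range L, (2 : ℝ) ^ u / (u.factorial : ℝ) ≤ 8 := by
  have h1 := Real.sum_le_exp_of_nonneg (show (0 : ℝ) ≤ 2 by norm_num) L
  have h2 : Real.exp 2 ≤ 8 := by
    have h3 := Real.exp_one_lt_d9
    have h4 : Real.exp 2 = Real.exp 1 * Real.exp 1 := by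
      rw [← Real.exp_add]
      norm_num
    rw [h4]
    have h5 := Real.exp_pos 1
    nlinarith
  exact h1.trans h2

/-- Expand each product by pfr, use wt_frac with y = (u0+v)/Q in [0,1]; ∑ 2^u/u! ≤ e^2 ≤ 8. -/
theorem sum_frac_bound (T L Q u0 m0 : ℕ) (ν : ℕ → ℕ) (hν : StrictMono ν) (hm0 : 1 ≤ m0) (hν0 : ∀ i, m0 ≤ ν i)
    (hQ : 1 ≤ Q) (huQ : u0 + L ≤ Q) (w : ℕ → ℝ) (B : ℝ) (hw : ∀ u, |w u| ≤ B) (q : Polynomial ℝ)
    (hq : q.natDegree ≤ T) (Y : ℝ) (hY : ∀ y : ℝ, 0 ≤ y → y ≤ 1 → |q.eval (-y)| ≤ Y) :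
    |∑ j ∈ range (T + 1), wt T (fun i => (ν i : ℝ)) j * (q.eval (ν j : ℝ) *
      ∑ u ∈ range L, w u / ∏ v ∈ range (u + 1), ((Q : ℝ) * ν j + u0 + v))| ≤ 8 * B * Y / (m0 : ℝ) ^ (T + 1) := by
  have hQ0 : (0 : ℝ) < Q := by exact_mod_cast hQ
  have hQ1 : (1 : ℝ) ≤ Q := by exact_mod_cast hQ
  have hm : (0 : ℝ) < m0 := by exact_mod_cast hm0
  have hνm : ∀ j, (m0 : ℝ) ≤ ν j := fun j => by exact_mod_cast hν0 j
  have hν1 : ∀ j, (0 : ℝ) < ν j := fun j => lt_of_lt_of_le hm (hνm j)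
  have hB : 0 ≤ B := (abs_nonneg _).trans (hw 0)
  have hY0 : 0 ≤ Y := (abs_nonneg _).trans (hY 0 le_rfl zero_le_one)
  have hmT : (0 : ℝ) < (m0 : ℝ) ^ (T + 1) := pow_pos hm _
  obtain ⟨S, hS⟩ : ∃ S : ℕ → ℝ, S = fun v : ℕ => ∑ j ∈ range (T + 1),
      wt T (fun i => (ν i : ℝ)) j *
      (q.eval (ν j : ℝ) / ((ν j : ℝ) + ((u0 : ℝ) + (v : ℝ)) / Q)) := ⟨_, rfl⟩
  have hSb : ∀ v, u0 + v ≤ Q → |S v| ≤ Y / (m0 : ℝ) ^ (T + 1) := by
    intro v hv
    have hy0 : 0 ≤ ((u0 : ℝ) + v) / Q := by positivity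
    have hy1 : ((u0 : ℝ) + v) / Q ≤ 1 := by
      rw [div_le_one hQ0]
      exact_mod_cast hv
    have h1 := wt_frac T (fun i => (ν i : ℝ))
      (fun a _ b _ h => hν.injective (Nat.cast_injective (R := ℝ) h)) q hq
      (((u0 : ℝ) + v) / Q) (fun j _ => (add_pos_of_pos_of_nonneg (hν1 j) hy0).ne')
    have h2 : S v = (-1) ^ T * q.eval (-(((u0 : ℝ) + v) / Q)) /
        ∏ j ∈ range (T + 1), ((ν j : ℝ) + ((u0 : ℝ) + v) / Q) := by
      rw [hS]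
      exact h1
    have h3 : (m0 : ℝ) ^ (T + 1) ≤ ∏ j ∈ range (T + 1), ((ν j : ℝ) + ((u0 : ℝ) + v) / Q) := by
      have h4 : (m0 : ℝ) ^ (T + 1) = ∏ _j ∈ range (T + 1), (m0 : ℝ) := by
        rw [Finset.prod_const, Finset.card_range]
      rw [h4]
      exact Finset.prod_le_prod (fun j _ => hm.le) (fun j _ => by linarith [hνm j])
    rw [h2, abs_div, abs_mul, abs_pow, abs_neg, abs_one, one_pow, one_mul,
      abs_of_pos (lt_of_lt_of_le hmT h3)]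
    exact div_le_div₀ hY0 (hY _ hy0 hy1) hmT h3
  have hterm : ∀ j u, w u / ∏ v ∈ range (u + 1), ((Q : ℝ) * ν j + u0 + v) =
      ∑ v ∈ range (u + 1), w u * (1 / (u.factorial : ℝ)) * ((-1) ^ v * (u.choose v : ℝ)) *
        (1 / (Q : ℝ)) * (1 / ((ν j : ℝ) + ((u0 : ℝ) + v) / Q)) := by
    intro j u
    have h1 := pfr u ((Q : ℝ) * ν j + u0) (add_pos_of_pos_of_nonneg (mul_pos hQ0 (hν1 j))
      (Nat.cast_nonneg _))
    rw [div_eq_mul_one_div, h1, Finset.mul_sum, Finset.mul_sum]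
    refine Finset.sum_congr rfl fun v _ => ?_
    have h2 : (ν j : ℝ) + ((u0 : ℝ) + v) / Q = ((Q : ℝ) * ν j + u0 + v) / Q := by
      field_simp
      ring
    have h3 : (0 : ℝ) < (Q : ℝ) * ν j + u0 + v := by
      have := mul_pos hQ0 (hν1 j)
      have h4 : (0 : ℝ) ≤ (u0 : ℝ) := Nat.cast_nonneg _
      have h5 : (0 : ℝ) ≤ (v : ℝ) := Nat.cast_nonneg _
      linarith
    rw [h2]
    field_simp
  have hexp : ∑ j ∈ range (T + 1), wt T (fun i => (ν i : ℝ)) j * (q.eval (ν j : ℝ) *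
      ∑ u ∈ range L, w u / ∏ v ∈ range (u + 1), ((Q : ℝ) * ν j + u0 + v)) =
      ∑ u ∈ range L, ∑ v ∈ range (u + 1), w u * (1 / (u.factorial : ℝ)) *
        ((-1) ^ v * (u.choose v : ℝ)) * (1 / (Q : ℝ)) * S v := by
    simp only [hterm, hS, Finset.mul_sum]
    rw [Finset.sum_comm]
    refine Finset.sum_congr rfl fun u _ => ?_
    rw [Finset.sum_comm]
    refine Finset.sum_congr rfl fun v _ => ?_
    refine Finset.sum_congr rfl fun j _ => ?_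
    ring
  rw [hexp]
  have hbu : ∀ u ∈ range L, |∑ v ∈ range (u + 1), w u * (1 / (u.factorial : ℝ)) *
      ((-1) ^ v * (u.choose v : ℝ)) * (1 / (Q : ℝ)) * S v| ≤
      (2 : ℝ) ^ u / (u.factorial : ℝ) * (B * Y / (m0 : ℝ) ^ (T + 1)) := by
    intro u hu
    have huL := Finset.mem_range.1 hu
    have hf : (0 : ℝ) < (u.factorial : ℝ) := by exact_mod_cast u.factorial_pos
    refine (Finset.abs_sum_le_sum_abs _ _).trans ?_
    have h1 : ∀ v ∈ range (u + 1), |w u * (1 / (u.factorial : ℝ)) *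
        ((-1) ^ v * (u.choose v : ℝ)) * (1 / (Q : ℝ)) * S v| ≤
        (u.choose v : ℝ) * ((1 / (u.factorial : ℝ)) * (B * Y / (m0 : ℝ) ^ (T + 1))) := by
      intro v hv
      have hvu := Finset.mem_range.1 hv
      have h2 := hSb v (by omega)
      have h3 : |w u * (1 / (u.factorial : ℝ)) * ((-1) ^ v * (u.choose v : ℝ)) * (1 / (Q : ℝ)) *
          S v| = |w u| * (1 / (u.factorial : ℝ)) * (u.choose v : ℝ) * (1 / (Q : ℝ)) * |S v| := by
        have h31 : |(u.choose v : ℝ)| = (u.choose v : ℝ) := abs_of_nonneg (Nat.cast_nonneg _)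
        rw [abs_mul, abs_mul, abs_mul, abs_mul, abs_mul, abs_pow, abs_neg, abs_one, one_pow,
          one_mul, abs_of_pos (div_pos one_pos hf), h31, abs_of_pos (div_pos one_pos hQ0)]
      rw [h3]
      have h4 : (1 : ℝ) / Q ≤ 1 := by
        rw [div_le_one hQ0]
        exact hQ1
      have h5 : (0 : ℝ) ≤ 1 / Q := (div_pos one_pos hQ0).le
      have hc : (0 : ℝ) ≤ (u.choose v : ℝ) := Nat.cast_nonneg _
      have hu1 : (0 : ℝ) ≤ 1 / (u.factorial : ℝ) := (div_pos one_pos hf).le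
      have h6 : |w u| * |S v| ≤ B * (Y / (m0 : ℝ) ^ (T + 1)) :=
        mul_le_mul (hw u) h2 (abs_nonneg _) hB
      have h7 : (1 / (Q : ℝ)) * (|w u| * |S v|) ≤ 1 * (B * (Y / (m0 : ℝ) ^ (T + 1))) :=
        mul_le_mul h4 h6 (mul_nonneg (abs_nonneg _) (abs_nonneg _)) zero_le_one
      calc |w u| * (1 / (u.factorial : ℝ)) * (u.choose v : ℝ) * (1 / (Q : ℝ)) * |S v|
          = ((u.choose v : ℝ) * (1 / (u.factorial : ℝ))) * ((1 / (Q : ℝ)) * (|w u| * |S v|)) := by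
            ring
        _ ≤ ((u.choose v : ℝ) * (1 / (u.factorial : ℝ))) *
            (1 * (B * (Y / (m0 : ℝ) ^ (T + 1)))) :=
            mul_le_mul_of_nonneg_left h7 (mul_nonneg hc hu1)
        _ = (u.choose v : ℝ) * ((1 / (u.factorial : ℝ)) * (B * Y / (m0 : ℝ) ^ (T + 1))) := by
            ring
    refine (Finset.sum_le_sum h1).trans (le_of_eq ?_)
    rw [← Finset.sum_mul]
    have h8 : ∑ v ∈ range (u + 1), (u.choose v : ℝ) = (2 : ℝ) ^ u := by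
      exact_mod_cast Nat.sum_range_choose u
    rw [h8]
    ring
  refine (Finset.abs_sum_le_sum_abs _ _).trans ((Finset.sum_le_sum hbu).trans ?_)
  rw [← Finset.sum_mul]
  have h9 : 0 ≤ B * Y / (m0 : ℝ) ^ (T + 1) := div_nonneg (mul_nonneg hB hY0) hmT.le
  calc (∑ u ∈ range L, (2 : ℝ) ^ u / (u.factorial : ℝ)) * (B * Y / (m0 : ℝ) ^ (T + 1))
      ≤ 8 * (B * Y / (m0 : ℝ) ^ (T + 1)) := mul_le_mul_of_nonneg_right (sum_two_pow L) h9
    _ = 8 * B * Y / (m0 : ℝ) ^ (T + 1) := by ring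

end Pool.Agent.Lib.MP_304139_nt.LM
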