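import Mathlib
import Pool.Agent.Lib.MP_304139_nt.LM.Wt

set_option autoImplicit false

namespace Pool.Agent.Lib.MP_304139_nt.LM

open Finset

private theorem wb_dist (ν : ℕ → ℕ) (hν : StrictMono ν) (j i : ℕ) :
    |(j : ℝ) - i| ≤ |(ν j : ℝ) - ν i| := by
  have key : ∀ i k : ℕ, ν i + k ≤ ν (i + k) := by
    intro i k
    induction k with
    | zero => exact le_rfl
    | succ k ih =>
      have h := hν (Nat.lt_succ_self (i + k))
      have e : i + (k + 1) = (i + k).succ := rfl
      rw [e]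
      omega
  rcases le_total i j with h | h
  · obtain ⟨k, rfl⟩ := Nat.exists_eq_add_of_le h
    have h1 : (ν i : ℝ) + k ≤ ν (i + k) := by exact_mod_cast key i k
    have h2 : (0 : ℝ) ≤ k := Nat.cast_nonneg k
    rw [abs_of_nonneg (by push_cast; linarith), abs_of_nonneg (by linarith)]
    push_cast
    linarith
  · obtain ⟨k, rfl⟩ := Nat.exists_eq_add_of_le h
    have h1 : (ν j : ℝ) + k ≤ ν (j + k) := by exact_mod_cast key j k
    have h2 : (0 : ℝ) ≤ k := Nat.cast_nonneg k
    rw [abs_of_nonpos (by push_cast; linarith), abs_of_nonpos (by linarith)]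
    push_cast
    linarith

private theorem wb_one (j i : ℕ) (h : i ≠ j) : 1 ≤ |(j : ℝ) - i| := by
  have h1 : (1 : ℤ) ≤ |(j : ℤ) - i| := by
    apply Int.one_le_abs
    omega
  exact_mod_cast h1

private theorem wb_abs (T : ℕ) (μ : ℕ → ℝ) (j : ℕ) :
    |wt T μ j| = ∏ i ∈ (range (T + 1)).erase j, |μ j - μ i|⁻¹ := by
  rw [wt, abs_prod]
  exact prod_congr rfl fun i _ => abs_inv _

theorem wt_abs_le_one (T : ℕ) (ν : ℕ → ℕ) (hν : StrictMono ν) (j : ℕ) :
    |wt T (fun i => (ν i : ℝ)) j| ≤ 1 := by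
  rw [wb_abs]
  refine prod_le_one (fun i _ => by positivity) fun i hi => ?_
  exact inv_le_one_of_one_le₀ ((wb_one j i (mem_erase.1 hi).1).trans (wb_dist ν hν j i))

private theorem wb_fac (T j : ℕ) (hj : j ≤ T) :
    ∏ i ∈ (range (T + 1)).erase j, |(j : ℝ) - i| = (j.factorial : ℝ) * ((T - j).factorial : ℝ) := by
  have hs : (range (T + 1)).erase j = range j ∪ Ico (j + 1) (T + 1) := by
    ext x
    simp only [mem_erase, mem_range, mem_union, mem_Ico]
    omega
  have hd : Disjoint (range j) (Ico (j + 1) (T + 1)) := by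
    rw [Finset.disjoint_left]
    intro x h1 h2
    rw [mem_range] at h1
    rw [mem_Ico] at h2
    omega
  rw [hs, prod_union hd]
  congr 1
  · have h1 : ∏ i ∈ range j, |(j : ℝ) - i| = ∏ i ∈ range j, (((j - 1 - i : ℕ) : ℝ) + 1) := by
      refine prod_congr rfl fun i hi => ?_
      have h2 := mem_range.1 hi
      have h3 : (j : ℝ) = ((j - 1 - i : ℕ) : ℝ) + 1 + i := by
        have h4 : j = (j - 1 - i) + 1 + i := by omega
        exact_mod_cast h4
      have h5 : (0 : ℝ) ≤ ((j - 1 - i : ℕ) : ℝ) := Nat.cast_nonneg _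
      rw [abs_of_nonneg (by linarith)]
      linarith
    rw [h1, prod_range_reflect (fun i : ℕ => (i : ℝ) + 1) j]
    have h2 := prod_range_add_one_eq_factorial j
    rw [← h2]
    push_cast
    rfl
  · rw [prod_Ico_eq_prod_range, show T + 1 - (j + 1) = T - j by omega,
      ← prod_range_add_one_eq_factorial (T - j)]
    push_cast
    refine prod_congr rfl fun i _ => ?_
    have h5 : (0 : ℝ) ≤ (i : ℝ) := Nat.cast_nonneg _
    rw [abs_of_nonpos (by linarith)]
    ring

theorem wt_abs_le_fac (T : ℕ) (ν : ℕ → ℕ) (hν : StrictMono ν) (j : ℕ) (hj : j ≤ T) :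
    |wt T (fun i => (ν i : ℝ)) j| ≤ 2 ^ T / (T.factorial : ℝ) := by
  rw [wb_abs]
  have h1 : ∏ i ∈ (range (T + 1)).erase j, |(ν j : ℝ) - ν i|⁻¹ ≤
      ∏ i ∈ (range (T + 1)).erase j, |(j : ℝ) - i|⁻¹ := by
    refine prod_le_prod (fun i _ => by positivity) fun i hi => ?_
    exact inv_anti₀ (lt_of_lt_of_le one_pos (wb_one j i (mem_erase.1 hi).1)) (wb_dist ν hν j i)
  refine h1.trans ?_
  rw [prod_inv_distrib, wb_fac T j hj]
  have h2 : (T.choose j : ℝ) * (j.factorial * (T - j).factorial) = T.factorial := by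
    have := Nat.choose_mul_factorial_mul_factorial hj
    rw [mul_assoc] at this
    exact_mod_cast this
  have h3 : (T.choose j : ℝ) ≤ 2 ^ T := by
    have h4 : T.choose j ≤ 2 ^ T := by
      rw [← Nat.sum_range_choose]
      exact single_le_sum (f := fun m => T.choose m) (fun _ _ => Nat.zero_le _)
        (mem_range.2 (Nat.lt_succ_of_le hj))
    exact_mod_cast h4
  have h5 : (0 : ℝ) < (j.factorial : ℝ) * ((T - j).factorial : ℝ) := by
    have := Nat.factorial_pos j
    have := Nat.factorial_pos (T - j)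
    positivity
  have h6 : (0 : ℝ) < (T.factorial : ℝ) := by
    have := Nat.factorial_pos T
    positivity
  rw [inv_eq_one_div, div_le_div_iff₀ h5 h6, one_mul, ← h2]
  exact mul_le_mul_of_nonneg_right h3 h5.le

theorem wt_last (T N : ℕ) (ν : ℕ → ℕ) (hν : StrictMono ν) (hN : ν T ≤ ν 0 + N) :
    1 ≤ (N : ℝ) ^ T * |wt T (fun i => (ν i : ℝ)) T| := by
  rw [wb_abs]
  have hs : (range (T + 1)).erase T = range T := by
    ext x
    simp only [mem_erase, mem_range]
    omega
  rw [hs]
  have h0 : (N : ℝ) ^ T = ∏ _i ∈ range T, (N : ℝ) := by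
    rw [prod_const, card_range]
  rw [h0, ← prod_mul_distrib]
  have h1 : (1 : ℝ) = ∏ _i ∈ range T, (1 : ℝ) := by rw [prod_const_one]
  rw [h1]
  refine prod_le_prod (fun _ _ => zero_le_one) fun i hi => ?_
  have h2 := hν (mem_range.1 hi)
  have h3 : ν 0 ≤ ν i := hν.monotone (Nat.zero_le i)
  have h4 : (ν i : ℝ) < ν T := by exact_mod_cast h2
  have h5 : (ν T : ℝ) ≤ ν i + N := by
    have : ν T ≤ ν i + N := by omega
    exact_mod_cast this
  rw [← div_eq_mul_inv, abs_of_pos (by linarith), le_div_iff₀ (by linarith), one_mul]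
  linarith

end Pool.Agent.Lib.MP_304139_nt.LM
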