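import Mathlib
import Pool.Agent.Lib.MP_304139_nt.LM.Wt
import Pool.Agent.Lib.MP_304139_nt.LM.Wb
import Pool.Agent.Lib.MP_304139_nt.LM.Frac

set_option autoImplicit false

namespace Pool.Agent.Lib.MP_304139_nt.LM

open Finset

/-- One step of the extrapolation: the next value is an integer of absolute value below `1`, hence `0`. -/
theorem extrap (T L Q u0 m0 N : ℕ) (ν : ℕ → ℕ) (hν : StrictMono ν) (hm0 : 1 ≤ m0) (hν0 : m0 ≤ ν 0)
    (hνT : ν T ≤ m0 + N) (hQ : 1 ≤ Q) (huQ : u0 + L ≤ Q) (w : ℕ → ℝ) (B : ℝ) (hw : ∀ u, |w u| ≤ B)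
    (q0 q1 : Polynomial ℝ) (hq0 : q0.natDegree < T) (hq1 : q1.natDegree < T) (x : ℕ → ℤ)
    (hint : ∃ z : ℤ, q0.eval (ν T : ℝ) + x T * q1.eval (ν T : ℝ) = z)
    (hzero : ∀ j < T, q0.eval (ν j : ℝ) + x j * q1.eval (ν j : ℝ) = 0)
    (Y Z R : ℝ) (hY : ∀ y : ℝ, 0 ≤ y → y ≤ 1 → |q1.eval (-y)| ≤ Y)
    (hZ : ∀ j ≤ T, |q1.eval (ν j : ℝ)| ≤ Z)
    (hR : ∀ j ≤ T, |(x j : ℝ) + ∑ u ∈ range L, w u / ∏ v ∈ range (u + 1), ((Q : ℝ) * ν j + u0 + v)| ≤ R)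
    (hnum : (N : ℝ) ^ T * (8 * B * Y / (m0 : ℝ) ^ (T + 1) + (T + 1) * (Z * R)) < 1) :
    q0.eval (ν T : ℝ) + x T * q1.eval (ν T : ℝ) = 0 := by
  have hm : ∀ i, m0 ≤ ν i := fun i => hν0.trans (hν.monotone (Nat.zero_le i))
  obtain ⟨W, hW⟩ : ∃ W : ℕ → ℝ, ∀ j, W j = wt T (fun i => (ν i : ℝ)) j := ⟨_, fun _ => rfl⟩
  obtain ⟨S, hS⟩ : ∃ S : ℕ → ℝ, ∀ j, S j = ∑ u ∈ range L, w u / ∏ v ∈ range (u + 1), ((Q : ℝ) * ν j + u0 + v) :=
    ⟨_, fun _ => rfl⟩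
  have hW1 : ∀ j, |W j| ≤ 1 := fun j => by rw [hW]; exact wt_abs_le_one T ν hν j
  have hinj : Set.InjOn (fun i => (ν i : ℝ)) (range (T + 1)) := by
    intro a _ b _ hab
    have hab' : (ν a : ℝ) = ν b := hab
    exact hν.injective (by exact_mod_cast hab')
  -- the divided difference of `q0`
  have h0 : ∑ j ∈ range (T + 1), W j * q0.eval (ν j : ℝ) = 0 := by
    have h := wt_poly T (fun i => (ν i : ℝ)) hinj q0 hq0
    rw [← h]
    exact sum_congr rfl fun j _ => by rw [hW]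
  -- only the last term is left
  have h1 : ∑ j ∈ range (T + 1), W j * (q0.eval (ν j : ℝ) + x j * q1.eval (ν j : ℝ)) =
      W T * (q0.eval (ν T : ℝ) + x T * q1.eval (ν T : ℝ)) := by
    rw [sum_range_succ, sum_eq_zero fun j hj => ?_, zero_add]
    rw [hzero j (mem_range.1 hj), mul_zero]
  have h2 : W T * (q0.eval (ν T : ℝ) + x T * q1.eval (ν T : ℝ)) =
      ∑ j ∈ range (T + 1), W j * (q1.eval (ν j : ℝ) * ((x j : ℝ) + S j)) -
        ∑ j ∈ range (T + 1), W j * (q1.eval (ν j : ℝ) * S j) := by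
    rw [← h1, ← sum_sub_distrib, ← sub_zero (∑ j ∈ range (T + 1), _), ← h0, ← sum_sub_distrib]
    exact sum_congr rfl fun j _ => by ring
  have h3 : |∑ j ∈ range (T + 1), W j * (q1.eval (ν j : ℝ) * ((x j : ℝ) + S j))| ≤ (T + 1) * (Z * R) := by
    refine (abs_sum_le_sum_abs _ _).trans ?_
    have h4 : ∀ j ∈ range (T + 1), |W j * (q1.eval (ν j : ℝ) * ((x j : ℝ) + S j))| ≤ Z * R := by
      intro j hj
      have hj' : j ≤ T := Nat.lt_succ_iff.1 (mem_range.1 hj)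
      have a1 := hZ j hj'
      have a2 := hR j hj'
      rw [← hS] at a2
      have hZ0 : 0 ≤ Z := (abs_nonneg _).trans a1
      rw [abs_mul, abs_mul]
      calc |W j| * (|q1.eval (ν j : ℝ)| * |(x j : ℝ) + S j|) ≤ 1 * (Z * R) :=
            mul_le_mul (hW1 j) (mul_le_mul a1 a2 (abs_nonneg _) hZ0)
              (mul_nonneg (abs_nonneg _) (abs_nonneg _)) zero_le_one
        _ = Z * R := one_mul _
    refine (sum_le_sum h4).trans ?_
    rw [sum_const, card_range, nsmul_eq_mul]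
    push_cast
    exact le_rfl
  have h5 : |∑ j ∈ range (T + 1), W j * (q1.eval (ν j : ℝ) * S j)| ≤ 8 * B * Y / (m0 : ℝ) ^ (T + 1) := by
    have h := sum_frac_bound T L Q u0 m0 ν hν hm0 hm hQ huQ w B hw q1 hq1.le Y hY
    refine le_trans (le_of_eq ?_) h
    congr 1
    exact sum_congr rfl fun j _ => by rw [hW, hS]
  have h6 : |W T * (q0.eval (ν T : ℝ) + x T * q1.eval (ν T : ℝ))| ≤
      8 * B * Y / (m0 : ℝ) ^ (T + 1) + (T + 1) * (Z * R) := by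
    rw [h2]
    refine (abs_sub _ _).trans ?_
    linarith
  have h7 := wt_last T N ν hν (hνT.trans (Nat.add_le_add_right hν0 N))
  rw [← hW] at h7
  obtain ⟨z, hz⟩ := hint
  have h8 : |q0.eval (ν T : ℝ) + x T * q1.eval (ν T : ℝ)| < 1 := by
    have hN0 : (0 : ℝ) ≤ (N : ℝ) ^ T := by positivity
    calc |q0.eval (ν T : ℝ) + x T * q1.eval (ν T : ℝ)|
        ≤ (N : ℝ) ^ T * |W T| * |q0.eval (ν T : ℝ) + x T * q1.eval (ν T : ℝ)| :=
          le_mul_of_one_le_left (abs_nonneg _) h7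
      _ = (N : ℝ) ^ T * |W T * (q0.eval (ν T : ℝ) + x T * q1.eval (ν T : ℝ))| := by rw [abs_mul]; ring
      _ ≤ (N : ℝ) ^ T * (8 * B * Y / (m0 : ℝ) ^ (T + 1) + (T + 1) * (Z * R)) := mul_le_mul_of_nonneg_left h6 hN0
      _ < 1 := hnum
  rw [hz] at h8 ⊢
  have h9 : |z| < 1 := by exact_mod_cast h8
  rw [Int.abs_lt_one_iff] at h9
  rw [h9, Int.cast_zero]

end Pool.Agent.Lib.MP_304139_nt.LM
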