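import Mathlib
import Pool.Agent.Lib.MP_304139_nt.LM.Base

set_option autoImplicit false

namespace Pool.Agent.Lib.MP_304139_nt.LM

open Finset

/-- parameters -/
def eta (W A : ℕ) : ℕ := 2 ^ (25 + 3 * (W * (A + 2))) * (3 * (W * (A + 2))) ^ 2
/-- parameters -/
def NN (W A d : ℕ) : ℕ := W * ((A + 2) * d)
/-- parameters -/
def mz (W A d : ℕ) : ℕ := eta W A * NN W A d
/-- parameters -/
def XX (W A d : ℕ) : ℕ := (4 * d * (3 * 2 ^ d * 2 ^ NN W A d)) ^ 3
/-- parameters -/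
def ZZ (W A d : ℕ) : ℕ := 2 * d * XX W A d * 2 ^ NN W A d
/-- parameters -/
def YY (W A d : ℕ) : ℕ := 2 * d * XX W A d * (mz W A d + 2 * d).choose (2 * d)

end Pool.Agent.Lib.MP_304139_nt.LM
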