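import Mathlib
import Pool.Agent.Lib.MP_304139_nt.LM.Par

set_option autoImplicit false

namespace Pool.Agent.Lib.MP_304139_nt.LM

open Finset

private theorem num1a_choose (M k : ℕ) (hk : 1 ≤ k) :
    (M.choose k : ℝ) ≤ (3 * M / k) ^ k := by
  have hk0 : (0 : ℝ) < k := by exact_mod_cast hk
  have h1 : (M.choose k : ℝ) ≤ (M : ℝ) ^ k / k.factorial := Nat.choose_le_pow_div k M
  have h2 : (k : ℝ) ^ k / k.factorial ≤ 3 ^ k := by
    refine (Real.pow_div_factorial_le_exp (k : ℝ) hk0.le k).trans ?_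
    have h3 : Real.exp (k : ℝ) = Real.exp 1 ^ k := by
      rw [← Real.exp_nat_mul, mul_one]
    rw [h3]
    exact pow_le_pow_left₀ (Real.exp_pos 1).le (by linarith [Real.exp_one_lt_d9]) k
  refine h1.trans ?_
  have hf : (0 : ℝ) < k.factorial := by exact_mod_cast Nat.factorial_pos k
  rw [div_pow, mul_pow, div_le_div_iff₀ hf (by positivity)]
  rw [div_le_iff₀ hf] at h2
  have h4 : (0 : ℝ) ≤ (M : ℝ) ^ k := by positivity
  nlinarith [mul_le_mul_of_nonneg_left h2 h4]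

/-- choose(m0+2d,2d) ≤ (3 (m0+2d)/(2d))^(2d) ≤ (eta E)^(2d), E = 3 W (A+2); everything else is const^d; eta^(2d)/eta^(3d) = eta^(-d). -/
theorem num1a (W A d : ℕ) (hW : 1 ≤ W) (hA : 1 ≤ A) (hd : 1 ≤ d) :
    (NN W A d : ℝ) ^ (3 * d) * (8 * 2 ^ d * (YY W A d : ℝ) / (mz W A d : ℝ) ^ (3 * d + 1)) ≤ 1 / 4 := by
  obtain ⟨P, hP⟩ : ∃ P, P = W * (A + 2) := ⟨_, rfl⟩
  have hP1 : 1 ≤ P := by rw [hP]; exact Nat.mul_pos hW (by omega)
  have hN : NN W A d = P * d := by rw [hP]; unfold NN; ring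
  have hd0 : (1 : ℝ) ≤ d := by exact_mod_cast hd
  have hP0 : (1 : ℝ) ≤ P := by exact_mod_cast hP1
  obtain ⟨e, he⟩ : ∃ e : ℝ, e = (eta W A : ℝ) := ⟨_, rfl⟩
  have he1 : e = 2 ^ (25 + 3 * P) * (3 * P) ^ 2 := by
    rw [he, hP]; unfold eta; push_cast; ring
  have he2 : (2 : ℝ) ^ 25 ≤ e := by
    rw [he1, pow_add]
    have h1 : (1 : ℝ) ≤ 2 ^ (3 * P) := one_le_pow₀ (by norm_num)
    have h2 : (1 : ℝ) ≤ (3 * P) ^ 2 := one_le_pow₀ (by linarith)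
    calc (2 : ℝ) ^ 25 = (2 : ℝ) ^ 25 * 1 * 1 := by norm_num
      _ ≤ (2 : ℝ) ^ 25 * 2 ^ (3 * P) * (3 * (P : ℝ)) ^ 2 := by gcongr
  have he0 : 0 < e := lt_of_lt_of_le (by positivity) he2
  have hm : (mz W A d : ℝ) = e * (P * d) := by
    unfold mz; rw [hN, he]; push_cast; ring
  have hch : ((mz W A d + 2 * d).choose (2 * d) : ℝ) ≤ (e * (3 * P)) ^ (2 * d) := by
    refine (num1a_choose _ (2 * d) (by omega)).trans ?_
    refine pow_le_pow_left₀ (by positivity) ?_ _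
    rw [div_le_iff₀ (by positivity)]
    push_cast
    rw [hm]
    have h1 : (2 : ℝ) ≤ e * P := by
      calc (2 : ℝ) ≤ 2 ^ 25 * 1 := by norm_num
        _ ≤ e * P := mul_le_mul he2 hP0 (by norm_num) he0.le
    nlinarith [mul_le_mul_of_nonneg_right h1 (by linarith : (0 : ℝ) ≤ d)]
  have hd3 : (d : ℝ) ^ 3 ≤ 8 ^ d := by
    have h1 : (d : ℝ) ≤ 2 ^ d := by exact_mod_cast (Nat.lt_two_pow_self (n := d)).le
    calc (d : ℝ) ^ 3 ≤ (2 ^ d) ^ 3 := pow_le_pow_left₀ (by positivity) h1 3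
      _ = 8 ^ d := by rw [← pow_mul, mul_comm, pow_mul]; norm_num
  have hY : (YY W A d : ℝ) ≤ 2 * d * (12 * d * (2 ^ d * 2 ^ (P * d))) ^ 3 *
      (e * (3 * P)) ^ (2 * d) := by
    have hX : (XX W A d : ℝ) = (12 * d * (2 ^ d * 2 ^ (P * d))) ^ 3 := by
      unfold XX; rw [hN]; push_cast; ring
    unfold YY
    push_cast
    rw [hX]
    have := hch
    gcongr
  have hq : (0 : ℝ) < P * d := by positivity
  rw [hm, hN]
  push_cast
  have e1 : (e * ((P : ℝ) * d)) ^ (3 * d + 1) = (P * d : ℝ) ^ (3 * d) * (e ^ (3 * d + 1) * (P * d)) := by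
    rw [mul_pow, pow_succ (P * d : ℝ)]; ring
  rw [e1, mul_div_assoc', mul_div_mul_left _ _ (by positivity : ((P : ℝ) * d) ^ (3 * d) ≠ 0)]
  rw [div_le_iff₀ (by positivity)]
  have hed : e ^ d = 2 ^ (25 * d) * 2 ^ (3 * P * d) * (3 * P) ^ (2 * d) := by
    rw [he1, mul_pow, ← pow_mul, ← pow_mul, ← pow_add]
    ring_nf
  have key : (27648 : ℝ) * (d ^ 3 * 2 ^ (4 * d)) ≤ 1 / 4 * (2 ^ (25 * d) * (e * P)) := by
    have h1 : (2 : ℝ) ^ 25 ≤ e * P := by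
      calc (2 : ℝ) ^ 25 = 2 ^ 25 * 1 := by ring
        _ ≤ e * P := mul_le_mul he2 hP0 (by norm_num) he0.le
    have h2 : (8 : ℝ) ^ d * 2 ^ (4 * d) ≤ 2 ^ (25 * d) := by
      rw [show (8 : ℝ) = 2 ^ 3 by norm_num, ← pow_mul, ← pow_add]
      exact pow_le_pow_right₀ (by norm_num) (by omega)
    calc (27648 : ℝ) * (d ^ 3 * 2 ^ (4 * d)) ≤ 27648 * (8 ^ d * 2 ^ (4 * d)) := by gcongr
      _ ≤ 27648 * 2 ^ (25 * d) := by gcongr
      _ ≤ 1 / 4 * (2 ^ (25 * d) * 2 ^ 25) := by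
          have h3 : (0 : ℝ) ≤ 2 ^ (25 * d) := by positivity
          nlinarith
      _ ≤ 1 / 4 * (2 ^ (25 * d) * (e * P)) := by gcongr
  calc 8 * 2 ^ d * (YY W A d : ℝ)
      ≤ 8 * 2 ^ d * (2 * d * (12 * d * (2 ^ d * 2 ^ (P * d))) ^ 3 * (e * (3 * P)) ^ (2 * d)) := by
        gcongr
    _ = (27648 * (d ^ 3 * 2 ^ (4 * d))) * (d * 2 ^ (3 * P * d) * e ^ (2 * d) * (3 * P) ^ (2 * d)) := by
        rw [mul_pow e, show (2 : ℝ) ^ (4 * d) = 2 ^ d * (2 ^ d) ^ 3 by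
          rw [← pow_mul, ← pow_add]; ring_nf, show (2 : ℝ) ^ (3 * P * d) = (2 ^ (P * d)) ^ 3 by
          rw [← pow_mul]; ring_nf]
        ring
    _ ≤ (1 / 4 * (2 ^ (25 * d) * (e * P))) * (d * 2 ^ (3 * P * d) * e ^ (2 * d) * (3 * P) ^ (2 * d)) := by
        gcongr
    _ = 1 / 4 * ((e ^ (2 * d) * (2 ^ (25 * d) * 2 ^ (3 * P * d) * (3 * P) ^ (2 * d)) * e) * (P * d)) := by
        ring
    _ = 1 / 4 * (e ^ (3 * d + 1) * (P * d)) := by
        rw [← hed, ← pow_add, ← pow_succ]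
        ring_nf

end Pool.Agent.Lib.MP_304139_nt.LM
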