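import Mathlib
import Pool.Agent.Lib.MP_304139_nt.LM.Par

set_option autoImplicit false

namespace Pool.Agent.Lib.MP_304139_nt.LM

open Finset

theorem num1b_nat (W A d : ℕ) (hW : 1 ≤ W) (hA : 16 ≤ A) (hd : 1 ≤ d) :
    4 * (NN W A d ^ (3 * d) * ((3 * d + 1) * (ZZ W A d * (3 * 2 ^ d)))) ≤
      (A * d * mz W A d) ^ (A * d + 1) := by
  obtain ⟨e, he⟩ : ∃ e, e = W * (A + 2) := ⟨_, rfl⟩
  have he1 : 1 ≤ e := by rw [he]; exact Nat.one_le_iff_ne_zero.2 (by positivity)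
  have hNN : NN W A d = e * d := by rw [NN, he, mul_assoc]
  have heta : 2 ^ (25 + 3 * e) ≤ eta W A := by
    rw [eta, ← he]
    exact Nat.le_mul_of_pos_right _ (by positivity)
  obtain ⟨R, hR⟩ : ∃ R, R = A * d * mz W A d := ⟨_, rfl⟩
  have h1 : 2 ^ (25 + 3 * e) * (e * d) ≤ mz W A d := by
    rw [mz, hNN]
    exact Nat.mul_le_mul_right _ heta
  have hAd : 1 ≤ A * d := Nat.one_le_iff_ne_zero.2 (by positivity)
  have h2 : 2 ^ (25 + 3 * e) * (e * d) ≤ R := by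
    rw [hR]
    exact h1.trans (Nat.le_mul_of_pos_left _ hAd)
  have hed : 1 ≤ e * d := Nat.one_le_iff_ne_zero.2 (by positivity)
  have hd_le : d ≤ e * d := Nat.le_mul_of_pos_left _ he1
  have hp3 : 1 ≤ 2 ^ (3 * e) := Nat.one_le_two_pow
  have hRd : 2 ^ 25 * (e * d) ≤ R := by
    refine le_trans (Nat.mul_le_mul_right _ ?_) h2
    rw [pow_add]
    exact Nat.le_mul_of_pos_right _ hp3
  have hR2e : 2 ^ e ≤ R := by
    refine le_trans ?_ h2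
    calc 2 ^ e ≤ 2 ^ (25 + 3 * e) := Nat.pow_le_pow_right (by norm_num) (by omega)
      _ ≤ 2 ^ (25 + 3 * e) * (e * d) := Nat.le_mul_of_pos_right _ hed
  have hR12d : 12 * d ≤ R := by
    have : (2:ℕ) ^ 25 = 33554432 := by norm_num
    rw [this] at hRd
    omega
  have hR2 : 2 ≤ R := by omega
  have hR0 : 1 ≤ R := by omega
  have hR12 : 12 ≤ R := by omega
  have hR3d : 3 * d + 1 ≤ R := by omega
  have hR2d : 2 * d ≤ R := by omega
  have hRN : NN W A d ≤ R := by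
    rw [hNN]
    have : (2:ℕ) ^ 25 = 33554432 := by norm_num
    rw [this] at hRd
    omega
  have hN2 : 2 ^ NN W A d ≤ R ^ d := by
    rw [hNN, pow_mul]
    exact Nat.pow_le_pow_left hR2e d
  have h2d : 2 ^ d ≤ R ^ d := Nat.pow_le_pow_left hR2 d
  have hXX : XX W A d ≤ R ^ (6 * d + 3) := by
    have : 4 * d * (3 * 2 ^ d * 2 ^ NN W A d) ≤ R ^ (2 * d + 1) := by
      calc 4 * d * (3 * 2 ^ d * 2 ^ NN W A d) = (12 * d) * (2 ^ d * 2 ^ NN W A d) := by ring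
        _ ≤ R * (R ^ d * R ^ d) := Nat.mul_le_mul hR12d (Nat.mul_le_mul h2d hN2)
        _ = R ^ (2 * d + 1) := by ring
    calc XX W A d = (4 * d * (3 * 2 ^ d * 2 ^ NN W A d)) ^ 3 := rfl
      _ ≤ (R ^ (2 * d + 1)) ^ 3 := Nat.pow_le_pow_left this 3
      _ = R ^ (6 * d + 3) := by ring
  have hZZ : ZZ W A d ≤ R ^ (7 * d + 4) := by
    calc ZZ W A d = (2 * d) * XX W A d * 2 ^ NN W A d := rfl
      _ ≤ R * R ^ (6 * d + 3) * R ^ d :=
        Nat.mul_le_mul (Nat.mul_le_mul hR2d hXX) hN2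
      _ = R ^ (7 * d + 4) := by ring
  have hNp : NN W A d ^ (3 * d) ≤ R ^ (3 * d) := Nat.pow_le_pow_left hRN _
  rw [← hR]
  calc 4 * (NN W A d ^ (3 * d) * ((3 * d + 1) * (ZZ W A d * (3 * 2 ^ d))))
      = 12 * (NN W A d ^ (3 * d) * ((3 * d + 1) * (ZZ W A d * 2 ^ d))) := by ring
    _ ≤ R * (R ^ (3 * d) * (R * (R ^ (7 * d + 4) * R ^ d))) :=
      Nat.mul_le_mul hR12 (Nat.mul_le_mul hNp (Nat.mul_le_mul hR3d (Nat.mul_le_mul hZZ h2d)))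
    _ = R ^ (11 * d + 6) := by ring
    _ ≤ R ^ (A * d + 1) := by
      apply Nat.pow_le_pow_right hR0
      have : 16 * d ≤ A * d := Nat.mul_le_mul_right _ hA
      omega

theorem num1b (W A : ℕ) (hW : 1 ≤ W) (hA : 16 ≤ A) : ∃ D0 : ℕ, ∀ d ≥ D0,
    (NN W A d : ℝ) ^ (3 * d) * ((3 * (d : ℝ) + 1) * ((ZZ W A d : ℝ) *
      (3 * 2 ^ d / (((A * d : ℕ) : ℝ) * (mz W A d : ℝ)) ^ (A * d + 1)))) ≤ 1 / 4 := by
  refine ⟨1, fun d hd => ?_⟩
  have h := num1b_nat W A d hW hA hd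
  have hmz : 1 ≤ mz W A d := by
    have : mz W A d = 2 ^ (25 + 3 * (W * (A + 2))) * (3 * (W * (A + 2))) ^ 2 * (W * ((A + 2) * d)) :=
      rfl
    rw [this]
    exact Nat.one_le_iff_ne_zero.2 (by positivity)
  have hAd : 1 ≤ A * d := Nat.one_le_iff_ne_zero.2 (by positivity)
  have hpos : (0 : ℝ) < (((A * d : ℕ) : ℝ) * (mz W A d : ℝ)) ^ (A * d + 1) := by
    have h1 : (0 : ℝ) < ((A * d : ℕ) : ℝ) := by exact_mod_cast hAd
    have h2 : (0 : ℝ) < (mz W A d : ℝ) := by exact_mod_cast hmz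
    positivity
  have h' : 4 * ((NN W A d : ℝ) ^ (3 * d) * ((3 * (d : ℝ) + 1) * ((ZZ W A d : ℝ) * (3 * 2 ^ d)))) ≤
      (((A * d : ℕ) : ℝ) * (mz W A d : ℝ)) ^ (A * d + 1) := by
    exact_mod_cast h
  have e : (NN W A d : ℝ) ^ (3 * d) * ((3 * (d : ℝ) + 1) * ((ZZ W A d : ℝ) *
      (3 * 2 ^ d / (((A * d : ℕ) : ℝ) * (mz W A d : ℝ)) ^ (A * d + 1))))
      = ((NN W A d : ℝ) ^ (3 * d) * ((3 * (d : ℝ) + 1) * ((ZZ W A d : ℝ) * (3 * 2 ^ d)))) /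
        (((A * d : ℕ) : ℝ) * (mz W A d : ℝ)) ^ (A * d + 1) := by ring
  rw [e, div_le_iff₀ hpos]
  linarith

end Pool.Agent.Lib.MP_304139_nt.LM
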