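import Mathlib
import Pool.Agent.Lib.MP_304139_nt.LM.Par

set_option autoImplicit false

namespace Pool.Agent.Lib.MP_304139_nt.LM

open Finset

theorem num2_pow_fac (k d : ℕ) (hk : 1 ≤ k) (hd : 1 ≤ d) (x C : ℝ) (hx : 0 ≤ x) (hxC : x ≤ C * d) :
    x ^ (k * d) / ((k * d - 1).factorial : ℝ) ≤ (k * d : ℝ) * Real.exp C ^ d := by
  have hkd : k * d ≠ 0 := Nat.mul_ne_zero (by omega) (by omega)
  have h1 : ((k * d : ℕ) : ℝ) * ((k * d - 1).factorial : ℝ) = ((k * d).factorial : ℝ) := by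
    exact_mod_cast Nat.mul_factorial_pred hkd
  have hpos : (0 : ℝ) < ((k * d - 1).factorial : ℝ) := by positivity
  have hkd' : (0 : ℝ) < ((k * d : ℕ) : ℝ) := by exact_mod_cast Nat.pos_of_ne_zero hkd
  have h2 : x ^ (k * d) / ((k * d - 1).factorial : ℝ)
      = ((k * d : ℕ) : ℝ) * (x ^ (k * d) / ((k * d).factorial : ℝ)) := by
    rw [← h1]
    field_simp
  have h3 : x ^ (k * d) / ((k * d).factorial : ℝ) ≤ Real.exp x :=
    Real.pow_div_factorial_le_exp x hx (k * d)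
  have h4 : Real.exp x ≤ Real.exp C ^ d := by
    rw [← Real.exp_nat_mul]
    apply Real.exp_le_exp.2
    linarith
  rw [h2]
  have h5 := h3.trans h4
  push_cast
  have h6 : (0 : ℝ) ≤ (k : ℝ) * d := by positivity
  exact mul_le_mul_of_nonneg_left h5 h6

/-- the left side is at most C^d d^(4d), the right side at least c^d d^(8d). -/
theorem num2 (W A : ℕ) (hW : 1 ≤ W) (hA : 16 ≤ A) (δ : ℝ) (hδ : 0 < δ) : ∃ D0 : ℕ, ∀ d ≥ D0,
    (((A + 2) * d : ℕ) : ℝ) * (3 * 2 ^ d) * (ZZ W A d : ℝ) *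
      (2 * ((mz W A d : ℝ) + NN W A d + 1)) ^ ((A + 2) * d) / (((A + 2) * d - 1).factorial : ℝ) *
      (((2 * d).factorial : ℝ) * (4 * ((A * d : ℕ) : ℝ)) ^ (2 * d)) < δ * ((A * d / 2).factorial : ℝ) := by
  set k : ℕ := A + 2 with hk
  set C : ℝ := 2 * ((eta W A : ℝ) * (W * k) + W * k + 1) with hC
  set K : ℝ := (10368 * (k : ℝ) ^ 2) * 64 * 16 * 2 ^ (4 * (W * k)) * Real.exp C * (64 * (A : ℝ) ^ 2) with hK
  have hK0 : 0 < K := by
    have : (0 : ℝ) < A := by exact_mod_cast (by omega : 0 < A)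
    have : (0 : ℝ) < k := by exact_mod_cast (by omega : 0 < k)
    positivity
  obtain ⟨D1, hD1⟩ := exists_pow_lt_of_lt_one hδ (by norm_num : (1 / 2 : ℝ) < 1)
  refine ⟨max (max D1 1) ⌈2 * K⌉₊, fun d hd => ?_⟩
  have hdD : D1 ≤ d := (le_max_left _ _).trans ((le_max_left _ _).trans hd)
  have hd1 : 1 ≤ d := (le_max_right _ _).trans ((le_max_left _ _).trans hd)
  have hdK : 2 * K ≤ (d : ℝ) := (Nat.le_ceil _).trans (by exact_mod_cast (le_max_right _ _).trans hd)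
  have hd1' : (1 : ℝ) ≤ (d : ℝ) := by exact_mod_cast hd1
  have hd0 : (0 : ℝ) < (d : ℝ) := by linarith
  -- first factor
  have hx : 2 * ((mz W A d : ℝ) + NN W A d + 1) ≤ C * d := by
    rw [hC]
    unfold mz NN
    push_cast
    have e : (2 * (((eta W A : ℝ)) * (W * k) + W * k + 1)) * d
        - 2 * ((eta W A : ℝ) * (W * (((A : ℝ) + 2) * d)) + W * (((A : ℝ) + 2) * d) + 1) = 2 * (d - 1) := by
      rw [hk]
      push_cast
      ring
    linarith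
  have hx0 : 0 ≤ 2 * ((mz W A d : ℝ) + NN W A d + 1) := by positivity
  have h1 := num2_pow_fac k d (by omega) hd1 _ C hx0 hx
  -- ZZ
  have h2 : (ZZ W A d : ℝ) = 3456 * (d : ℝ) ^ 4 * (8 * 2 ^ (4 * (W * k))) ^ d := by
    unfold ZZ XX NN
    push_cast
    rw [mul_pow (8 : ℝ), ← pow_mul, show (8 : ℝ) = 2 ^ 3 by norm_num, ← pow_mul]
    rw [show 4 * (W * k) * d = 4 * (W * ((A + 2) * d)) by rw [hk]; ring, pow_mul (2 : ℝ) 3 d,
      pow_mul (2 : ℝ) 4 (W * ((A + 2) * d))]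
    rw [show ((2 : ℝ) ^ 3) ^ d = (2 ^ d) ^ 3 by rw [← pow_mul, ← pow_mul, mul_comm]]
    rw [show ((2 : ℝ) ^ 4) ^ (W * ((A + 2) * d)) = (2 ^ (W * ((A + 2) * d))) ^ 4 by
      rw [← pow_mul, ← pow_mul, mul_comm]]
    ring
  -- factorial
  have h3 : ((2 * d).factorial : ℝ) ≤ ((2 : ℝ) * d) ^ (2 * d) := by
    exact_mod_cast Nat.factorial_le_pow (2 * d)
  have h4 : ((2 * d).factorial : ℝ) * (4 * ((A * d : ℕ) : ℝ)) ^ (2 * d)
      ≤ (64 * (A : ℝ) ^ 2) ^ d * ((d : ℝ) ^ 4) ^ d := by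
    have e : ((2 : ℝ) * d) ^ (2 * d) * (4 * ((A * d : ℕ) : ℝ)) ^ (2 * d)
        = (64 * (A : ℝ) ^ 2) ^ d * ((d : ℝ) ^ 4) ^ d := by
      rw [← mul_pow, ← mul_pow, pow_mul]
      congr 1
      push_cast
      ring
    rw [← e]
    gcongr
  -- right side
  have h5 : ((d : ℝ) ^ 7) ^ d ≤ ((A * d / 2).factorial : ℝ) := by
    have h8 : 8 * d ≤ A * d / 2 := by
      rw [Nat.le_div_iff_mul_le (by norm_num)]
      nlinarith
    have h9 : d.factorial * (d + 1) ^ (7 * d) ≤ (d + 7 * d).factorial :=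
      Nat.factorial_mul_pow_le_factorial
    have h10 : d ^ (7 * d) ≤ (A * d / 2).factorial := by
      calc d ^ (7 * d) ≤ (d + 1) ^ (7 * d) := Nat.pow_le_pow_left (by omega) _
        _ ≤ d.factorial * (d + 1) ^ (7 * d) := Nat.le_mul_of_pos_left _ (Nat.factorial_pos d)
        _ ≤ (d + 7 * d).factorial := h9
        _ = (8 * d).factorial := by congr 1; ring
        _ ≤ (A * d / 2).factorial := Nat.factorial_le h8
    rw [← pow_mul]
    exact_mod_cast h10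
  -- polynomial factors
  have h6 : 10368 * (k : ℝ) ^ 2 * (d : ℝ) ^ 6 ≤ ((10368 * (k : ℝ) ^ 2) * 64) ^ d := by
    have hk1 : (1 : ℝ) ≤ k := by exact_mod_cast (by omega : 1 ≤ k)
    have a1 : (1 : ℝ) ≤ 10368 * (k : ℝ) ^ 2 := by nlinarith
    have a2 : 10368 * (k : ℝ) ^ 2 ≤ (10368 * (k : ℝ) ^ 2) ^ d := le_self_pow₀ a1 (by omega)
    have a3 : (d : ℝ) ≤ 2 ^ d := by exact_mod_cast (Nat.lt_two_pow_self (n := d)).le
    have a4 : (d : ℝ) ^ 6 ≤ 64 ^ d := by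
      calc (d : ℝ) ^ 6 ≤ (2 ^ d) ^ 6 := by gcongr
        _ = 64 ^ d := by rw [← pow_mul, mul_comm, pow_mul]; norm_num
    rw [mul_pow]
    gcongr
  -- assemble
  have h7 : (((A + 2) * d : ℕ) : ℝ) * (3 * 2 ^ d) * (ZZ W A d : ℝ) *
      (2 * ((mz W A d : ℝ) + NN W A d + 1)) ^ ((A + 2) * d) / (((A + 2) * d - 1).factorial : ℝ) *
      (((2 * d).factorial : ℝ) * (4 * ((A * d : ℕ) : ℝ)) ^ (2 * d)) ≤ K ^ d * ((d : ℝ) ^ 4) ^ d := by
    calc (((A + 2) * d : ℕ) : ℝ) * (3 * 2 ^ d) * (ZZ W A d : ℝ) *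
      (2 * ((mz W A d : ℝ) + NN W A d + 1)) ^ ((A + 2) * d) / (((A + 2) * d - 1).factorial : ℝ) *
      (((2 * d).factorial : ℝ) * (4 * ((A * d : ℕ) : ℝ)) ^ (2 * d))
        = (((k * d : ℕ) : ℝ) * (3 * 2 ^ d) * (ZZ W A d : ℝ)) *
      ((2 * ((mz W A d : ℝ) + NN W A d + 1)) ^ (k * d) / ((k * d - 1).factorial : ℝ)) *
      (((2 * d).factorial : ℝ) * (4 * ((A * d : ℕ) : ℝ)) ^ (2 * d)) := by
          rw [mul_div_assoc]
      _ ≤ (((k * d : ℕ) : ℝ) * (3 * 2 ^ d) * (3456 * (d : ℝ) ^ 4 * (8 * 2 ^ (4 * (W * k))) ^ d)) *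
          ((k * d : ℝ) * Real.exp C ^ d) * ((64 * (A : ℝ) ^ 2) ^ d * ((d : ℝ) ^ 4) ^ d) := by
          rw [h2]
          gcongr
      _ = (10368 * (k : ℝ) ^ 2 * (d : ℝ) ^ 6) * (16 * 2 ^ (4 * (W * k)) * Real.exp C * (64 * (A : ℝ) ^ 2)) ^ d
          * ((d : ℝ) ^ 4) ^ d := by
          rw [show (16 : ℝ) = 2 * 8 by norm_num]
          simp only [mul_pow]
          push_cast
          ring
      _ ≤ ((10368 * (k : ℝ) ^ 2) * 64) ^ d * (16 * 2 ^ (4 * (W * k)) * Real.exp C * (64 * (A : ℝ) ^ 2)) ^ d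
          * ((d : ℝ) ^ 4) ^ d := by
          gcongr
      _ = K ^ d * ((d : ℝ) ^ 4) ^ d := by
          rw [← mul_pow, hK]
          congr 2
          ring
  refine h7.trans_lt ?_
  have h8 : K ^ d * ((d : ℝ) ^ 4) ^ d < δ * ((d : ℝ) ^ 7) ^ d := by
    have b1 : K ^ d ≤ (1 / 2) ^ d * (d : ℝ) ^ d := by
      rw [← mul_pow]
      exact pow_le_pow_left₀ hK0.le (by linarith) _
    have b2 : (1 / 2 : ℝ) ^ d < δ :=
      (pow_le_pow_of_le_one (by norm_num) (by norm_num) hdD).trans_lt hD1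
    have b3 : ((d : ℝ) ^ 5) ^ d ≤ ((d : ℝ) ^ 7) ^ d := by
      gcongr
      norm_num
    calc K ^ d * ((d : ℝ) ^ 4) ^ d ≤ (1 / 2) ^ d * (d : ℝ) ^ d * ((d : ℝ) ^ 4) ^ d := by gcongr
      _ = (1 / 2) ^ d * ((d : ℝ) ^ 5) ^ d := by
          rw [mul_assoc, ← mul_pow]
          congr 2
          ring
      _ < δ * ((d : ℝ) ^ 5) ^ d := by
          apply mul_lt_mul_of_pos_right b2
          positivity
      _ ≤ δ * ((d : ℝ) ^ 7) ^ d := by gcongr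
  refine h8.trans_le ?_
  gcongr

end Pool.Agent.Lib.MP_304139_nt.LM
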