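import Mathlib


set_option autoImplicit false

namespace Pool.Agent.Lib.MP_304139_nt.LM

open Finset

theorem x_bound (L : ℕ) (z : ℝ) (hz : 4 ≤ z) (w : ℕ → ℤ) (B : ℝ) (hB : 0 ≤ B) (hw : ∀ u, |(w u : ℝ)| ≤ B) (x : ℤ)
    (h : |(x : ℝ) + ∑ u ∈ range L, (w u : ℝ) / ∏ v ∈ range (u + 1), (z + v)| ≤ 3 * B / z ^ (L + 1)) :
    |(x : ℝ)| ≤ 3 * B := by
  have hz0 : (0 : ℝ) < z := by linarith
  have hprod : ∀ u : ℕ, (4 : ℝ) ^ (u + 1) ≤ ∏ v ∈ range (u + 1), (z + v) := by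
    intro u
    calc (4 : ℝ) ^ (u + 1) = ∏ _v ∈ range (u + 1), (4 : ℝ) := by simp
      _ ≤ ∏ v ∈ range (u + 1), (z + v) := by
          apply Finset.prod_le_prod
          · intro i _; norm_num
          · intro i _
            have : (0 : ℝ) ≤ (i : ℝ) := Nat.cast_nonneg i
            linarith
  have hterm : ∀ u : ℕ, |(w u : ℝ) / ∏ v ∈ range (u + 1), (z + v)| ≤ B * (1 / 4) ^ (u + 1) := by
    intro u
    have h4 : (0 : ℝ) < 4 ^ (u + 1) := by positivity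
    have hp : (0 : ℝ) < ∏ v ∈ range (u + 1), (z + v) := lt_of_lt_of_le h4 (hprod u)
    rw [abs_div, abs_of_pos hp]
    calc |(w u : ℝ)| / ∏ v ∈ range (u + 1), (z + v) ≤ B / (4 : ℝ) ^ (u + 1) :=
          div_le_div₀ hB (hw u) h4 (hprod u)
      _ = B * (1 / 4) ^ (u + 1) := by rw [one_div, inv_pow, div_eq_mul_inv]
  have hgeo : ∀ n : ℕ, ∑ u ∈ range n, (1 / 4 : ℝ) ^ (u + 1) ≤ 1 / 3 := by
    intro n
    have : ∑ u ∈ range n, (1 / 4 : ℝ) ^ (u + 1) = 1 / 3 - (1 / 3) * (1 / 4) ^ n := by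
      induction n with
      | zero => simp
      | succ n ih => rw [Finset.sum_range_succ, ih, pow_succ]; ring
    rw [this]
    have : (0 : ℝ) ≤ (1 / 3) * (1 / 4) ^ n := by positivity
    linarith
  have hS : |∑ u ∈ range L, (w u : ℝ) / ∏ v ∈ range (u + 1), (z + v)| ≤ B * (1 / 3) := by
    calc |∑ u ∈ range L, (w u : ℝ) / ∏ v ∈ range (u + 1), (z + v)|
        ≤ ∑ u ∈ range L, |(w u : ℝ) / ∏ v ∈ range (u + 1), (z + v)| := Finset.abs_sum_le_sum_abs _ _
      _ ≤ ∑ u ∈ range L, B * (1 / 4) ^ (u + 1) := Finset.sum_le_sum fun u _ => hterm u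
      _ = B * ∑ u ∈ range L, (1 / 4 : ℝ) ^ (u + 1) := by rw [Finset.mul_sum]
      _ ≤ B * (1 / 3) := mul_le_mul_of_nonneg_left (hgeo L) hB
  have hzp : (1 : ℝ) ≤ z ^ (L + 1) := one_le_pow₀ (by linarith)
  have hz4 : (4 : ℝ) ≤ z ^ (L + 1) := by
    rw [pow_succ]
    have : (1 : ℝ) ≤ z ^ L := one_le_pow₀ (by linarith)
    nlinarith
  have hd : 3 * B / z ^ (L + 1) ≤ 3 * B / 4 := div_le_div_of_nonneg_left (by positivity) (by norm_num) hz4
  have hx : |(x : ℝ)| ≤ |(x : ℝ) + ∑ u ∈ range L, (w u : ℝ) / ∏ v ∈ range (u + 1), (z + v)| +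
      |∑ u ∈ range L, (w u : ℝ) / ∏ v ∈ range (u + 1), (z + v)| := by
    have := abs_sub ((x : ℝ) + ∑ u ∈ range L, (w u : ℝ) / ∏ v ∈ range (u + 1), (z + v))
      (∑ u ∈ range L, (w u : ℝ) / ∏ v ∈ range (u + 1), (z + v))
    simpa using this
  linarith

theorem prod_bound (L : ℕ) (z : ℝ) (hz : 4 ≤ z) (hL : (L : ℝ) ^ 2 ≤ z) :
    ∏ v ∈ range L, (z + v) ≤ z ^ (L + 1) := by
  have hz0 : (0 : ℝ) < z := by linarith
  have hL0 : (0 : ℝ) ≤ (L : ℝ) := Nat.cast_nonneg L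
  calc ∏ v ∈ range L, (z + v) ≤ ∏ _v ∈ range L, (z * Real.exp ((L : ℝ) / z)) := by
        apply Finset.prod_le_prod
        · intro i _
          have : (0 : ℝ) ≤ (i : ℝ) := Nat.cast_nonneg i
          linarith
        · intro i hi
          have hi' : (i : ℝ) ≤ (L : ℝ) := by
            exact_mod_cast (Finset.mem_range.mp hi).le
          have he : (L : ℝ) / z + 1 ≤ Real.exp ((L : ℝ) / z) := Real.add_one_le_exp _
          have : z * ((L : ℝ) / z + 1) ≤ z * Real.exp ((L : ℝ) / z) := mul_le_mul_of_nonneg_left he hz0.le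
          have e2 : z * ((L : ℝ) / z + 1) = L + z := by field_simp
          linarith
    _ = z ^ L * Real.exp ((L : ℝ) / z) ^ L := by rw [Finset.prod_const, Finset.card_range, mul_pow]
    _ = z ^ L * Real.exp ((L : ℝ) * ((L : ℝ) / z)) := by rw [← Real.exp_nat_mul]
    _ ≤ z ^ L * Real.exp 1 := by
        apply mul_le_mul_of_nonneg_left _ (by positivity)
        apply Real.exp_le_exp.mpr
        rw [← mul_div_assoc, div_le_one hz0]
        nlinarith
    _ ≤ z ^ L * z := by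
        apply mul_le_mul_of_nonneg_left _ (by positivity)
        have := Real.exp_one_lt_d9
        linarith
    _ = z ^ (L + 1) := by rw [pow_succ]

end Pool.Agent.Lib.MP_304139_nt.LM
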