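import Mathlib
import Pool.Agent.Lib.MP_304139_nt.LM.Wt
import Pool.Agent.Lib.MP_304139_nt.LM.Wb

set_option autoImplicit false

namespace Pool.Agent.Lib.MP_304139_nt.LM

open Finset

private theorem prod_fac (v0 j : ℕ) : ∀ m : ℕ, j + 1 ≤ m →
    (j.factorial : ℝ) * ∏ v ∈ Ico (v0 + j + 1) (v0 + m), ((v : ℝ) - v0) = ((m - 1).factorial : ℝ) := by
  intro m hm
  induction m, hm using Nat.le_induction with
  | base =>
    rw [show v0 + (j + 1) = v0 + j + 1 by ring, Ico_self, prod_empty, mul_one, Nat.add_sub_cancel]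
  | succ m hm ih =>
    rw [show v0 + (m + 1) = v0 + m + 1 by ring, prod_Ico_succ_top (by omega), ← mul_assoc, ih,
      Nat.add_sub_cancel]
    obtain ⟨k, rfl⟩ : ∃ k, m = k + 1 := ⟨m - 1, by omega⟩
    rw [Nat.add_sub_cancel, Nat.factorial_succ]
    push_cast
    ring

private theorem sum_fac (L v0 : ℕ) (hv0 : v0 < L) (w : ℕ → ℝ) :
    ∑ u ∈ range L, w u * ∏ v ∈ Ico (u + 1) L, ((v : ℝ) - v0) =
      ((L - 1 - v0).factorial : ℝ) * ∑ j ∈ range (L - v0), w (v0 + j) / (j.factorial : ℝ) := by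
  obtain ⟨m, rfl⟩ : ∃ m, L = v0 + m := ⟨L - v0, by omega⟩
  rw [sum_range_add, show v0 + m - 1 - v0 = m - 1 by omega, show v0 + m - v0 = m by omega]
  have h1 : ∑ u ∈ range v0, w u * ∏ v ∈ Ico (u + 1) (v0 + m), ((v : ℝ) - v0) = 0 := by
    refine sum_eq_zero fun u hu => ?_
    rw [mem_range] at hu
    rw [prod_eq_zero (i := v0) (by rw [mem_Ico]; omega) (sub_self _), mul_zero]
  rw [h1, zero_add, mul_sum]
  refine sum_congr rfl fun j hj => ?_
  rw [mem_range] at hj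
  have h2 := prod_fac v0 j m (by omega)
  have h3 : (j.factorial : ℝ) ≠ 0 := by positivity
  rw [← h2]
  field_simp

/-- G = D (q0 - Φ q1) with D(μ) = ∏_{v<L} (Q μ + u0 + v) is a polynomial of degree < K = L + n,
G(ν j) = - D(ν j) r_j q1(ν j), and |G(-(u0+v0)/Q)| is the left side; Lagrange at the K nodes ν 0, ..., ν (K-1)
(wt_frac with T = K-1), |wt| ≤ 2^(K-1)/(K-1)!. -/
theorem zero_est (K L n Q u0 : ℕ) (hK : K = L + n) (hn : 1 ≤ n) (ν : ℕ → ℕ) (hν : StrictMono ν)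
    (hν0 : 1 ≤ ν 0) (hQ : 1 ≤ Q) (huQ : u0 + L ≤ Q)
    (w : ℕ → ℝ) (q0 q1 : Polynomial ℝ) (hq0 : q0.natDegree < n) (hq1 : q1.natDegree < n) (x : ℕ → ℤ)
    (hzero : ∀ j < K, q0.eval (ν j : ℝ) + x j * q1.eval (ν j : ℝ) = 0) (R Z M1 : ℝ)
    (hR : ∀ j < K, (∏ v ∈ range L, ((Q : ℝ) * ν j + u0 + v)) *
      |(x j : ℝ) + ∑ u ∈ range L, w u / ∏ v ∈ range (u + 1), ((Q : ℝ) * ν j + u0 + v)| ≤ R)
    (hZ : ∀ j < K, |q1.eval (ν j : ℝ)| ≤ Z) (hM1 : ∀ j < K, (ν j : ℝ) + 1 ≤ M1) (v0 : ℕ) (hv0 : v0 < L) :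
    ((L - 1 - v0).factorial : ℝ) * |∑ j ∈ range (L - v0), w (v0 + j) / (j.factorial : ℝ)| *
      |q1.eval (-(((u0 + v0 : ℕ) : ℝ) / Q))| ≤ K * R * Z * (2 * M1) ^ K / ((K - 1).factorial : ℝ) := by
  classical
  obtain ⟨T, rfl⟩ : ∃ T, K = T + 1 := ⟨K - 1, by omega⟩
  obtain ⟨lin, hlin, hlindeg⟩ : ∃ lin : ℕ → Polynomial ℝ,
      (∀ (v : ℕ) (μ : ℝ), (lin v).eval μ = (Q : ℝ) * μ + u0 + v) ∧
        ∀ v : ℕ, (lin v).natDegree ≤ 1 := by
    refine ⟨fun v => Polynomial.C (Q : ℝ) * Polynomial.X + Polynomial.C ((u0 : ℝ) + (v : ℝ)),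
      fun v μ => ?_, fun v => Polynomial.natDegree_linear_le⟩
    simp only [Polynomial.eval_add, Polynomial.eval_mul, Polynomial.eval_C, Polynomial.eval_X]
    ring
  obtain ⟨Dp, hDp⟩ : ∃ Dp : Polynomial ℝ, Dp = ∏ v ∈ range L, lin v := ⟨_, rfl⟩
  obtain ⟨Fp, hFp⟩ : ∃ Fp : Polynomial ℝ, Fp = ∑ u ∈ range L,
      Polynomial.C (w u) * ∏ v ∈ Ico (u + 1) L, lin v := ⟨_, rfl⟩
  have hDeval : ∀ μ : ℝ, Dp.eval μ = ∏ v ∈ range L, ((Q : ℝ) * μ + u0 + v) := by
    intro μ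
    rw [hDp, Polynomial.eval_prod]
    exact prod_congr rfl fun v _ => hlin v μ
  have hFeval : ∀ μ : ℝ, Fp.eval μ = ∑ u ∈ range L, w u *
      ∏ v ∈ Ico (u + 1) L, ((Q : ℝ) * μ + u0 + v) := by
    intro μ
    rw [hFp, Polynomial.eval_finsetSum]
    refine sum_congr rfl fun u _ => ?_
    rw [Polynomial.eval_mul, Polynomial.eval_C, Polynomial.eval_prod]
    congr 1
    exact prod_congr rfl fun v _ => hlin v μ
  have hprodeg : ∀ s : Finset ℕ, (∏ v ∈ s, lin v).natDegree ≤ s.card := by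
    intro s
    refine (Polynomial.natDegree_prod_le _ _).trans ?_
    calc ∑ i ∈ s, (lin i).natDegree ≤ ∑ _i ∈ s, 1 := sum_le_sum fun i _ => hlindeg i
      _ = s.card := by simp
  have hDdeg : Dp.natDegree ≤ L := by
    rw [hDp]
    simpa using hprodeg (range L)
  have hFdeg : Fp.natDegree ≤ L - 1 := by
    rw [hFp]
    refine Polynomial.natDegree_sum_le_of_forall_le _ _ fun u hu => ?_
    refine (Polynomial.natDegree_C_mul_le _ _).trans ((hprodeg _).trans ?_)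
    rw [Nat.card_Ico]
    omega
  obtain ⟨G, hG⟩ : ∃ G : Polynomial ℝ, G = Dp * q0 - Fp * q1 := ⟨_, rfl⟩
  have hGdeg : G.natDegree ≤ T := by
    rw [hG]
    have h1 : (Dp * q0).natDegree ≤ T := by
      have := Polynomial.natDegree_mul_le (p := Dp) (q := q0)
      omega
    have h2 : (Fp * q1).natDegree ≤ T := by
      have := Polynomial.natDegree_mul_le (p := Fp) (q := q1)
      omega
    exact (Polynomial.natDegree_sub_le_of_le h1 h2).trans (max_self T).le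
  have hGeval : ∀ μ : ℝ, G.eval μ = Dp.eval μ * q0.eval μ - Fp.eval μ * q1.eval μ := by
    intro μ
    rw [hG, Polynomial.eval_sub, Polynomial.eval_mul, Polynomial.eval_mul]
  have hQ0 : (0 : ℝ) < Q := by exact_mod_cast hQ
  have hν1 : ∀ j, 1 ≤ ν j := fun j => hν0.trans (hν.monotone (Nat.zero_le j))
  have hpos : ∀ j v : ℕ, (0 : ℝ) < (Q : ℝ) * ν j + u0 + v := by
    intro j v
    have h1 : (1 : ℝ) ≤ ν j := by exact_mod_cast hν1 j
    have h2 : (0 : ℝ) ≤ u0 := Nat.cast_nonneg _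
    have h3 : (0 : ℝ) ≤ v := Nat.cast_nonneg _
    nlinarith
  have hDpos : ∀ j, 0 < Dp.eval (ν j : ℝ) := by
    intro j
    rw [hDeval]
    exact prod_pos fun v _ => hpos j v
  have hFnode : ∀ j, Fp.eval (ν j : ℝ) = Dp.eval (ν j : ℝ) *
      ∑ u ∈ range L, w u / ∏ v ∈ range (u + 1), ((Q : ℝ) * ν j + u0 + v) := by
    intro j
    rw [hFeval, hDeval, mul_sum]
    refine sum_congr rfl fun u hu => ?_
    rw [mem_range] at hu
    have h1 := prod_range_mul_prod_Ico (fun v : ℕ => (Q : ℝ) * ν j + u0 + v)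
      (show u + 1 ≤ L by omega)
    rw [← h1]
    have h2 : (0 : ℝ) < ∏ v ∈ range (u + 1), ((Q : ℝ) * ν j + u0 + v) :=
      prod_pos fun v _ => hpos j v
    field_simp
  have hGnode : ∀ j < T + 1, |G.eval (ν j : ℝ)| ≤ R * Z := by
    intro j hj
    have h1 := hzero j hj
    have h2 : q0.eval (ν j : ℝ) = -(x j * q1.eval (ν j : ℝ)) := by linarith
    have h3 : G.eval (ν j : ℝ) = -(Dp.eval (ν j : ℝ) *
        ((x j : ℝ) + ∑ u ∈ range L, w u / ∏ v ∈ range (u + 1), ((Q : ℝ) * ν j + u0 + v)) *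
          q1.eval (ν j : ℝ)) := by
      rw [hGeval, h2, hFnode j]
      ring
    rw [h3, abs_neg, abs_mul, abs_mul, abs_of_pos (hDpos j), hDeval]
    have h4 := hR j hj
    have h5 := hZ j hj
    refine mul_le_mul h4 h5 (abs_nonneg _) (le_trans ?_ h4)
    exact mul_nonneg (prod_pos fun v _ => hpos j v).le (abs_nonneg _)
  obtain ⟨y, hy⟩ : ∃ y : ℝ, y = ((u0 + v0 : ℕ) : ℝ) / Q := ⟨_, rfl⟩
  have hy0 : 0 ≤ y := by rw [hy]; positivity
  have hy1 : y ≤ 1 := by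
    rw [hy, div_le_one hQ0]
    exact_mod_cast (show u0 + v0 ≤ Q by omega)
  have hQy : ∀ v : ℕ, (Q : ℝ) * (-y) + u0 + v = (v : ℝ) - v0 := by
    intro v
    rw [hy]
    push_cast
    field_simp
    ring
  have hGy : |G.eval (-y)| = ((L - 1 - v0).factorial : ℝ) *
      |∑ j ∈ range (L - v0), w (v0 + j) / (j.factorial : ℝ)| * |q1.eval (-y)| := by
    have h1 : Dp.eval (-y) = 0 := by
      rw [hDeval]
      refine prod_eq_zero (i := v0) (mem_range.2 hv0) ?_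
      rw [hQy, sub_self]
    have h2 : Fp.eval (-y) = ((L - 1 - v0).factorial : ℝ) *
        ∑ j ∈ range (L - v0), w (v0 + j) / (j.factorial : ℝ) := by
      rw [hFeval, ← sum_fac L v0 hv0 w]
      refine sum_congr rfl fun u _ => ?_
      congr 1
      exact prod_congr rfl fun v _ => hQy v
    rw [hGeval, h1, h2, zero_mul, zero_sub, abs_neg, abs_mul, abs_mul, Nat.abs_cast]
  have hmy : ∀ j : ℕ, (1 : ℝ) ≤ ν j + y := by
    intro j
    have h1 : (1 : ℝ) ≤ ν j := by exact_mod_cast hν1 j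
    linarith
  have hinj : Set.InjOn (fun i => (ν i : ℝ)) (range (T + 1)) := by
    intro a _ b _ hab
    have h1 : (ν a : ℝ) = ν b := hab
    exact hν.injective (by exact_mod_cast h1)
  have hfrac := wt_frac T (fun i => (ν i : ℝ)) hinj G hGdeg y
    (fun j _ => by have := hmy j; show (ν j : ℝ) + y ≠ 0; linarith)
  have hP0 : 0 < ∏ j ∈ range (T + 1), ((ν j : ℝ) + y) :=
    prod_pos fun j _ => by linarith [hmy j]
  have hR0 : 0 ≤ R * Z := (abs_nonneg _).trans (hGnode 0 (by omega))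
  have hM10 : 0 ≤ M1 := by
    have h1 := hM1 0 (by omega)
    have h2 : (0 : ℝ) ≤ ν 0 := Nat.cast_nonneg _
    linarith
  have hP1 : ∏ j ∈ range (T + 1), ((ν j : ℝ) + y) ≤ M1 ^ (T + 1) := by
    calc ∏ j ∈ range (T + 1), ((ν j : ℝ) + y) ≤ ∏ _j ∈ range (T + 1), M1 := by
          refine prod_le_prod (fun j _ => by linarith [hmy j]) fun j hj => ?_
          have := hM1 j (mem_range.1 hj)
          linarith
      _ = M1 ^ (T + 1) := by rw [prod_const, card_range]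
  have hsum : |∑ j ∈ range (T + 1), wt T (fun i => (ν i : ℝ)) j *
      (G.eval (ν j : ℝ) / ((ν j : ℝ) + y))| ≤ (T + 1) * (2 ^ T / (T.factorial : ℝ) * (R * Z)) := by
    refine (abs_sum_le_sum_abs _ _).trans ?_
    calc ∑ j ∈ range (T + 1), |wt T (fun i => (ν i : ℝ)) j * (G.eval (ν j : ℝ) / ((ν j : ℝ) + y))|
        ≤ ∑ _j ∈ range (T + 1), (2 ^ T / (T.factorial : ℝ) * (R * Z)) := by
          refine sum_le_sum fun j hj => ?_
          rw [mem_range] at hj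
          rw [abs_mul, abs_div, abs_of_pos (by linarith [hmy j] : (0 : ℝ) < ν j + y)]
          refine mul_le_mul (wt_abs_le_fac T ν hν j (by omega)) ?_ (by have := hmy j; positivity)
            (by positivity)
          exact (div_le_self (abs_nonneg _) (hmy j)).trans (hGnode j hj)
      _ = _ := by rw [sum_const, card_range, nsmul_eq_mul]; push_cast; ring
  have hGy2 : |G.eval (-y)| ≤ (T + 1) * (2 ^ T / (T.factorial : ℝ) * (R * Z)) * M1 ^ (T + 1) := by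
    have h1 : |∑ j ∈ range (T + 1), wt T (fun i => (ν i : ℝ)) j *
        (G.eval (ν j : ℝ) / ((ν j : ℝ) + y))| * ∏ j ∈ range (T + 1), ((ν j : ℝ) + y) =
          |G.eval (-y)| := by
      have h2 : ∑ j ∈ range (T + 1), wt T (fun i => (ν i : ℝ)) j *
          (G.eval (ν j : ℝ) / ((ν j : ℝ) + y)) =
            (-1) ^ T * G.eval (-y) / ∏ j ∈ range (T + 1), ((ν j : ℝ) + y) := hfrac
      rw [h2, abs_div, abs_of_pos hP0, div_mul_cancel₀ _ hP0.ne', abs_mul, abs_pow, abs_neg, abs_one,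
        one_pow, one_mul]
    rw [← h1]
    exact mul_le_mul hsum hP1 hP0.le (by positivity)
  rw [show ((u0 + v0 : ℕ) : ℝ) / Q = y from hy.symm, ← hGy]
  refine hGy2.trans ?_
  rw [Nat.add_sub_cancel]
  have h2 : (2 : ℝ) ^ T ≤ 2 ^ (T + 1) := pow_le_pow_right₀ (by norm_num) (by omega)
  have h3 : (0 : ℝ) < (T.factorial : ℝ) := by positivity
  have h4 : 0 ≤ ((T : ℝ) + 1) * (R * Z) * M1 ^ (T + 1) / (T.factorial : ℝ) := by positivity
  calc (T + 1) * (2 ^ T / (T.factorial : ℝ) * (R * Z)) * M1 ^ (T + 1)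
      = 2 ^ T * (((T : ℝ) + 1) * (R * Z) * M1 ^ (T + 1) / (T.factorial : ℝ)) := by ring
    _ ≤ 2 ^ (T + 1) * (((T : ℝ) + 1) * (R * Z) * M1 ^ (T + 1) / (T.factorial : ℝ)) :=
        mul_le_mul_of_nonneg_right h2 h4
    _ = ((T + 1 : ℕ) : ℝ) * R * Z * (2 * M1) ^ (T + 1) / (T.factorial : ℝ) := by
        rw [mul_pow]
        push_cast
        ring

end Pool.Agent.Lib.MP_304139_nt.LM
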