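import Mathlib
import Pool.Agent.Lib.MP_304139_nt.LM.Par
import Pool.Agent.Lib.MP_304139_nt.LM.XB
import Pool.Agent.Lib.MP_304139_nt.LM.AuxQ
import Pool.Agent.Lib.MP_304139_nt.LM.Extrap
import Pool.Agent.Lib.MP_304139_nt.LM.ZeroEst
import Pool.Agent.Lib.MP_304139_nt.LM.Num1a
import Pool.Agent.Lib.MP_304139_nt.LM.Num1b
import Pool.Agent.Lib.MP_304139_nt.LM.Num2

set_option autoImplicit false

namespace Pool.Agent.Lib.MP_304139_nt.LM

open Finset

theorem no_good (W A : ℕ) (hW : 1 ≤ W) (hA : 16 ≤ A) (δ : ℝ) (hδ : 0 < δ) : ∃ D0 : ℕ,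
    ∀ (d Q u0 : ℕ) (ν : ℕ → ℕ) (w x : ℕ → ℤ) (B : ℝ) (G : Finset ℕ),
    D0 ≤ d → 1 ≤ B → B ≤ 2 ^ d → u0 + A * d ≤ Q → Q ≤ 4 * (A * d) → StrictMono ν →
    (∀ j < (A + 2) * d, mz W A d ≤ ν j ∧ ν j < mz W A d + NN W A d) →
    (∀ u, |(w u : ℝ)| ≤ B) →
    (∀ j < (A + 2) * d, |(x j : ℝ) + ∑ u ∈ range (A * d), (w u : ℝ) / ∏ v ∈ range (u + 1), ((Q : ℝ) * ν j + u0 + v)|
      ≤ 3 * B / ((Q : ℝ) * ν j + u0) ^ (A * d + 1)) →
    2 * d ≤ G.card →
    (∀ v ∈ G, 2 * (v + 1) ≤ A * d ∧ δ ≤ |∑ j ∈ range (A * d - v), (w (v + j) : ℝ) / (j.factorial : ℝ)|) → False := by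
  obtain ⟨D1, h1b⟩ := num1b W A hW hA
  obtain ⟨D2, h2⟩ := num2 W A hW hA δ hδ
  refine ⟨D1 + D2 + 1, fun d Q u0 ν w x B G hd hB1 hB2 huQ hQ4 hν hνb hw hx hG hGv => ?_⟩
  have hd1 : 1 ≤ d := by omega
  have h1b' := h1b d (by omega)
  have h2' := h2 d (by omega)
  have h1a' := num1a W A d hW (by omega) hd1
  have hAd : 16 ≤ A * d := le_trans hA (Nat.le_mul_of_pos_right _ hd1)
  have hQ1 : 1 ≤ Q := by omega
  have hKL : (A + 2) * d = A * d + 2 * d := by ring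
  have h3K : 3 * d ≤ (A + 2) * d := Nat.mul_le_mul_right _ (by omega)
  have hN1 : (A + 2) * d ≤ NN W A d := by
    unfold NN
    exact Nat.le_mul_of_pos_left _ hW
  have heta : 1 ≤ eta W A := by
    unfold eta
    have h3 : 1 ≤ W * (A + 2) := Nat.mul_pos hW (by omega)
    exact Nat.mul_pos (by positivity) (by positivity)
  have hm1 : NN W A d ≤ mz W A d := by
    unfold mz
    exact Nat.le_mul_of_pos_left _ heta
  have hmz1 : 1 ≤ mz W A d := by omega
  have hB0 : 0 ≤ B := by linarith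
  have hmR : (A * d : ℕ) ≤ mz W A d := by omega
  have hz : ∀ j < (A + 2) * d, ((A * d : ℕ) : ℝ) * (mz W A d : ℝ) ≤ (Q : ℝ) * ν j + u0 := by
    intro j hj
    have h3 := (hνb j hj).1
    have h4 : A * d * mz W A d ≤ Q * ν j + u0 := by
      have h5 : A * d * mz W A d ≤ Q * ν j := Nat.mul_le_mul (by omega) h3
      omega
    exact_mod_cast h4
  have hz16 : (4 : ℝ) ≤ ((A * d : ℕ) : ℝ) * (mz W A d : ℝ) := by
    have h3 : 4 ≤ A * d * mz W A d := by nlinarith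
    exact_mod_cast h3
  have hz4 : ∀ j < (A + 2) * d, (4 : ℝ) ≤ (Q : ℝ) * ν j + u0 := fun j hj => hz16.trans (hz j hj)
  have hxb : ∀ j < (A + 2) * d, |x j| ≤ ((3 * 2 ^ d : ℕ) : ℤ) := by
    intro j hj
    have h3 := x_bound (A * d) _ (hz4 j hj) w B hB0 hw (x j) (hx j hj)
    have h4 : |(x j : ℝ)| ≤ 3 * 2 ^ d := by linarith
    have h5 : ((|x j| : ℤ) : ℝ) ≤ (((3 * 2 ^ d : ℕ) : ℤ) : ℝ) := by
      rw [Int.cast_abs]
      push_cast
      exact h4
    exact_mod_cast h5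
  obtain ⟨q0, q1, hq0, hq1, hq1ne, hvan, hint, hqZ, hqY, hqr⟩ :=
    exists_q d (NN W A d) (mz W A d) (3 * 2 ^ d) hd1 (by have := Nat.one_le_two_pow (n := d); omega) ν hν
      (fun j hj => hνb j (by omega)) x (fun j hj => hxb j (by omega))
  have hZ' : ∀ m : ℕ, mz W A d ≤ m → m < mz W A d + NN W A d → |q1.eval (m : ℝ)| ≤ (ZZ W A d : ℝ) := hqZ
  have hY' : ∀ y : ℝ, 0 ≤ y → y ≤ 1 → |q1.eval (-y)| ≤ (YY W A d : ℝ) := hqY
  set R : ℝ := 3 * 2 ^ d / (((A * d : ℕ) : ℝ) * (mz W A d : ℝ)) ^ (A * d + 1) with hR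
  have hxR : ∀ j < (A + 2) * d,
      |(x j : ℝ) + ∑ u ∈ range (A * d), (w u : ℝ) / ∏ v ∈ range (u + 1), ((Q : ℝ) * ν j + u0 + v)| ≤ R := by
    intro j hj
    refine (hx j hj).trans ?_
    rw [hR]
    have h3 := hz j hj
    have h4 : (0 : ℝ) < ((A * d : ℕ) : ℝ) * (mz W A d : ℝ) := by linarith
    gcongr
  have hall : ∀ j < (A + 2) * d, q0.eval (ν j : ℝ) + x j * q1.eval (ν j : ℝ) = 0 := by
    intro j hj
    by_cases hj3 : j < 3 * d
    · exact hvan j hj3
    push Not at hj3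
    set σ : ℕ → ℕ := fun i => if i < 3 * d then i else j + (i - 3 * d) with hσ
    have hσm : StrictMono σ := by
      intro a b hab
      simp only [hσ]
      split_ifs <;> omega
    have hσT : σ (3 * d) = j := by simp [hσ]
    have hσ0 : ∀ i < 3 * d, σ i = i := by
      intro i hi
      simp [hσ, hi]
    have hσK : ∀ i ≤ 3 * d, σ i < (A + 2) * d := by
      intro i hi
      rcases Nat.lt_or_ge i (3 * d) with h3 | h3
      · rw [hσ0 i h3]; omega
      · have : i = 3 * d := by omega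
        rw [this, hσT]; exact hj
    have hT0 : 0 < 3 * d := by omega
    have key := extrap (3 * d) (A * d) Q u0 (mz W A d) (NN W A d) (fun i => ν (σ i)) (hν.comp hσm) hmz1
      (by
        simp only [hσ0 0 hT0]
        exact (hνb 0 (by omega)).1)
      (by
        simp only [hσT]
        exact (hνb j hj).2.le) hQ1 (by omega) (fun u => (w u : ℝ)) B hw q0 q1 (by omega) (by omega)
      (fun i => x (σ i))
      (by
        simp only [hσT]
        obtain ⟨z0, z1, h3, h4⟩ := hint (ν j) (hνb j hj).1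
        refine ⟨z0 + x j * z1, ?_⟩
        rw [h3, h4]
        push_cast
        ring)
      (by
        intro i hi
        simp only [hσ0 i hi]
        exact hvan i hi)
      (YY W A d) (ZZ W A d) R hY'
      (fun i hi => hZ' _ (hνb _ (hσK i hi)).1 (hνb _ (hσK i hi)).2)
      (fun i hi => hxR _ (hσK i hi))
      (by
        have e1 : (((3 * d : ℕ) : ℝ) + 1) = 3 * (d : ℝ) + 1 := by push_cast; ring
        rw [e1, mul_add]
        have h3 : (NN W A d : ℝ) ^ (3 * d) * (8 * B * (YY W A d : ℝ) / (mz W A d : ℝ) ^ (3 * d + 1)) ≤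
            (NN W A d : ℝ) ^ (3 * d) * (8 * 2 ^ d * (YY W A d : ℝ) / (mz W A d : ℝ) ^ (3 * d + 1)) := by
          gcongr
        linarith)
    simp only [hσT] at key
    exact key
  -- a good index with q1 ≠ 0
  obtain ⟨v0, hv0G, hv0⟩ : ∃ v ∈ G, q1.eval (-(((u0 + v : ℕ) : ℝ) / Q)) ≠ 0 := by
    by_contra hcon
    push Not at hcon
    apply hq1ne
    have hQR : (Q : ℝ) ≠ 0 := by positivity
    have hinj : Set.InjOn (fun v : ℕ => -(((u0 + v : ℕ) : ℝ) / Q)) G := by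
      intro a _ b _ hab
      simp only [neg_inj] at hab
      rw [div_left_inj' hQR] at hab
      have : u0 + a = u0 + b := by exact_mod_cast hab
      omega
    refine Polynomial.eq_zero_of_natDegree_lt_card_of_eval_eq_zero' q1
      (G.image (fun v : ℕ => -(((u0 + v : ℕ) : ℝ) / Q))) ?_ ?_
    · intro i hi
      obtain ⟨v, hv, rfl⟩ := Finset.mem_image.1 hi
      exact hcon v hv
    · rw [Finset.card_image_of_injOn hinj]
      omega
  obtain ⟨hv0L, hv0T⟩ := hGv v0 hv0G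
  have hze := zero_est ((A + 2) * d) (A * d) (2 * d) Q u0 hKL (by omega) ν hν
    (by have := (hνb 0 (by omega)).1; omega) hQ1 huQ (fun u => (w u : ℝ)) q0 q1 hq0 hq1 x hall
    (3 * B) (ZZ W A d) ((mz W A d : ℝ) + NN W A d + 1)
    (by
      intro j hj
      have h3 := hz4 j hj
      have h4 : (((A * d : ℕ) : ℕ) : ℝ) ^ 2 ≤ (Q : ℝ) * ν j + u0 := by
        refine le_trans ?_ (hz j hj)
        rw [sq]
        have : ((A * d : ℕ) : ℝ) ≤ (mz W A d : ℝ) := by exact_mod_cast hmR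
        gcongr
      have h5 := prod_bound (A * d) _ h3 h4
      have h6 := hx j hj
      have h7 : (0 : ℝ) < ((Q : ℝ) * ν j + u0) ^ (A * d + 1) := by positivity
      calc (∏ v ∈ range (A * d), ((Q : ℝ) * ν j + u0 + v)) * |(x j : ℝ) + ∑ u ∈ range (A * d),
            (w u : ℝ) / ∏ v ∈ range (u + 1), ((Q : ℝ) * ν j + u0 + v)| ≤
            ((Q : ℝ) * ν j + u0) ^ (A * d + 1) * (3 * B / ((Q : ℝ) * ν j + u0) ^ (A * d + 1)) := by
            gcongr
        _ = 3 * B := by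
            field_simp)
    (fun j hj => hZ' _ (hνb j hj).1 (hνb j hj).2)
    (by
      intro j hj
      have h3 : ν j + 1 ≤ mz W A d + NN W A d + 1 := by have := (hνb j hj).2; omega
      exact_mod_cast h3) v0 (by omega)
  have hone := hqr Q (u0 + v0) hQ1 hv0
  set q : ℝ := |q1.eval (-(((u0 + v0 : ℕ) : ℝ) / Q))| with hq
  set T : ℝ := |∑ j ∈ range (A * d - v0), (w (v0 + j) : ℝ) / (j.factorial : ℝ)| with hT
  have hfac : (((A * d / 2).factorial : ℕ) : ℝ) ≤ ((A * d - 1 - v0).factorial : ℝ) := by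
    exact_mod_cast Nat.factorial_le (by omega)
  have hq0' : 0 ≤ q := abs_nonneg _
  have hQ4' : (Q : ℝ) ≤ 4 * ((A * d : ℕ) : ℝ) := by exact_mod_cast hQ4
  have h5 : δ * ((A * d / 2).factorial : ℝ) ≤
      (((A * d - 1 - v0).factorial : ℝ) * T * q) * (((2 * d).factorial : ℝ) * (Q : ℝ) ^ (2 * d)) := by
    calc δ * ((A * d / 2).factorial : ℝ) ≤ T * ((A * d - 1 - v0).factorial : ℝ) := by gcongr
      _ = (T * ((A * d - 1 - v0).factorial : ℝ)) * 1 := by ring
      _ ≤ (T * ((A * d - 1 - v0).factorial : ℝ)) * ((((2 * d).factorial : ℝ) * (Q : ℝ) ^ (2 * d)) * q) := by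
          gcongr
      _ = _ := by ring
  have h6 : (((A * d - 1 - v0).factorial : ℝ) * T * q) * (((2 * d).factorial : ℝ) * (Q : ℝ) ^ (2 * d)) ≤
      (((A + 2) * d : ℕ) : ℝ) * (3 * 2 ^ d) * (ZZ W A d : ℝ) *
      (2 * ((mz W A d : ℝ) + NN W A d + 1)) ^ ((A + 2) * d) / (((A + 2) * d - 1).factorial : ℝ) *
      (((2 * d).factorial : ℝ) * (4 * ((A * d : ℕ) : ℝ)) ^ (2 * d)) := by
    refine mul_le_mul (hze.trans ?_) (by gcongr) (by positivity) (by positivity)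
    gcongr
  linarith

end Pool.Agent.Lib.MP_304139_nt.LM
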