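import Mathlib
import Pool.Agent.Lib.MP_304139_nt.LM.Base

set_option autoImplicit false

namespace Pool.Agent.Lib.MP_304139_nt.LM

open Finset

theorem exists_enum (P : ℕ) (hP : 1 ≤ P) : ∃ W : ℕ, 1 ≤ W ∧ ∀ e < 2, ∃ m : ℕ → ℕ,
    ∀ i, W * i ≤ m i ∧ m i < W * (i + 1) ∧ P ∣ m i ∧ s2 (m i) % 2 = e := by
  obtain ⟨x, hx⟩ : ∃ x, x = 2 * P + 1 := ⟨_, rfl⟩
  have hPx : P < 2 ^ x := by
    have h1 : P < 2 ^ P := Nat.lt_two_pow_self
    have h2 : 2 ^ P ≤ 2 ^ x := Nat.pow_le_pow_right (by norm_num) (by omega)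
    omega
  have hs : s2 (P * (2 ^ x - 1)) = x := s2_mul P x hP hPx.le
  have hz : P * (2 ^ x - 1) < 2 ^ (2 * x) := by
    have h1 : P * (2 ^ x - 1) ≤ P * 2 ^ x := Nat.mul_le_mul_left _ (Nat.sub_le _ _)
    have h2 : P * 2 ^ x < 2 ^ x * 2 ^ x := Nat.mul_lt_mul_of_pos_right hPx (by positivity)
    have h3 : 2 ^ x * 2 ^ x = 2 ^ (2 * x) := by
      rw [← pow_add]
      congr 1
      ring
    omega
  have h20 : s2 0 = 0 := by simp [s2]
  refine ⟨2 ^ (2 * x) * P, Nat.mul_pos (by positivity) hP, fun e he => ?_⟩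
  refine ⟨fun i => 2 ^ (2 * x) * (P * i) + if s2 (P * i) % 2 = e then 0 else P * (2 ^ x - 1),
    fun i => ?_⟩
  have hWi : 2 ^ (2 * x) * P * i = 2 ^ (2 * x) * (P * i) := by ring
  have hWi1 : 2 ^ (2 * x) * P * (i + 1) = 2 ^ (2 * x) * (P * i) + 2 ^ (2 * x) * P := by ring
  have hWP : 2 ^ (2 * x) ≤ 2 ^ (2 * x) * P := Nat.le_mul_of_pos_right _ hP
  have h0 : 0 < 2 ^ (2 * x) := by positivity
  rw [hWi, hWi1]
  by_cases h : s2 (P * i) % 2 = e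
  · simp only [h, if_true]
    refine ⟨by omega, by omega, ?_, ?_⟩
    · exact Dvd.intro_left _ (by ring_nf : 2 ^ (2 * x) * i * P = 2 ^ (2 * x) * (P * i) + 0)
    · rw [s2_pow _ _ _ h0, h20]
      omega
  · simp only [h, if_false]
    refine ⟨by omega, by omega, ?_, ?_⟩
    · refine (Nat.dvd_add_right ?_).2 (Nat.dvd_mul_right _ _)
      exact Dvd.dvd.mul_left (Nat.dvd_mul_right _ _) _
    · rw [s2_pow _ _ _ hz, hs]
      omega

end Pool.Agent.Lib.MP_304139_nt.LM
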