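import Mathlib


set_option autoImplicit false

namespace Pool.Agent.Lib.MP_304139_nt.LM

open Finset

theorem final_choice (c D0 s : ℕ) : ∃ C : ℝ, 0 < C ∧ ∀ H : ℕ, 3 ≤ H → ∃ d : ℕ, D0 ≤ d ∧ s * H ≤ 2 ^ d ∧
    ∀ M : ℕ, 1 ≤ M → M ≤ c * d ^ 2 →
      Real.exp (-(C * (Real.log H ^ 2 * Real.log (Real.log H)))) ≤ 1 / (M : ℝ) ^ (2 * M) := by
  have hl3 : (1 : ℝ) < Real.log 3 := by
    have h : Real.exp 1 < 3 := lt_trans Real.exp_one_lt_d9 (by norm_num)
    rwa [Real.lt_log_iff_exp_lt (by norm_num)]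
  have hl0 : 0 < Real.log (Real.log 3) := Real.log_pos hl3
  set l0 := Real.log (Real.log 3) with hl0def
  set K : ℝ := (D0 : ℝ) + s + 3 with hK
  have hK0 : 0 < K := by positivity
  set A : ℝ := (c : ℝ) * K ^ 2 + 1 with hA
  have hcK : 0 ≤ (c : ℝ) * K ^ 2 := by positivity
  have hA1 : 1 ≤ A := by linarith
  have hA0 : 0 < A := by linarith
  have hlA : 0 ≤ Real.log A := Real.log_nonneg hA1
  have hq : 0 ≤ Real.log A / l0 := div_nonneg hlA hl0.le
  refine ⟨2 * A * (Real.log A / l0 + 2), by positivity, ?_⟩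
  intro H hH
  have hH3 : (3 : ℝ) ≤ H := by exact_mod_cast hH
  have hL : Real.log 3 ≤ Real.log H := Real.log_le_log (by norm_num) hH3
  have hL1 : 1 < Real.log H := hl3.trans_le hL
  have hLL : l0 ≤ Real.log (Real.log H) := Real.log_le_log (by linarith) hL
  refine ⟨D0 + s + 1 + Nat.log 2 H, by omega, ?_, ?_⟩
  · have h1 : H < 2 ^ (Nat.log 2 H + 1) := Nat.lt_pow_succ_log_self (by norm_num) H
    have h2 : s < 2 ^ s := Nat.lt_two_pow_self
    calc s * H ≤ 2 ^ s * 2 ^ (Nat.log 2 H + 1) := Nat.mul_le_mul h2.le h1.le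
      _ = 2 ^ (s + 1 + Nat.log 2 H) := by rw [← pow_add]; congr 1; ring
      _ ≤ 2 ^ (D0 + s + 1 + Nat.log 2 H) := Nat.pow_le_pow_right (by norm_num) (by omega)
  · intro M hM1 hM
    have hlog : (Nat.log 2 H : ℝ) ≤ 2 * Real.log H := by
      have h1 : 2 ^ Nat.log 2 H ≤ H := Nat.pow_log_le_self 2 (by omega)
      have h2 : ((2 : ℝ) ^ Nat.log 2 H) ≤ H := by exact_mod_cast h1
      have h3 := Real.log_le_log (by positivity) h2
      rw [Real.log_pow] at h3
      have h4 : (1 : ℝ) / 2 < Real.log 2 := by have := Real.log_two_gt_d9; linarith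
      have h5 : (0 : ℝ) ≤ (Nat.log 2 H : ℝ) := Nat.cast_nonneg _
      nlinarith
    have hd : ((D0 + s + 1 + Nat.log 2 H : ℕ) : ℝ) ≤ K * Real.log H := by
      push_cast
      have h1 : (0 : ℝ) ≤ D0 := Nat.cast_nonneg _
      have h2 : (0 : ℝ) ≤ s := Nat.cast_nonneg _
      rw [hK]
      nlinarith [mul_le_mul_of_nonneg_left hL1.le h1, mul_le_mul_of_nonneg_left hL1.le h2]
    have hM2 : (M : ℝ) ≤ A * Real.log H ^ 2 := by
      have h1 : (M : ℝ) ≤ (c : ℝ) * ((D0 + s + 1 + Nat.log 2 H : ℕ) : ℝ) ^ 2 := by exact_mod_cast hM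
      have h2 : ((D0 + s + 1 + Nat.log 2 H : ℕ) : ℝ) ^ 2 ≤ (K * Real.log H) ^ 2 :=
        pow_le_pow_left₀ (Nat.cast_nonneg _) hd 2
      have h3 : (c : ℝ) * ((D0 + s + 1 + Nat.log 2 H : ℕ) : ℝ) ^ 2 ≤ (c : ℝ) * (K * Real.log H) ^ 2 :=
        mul_le_mul_of_nonneg_left h2 (Nat.cast_nonneg _)
      have h4 : (c : ℝ) * (K * Real.log H) ^ 2 = (c * K ^ 2) * Real.log H ^ 2 := by ring
      have h5 : (c * K ^ 2) * Real.log H ^ 2 ≤ A * Real.log H ^ 2 :=
        mul_le_mul_of_nonneg_right (by linarith) (by positivity)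
      linarith
    have hM0 : (1 : ℝ) ≤ M := by exact_mod_cast hM1
    have hMp : (0 : ℝ) < M := by linarith
    have hLp : (0 : ℝ) < Real.log H := by linarith
    have hlM : Real.log M ≤ Real.log A + 2 * Real.log (Real.log H) := by
      have h1 := Real.log_le_log hMp hM2
      rw [Real.log_mul hA0.ne' (by positivity), Real.log_pow] at h1
      exact_mod_cast h1
    have hlM0 : 0 ≤ Real.log M := Real.log_nonneg hM0
    have hLLp : 0 < Real.log (Real.log H) := hl0.trans_le hLL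
    have h6 : Real.log A ≤ Real.log A / l0 * Real.log (Real.log H) := by
      calc Real.log A = Real.log A / l0 * l0 := by field_simp
        _ ≤ _ := mul_le_mul_of_nonneg_left hLL hq
    have h7 : Real.log M ≤ (Real.log A / l0 + 2) * Real.log (Real.log H) := by
      nlinarith
    have h8 : (M : ℝ) * Real.log M ≤
        (A * Real.log H ^ 2) * ((Real.log A / l0 + 2) * Real.log (Real.log H)) :=
      mul_le_mul hM2 h7 hlM0 (by positivity)
    have h9 : (M : ℝ) ^ (2 * M) = Real.exp (2 * (M * Real.log M)) := by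
      rw [← Real.exp_log (pow_pos hMp (2 * M)), Real.log_pow]
      congr 1
      push_cast
      ring
    rw [h9, one_div, ← Real.exp_neg, Real.exp_le_exp]
    have h10 : 2 * A * (Real.log A / l0 + 2) * (Real.log H ^ 2 * Real.log (Real.log H)) =
        2 * ((A * Real.log H ^ 2) * ((Real.log A / l0 + 2) * Real.log (Real.log H))) := by ring
    rw [h10]
    linarith

end Pool.Agent.Lib.MP_304139_nt.LM
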