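import Mathlib
import Pool.Agent.Lib.MP_304139_nt.LM.Base
import Pool.Agent.Lib.MP_304139_nt.LM.Enum

set_option autoImplicit false

namespace Pool.Agent.Lib.MP_304139_nt.LM

open Finset

/-- exact inversion of the truncated exponential sums -/
theorem inv_sum (f : ℕ → ℝ) : ∀ K : ℕ, 1 ≤ K →
    ∑ i ∈ range K, (-1 : ℝ) ^ i / (i.factorial : ℝ) *
      ∑ j ∈ range (K - i), f (i + j) / (j.factorial : ℝ) = f 0 := by
  intro K hK
  induction K, hK using Nat.le_induction with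
  | base => simp
  | succ K hK ih =>
    have h1 : ∀ i ∈ range (K + 1), (-1 : ℝ) ^ i / (i.factorial : ℝ) *
        ∑ j ∈ range (K + 1 - i), f (i + j) / (j.factorial : ℝ)
       = (-1 : ℝ) ^ i / (i.factorial : ℝ) * ∑ j ∈ range (K - i), f (i + j) / (j.factorial : ℝ) +
        (f K / (K.factorial : ℝ)) * ((-1) ^ i * (K.choose i : ℝ)) := by
      intro i hi
      have hi' : i ≤ K := by simpa [Nat.lt_succ_iff] using hi
      rw [Nat.succ_sub hi', sum_range_succ, mul_add]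
      congr 1
      rw [Nat.add_sub_cancel' hi']
      have h2 := Nat.choose_mul_factorial_mul_factorial hi'
      have h3 : ((K.choose i : ℝ)) * i.factorial * (K - i).factorial = K.factorial := by
        exact_mod_cast h2
      have h5 : (i.factorial : ℝ) ≠ 0 := by positivity
      have h6 : ((K-i).factorial : ℝ) ≠ 0 := by positivity
      have h7 : (K.factorial : ℝ) ≠ 0 := by positivity
      field_simp
      rw [← h3]
      ring
    rw [sum_congr rfl h1, sum_add_distrib, ← mul_sum,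
      sum_range_succ (fun i => (-1 : ℝ) ^ i / (i.factorial : ℝ) *
        ∑ j ∈ range (K - i), f (i + j) / (j.factorial : ℝ)), ih, Nat.sub_self]
    have h4 : ∑ i ∈ range (K + 1), ((-1 : ℝ) ^ i * (K.choose i : ℝ)) = 0 := by
      have := Int.alternating_sum_range_choose (n := K)
      rw [if_neg (by omega)] at this
      exact_mod_cast this
    rw [h4]
    simp

theorem fac_sum_le (n : ℕ) : ∑ i ∈ range n, 1 / (i.factorial : ℝ) ≤ 3 := by
  have h1 := Real.sum_le_exp_of_nonneg (x := 1) zero_le_one n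
  have h2 := Real.exp_one_lt_d9
  have h3 : ∑ i ∈ range n, 1 / (i.factorial : ℝ) = ∑ i ∈ range n, (1 : ℝ) ^ i / (i.factorial : ℝ) :=
    sum_congr rfl fun i _ => by rw [one_pow]
  rw [h3]
  linarith

theorem fac_tail (ε : ℝ) (hε : 0 < ε) : ∃ I : ℕ, ∀ K : ℕ,
    ∑ i ∈ Ico I K, 1 / (i.factorial : ℝ) < ε := by
  have hs : Summable fun i : ℕ => (1 : ℝ) / (i.factorial : ℝ) := by
    simpa using Real.summable_pow_div_factorial 1
  obtain ⟨s, hs⟩ := (summable_iff_vanishing_norm.1 hs) ε hε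
  refine ⟨s.sup id + 1, fun K => ?_⟩
  have h := hs (Ico (s.sup id + 1) K) (by
    rw [Finset.disjoint_left]
    intro a ha ha'
    have h1 := (Finset.mem_Ico.1 ha).1
    have h2 : a ≤ s.sup id := Finset.le_sup (f := id) ha'
    omega)
  exact (le_abs_self _).trans_lt (by simpa [Real.norm_eq_abs] using h)

/-- a bounded sequence with a large first term has a large truncated exponential sum near 0 -/
theorem exists_large (δ0 : ℝ) (hδ0 : 0 < δ0) : ∃ I : ℕ, ∀ (f : ℕ → ℝ) (Y : ℝ) (K : ℕ), 0 < Y →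
    (∀ m, |f m| ≤ Y) → δ0 * Y ≤ |f 0| → 1 ≤ K → I ≤ K →
    ∃ i < I, δ0 * Y / 8 ≤ |∑ j ∈ range (K - i), f (i + j) / (j.factorial : ℝ)| := by
  obtain ⟨I, hI⟩ := fac_tail (δ0 / 6) (by positivity)
  refine ⟨I, fun f Y K hY hf h0 hK hIK => ?_⟩
  by_contra hcon
  push Not at hcon
  set T : ℕ → ℝ := fun i => ∑ j ∈ range (K - i), f (i + j) / (j.factorial : ℝ) with hT
  have hTb : ∀ i, |T i| ≤ 3 * Y := by
    intro i
    calc |T i| ≤ ∑ j ∈ range (K - i), |f (i + j) / (j.factorial : ℝ)| := abs_sum_le_sum_abs _ _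
      _ ≤ ∑ j ∈ range (K - i), Y * (1 / (j.factorial : ℝ)) := by
          refine sum_le_sum fun j _ => ?_
          rw [abs_div, Nat.abs_cast, div_eq_mul_one_div]
          exact mul_le_mul_of_nonneg_right (hf _) (by positivity)
      _ = Y * ∑ j ∈ range (K - i), 1 / (j.factorial : ℝ) := by rw [mul_sum]
      _ ≤ Y * 3 := mul_le_mul_of_nonneg_left (fac_sum_le _) hY.le
      _ = 3 * Y := by ring
  have h1 := inv_sum f K hK
  have h2 : |f 0| ≤ ∑ i ∈ range K, 1 / (i.factorial : ℝ) * |T i| := by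
    rw [← h1]
    refine (abs_sum_le_sum_abs _ _).trans (le_of_eq (sum_congr rfl fun i _ => ?_))
    rw [abs_mul, abs_div, abs_pow, abs_neg, abs_one, one_pow, Nat.abs_cast]
  have h3 : ∑ i ∈ range K, 1 / (i.factorial : ℝ) * |T i| =
      ∑ i ∈ range I, 1 / (i.factorial : ℝ) * |T i| + ∑ i ∈ Ico I K, 1 / (i.factorial : ℝ) * |T i| :=
    (sum_range_add_sum_Ico _ hIK).symm
  have h4 : ∑ i ∈ range I, 1 / (i.factorial : ℝ) * |T i| ≤ 3 * (δ0 * Y / 8) := by
    calc ∑ i ∈ range I, 1 / (i.factorial : ℝ) * |T i|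
        ≤ ∑ i ∈ range I, 1 / (i.factorial : ℝ) * (δ0 * Y / 8) := by
          refine sum_le_sum fun i hi => ?_
          exact mul_le_mul_of_nonneg_left (hcon i (mem_range.1 hi)).le (by positivity)
      _ = (∑ i ∈ range I, 1 / (i.factorial : ℝ)) * (δ0 * Y / 8) := by rw [sum_mul]
      _ ≤ 3 * (δ0 * Y / 8) := mul_le_mul_of_nonneg_right (fac_sum_le _) (by positivity)
  have h5 : ∑ i ∈ Ico I K, 1 / (i.factorial : ℝ) * |T i| ≤ δ0 / 6 * (3 * Y) := by
    calc ∑ i ∈ Ico I K, 1 / (i.factorial : ℝ) * |T i|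
        ≤ ∑ i ∈ Ico I K, 1 / (i.factorial : ℝ) * (3 * Y) := by
          refine sum_le_sum fun i hi => ?_
          exact mul_le_mul_of_nonneg_left (hTb i) (by positivity)
      _ = (∑ i ∈ Ico I K, 1 / (i.factorial : ℝ)) * (3 * Y) := by rw [sum_mul]
      _ ≤ δ0 / 6 * (3 * Y) := mul_le_mul_of_nonneg_right (hI K).le (by positivity)
  have h6 : 0 < δ0 * Y := by positivity
  nlinarith

/-- Plan: cond2 gives n < N1 and e with |wd e n| ≥ δ0 (S+1) X. Put u0 = n. For κ large (2^κ ≥ n+S+P and ≥ I), V = 2^κ * m t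
with m from exists_enum P (e = 0), wd e (n+V) = wd e n (s2_pow, period P). With T v = ∑_{j<L-v} w (v+j)/j!, w v = wd e (n+v):
exact inversion ∑_{i<L-v} (-1)^i T(v+i)/i! = w v (binomial), |T v| ≤ 3 (S+1) X, tail over i ≥ I small, so some i < I has
|T (V+i)| ≥ δ X. These D windows [V, V+I) are disjoint. -/
theorem exists_good (S P : ℕ) (hP : 1 ≤ P) : ∃ (N1 A0 : ℕ) (δ : ℝ), 1 ≤ A0 ∧ 0 < δ ∧
    ∀ (b p : ℕ → ℤ) (X : ℕ), (∀ n, p (n + P) = p n) → 1 ≤ X → (∀ n, |p n| ≤ X) → (∀ j < S, |b j| ≤ X) →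
    ((∃ n, (X : ℤ) ≤ |p n|) ∨ ∃ j < S, (X : ℤ) ≤ |b j|) →
    ∃ u0 < N1, ∃ e < 2, ∀ D L : ℕ, 1 ≤ D → A0 * D ≤ L → ∃ G : Finset ℕ, D ≤ G.card ∧
      ∀ v ∈ G, 2 * (v + 1) ≤ L ∧
        δ ≤ |∑ j ∈ range (L - v), (wd S b p e (u0 + v + j) : ℝ) / (j.factorial : ℝ)| := by
  obtain ⟨N1, δ0, hδ0, hδ1, hc⟩ := cond2 S P hP
  obtain ⟨I, hI⟩ := exists_large δ0 hδ0
  obtain ⟨W, hW, hm⟩ := exists_enum P hP
  obtain ⟨m, hm⟩ := hm 0 (by norm_num)
  set κ := N1 + S + I with hκ
  have hκ2 : κ < 2 ^ κ := Nat.lt_two_pow_self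
  refine ⟨N1, 2 * 2 ^ κ * W, δ0 / 8, ?_, by positivity, ?_⟩
  · have : 1 ≤ 2 ^ κ := Nat.one_le_two_pow
    nlinarith
  intro b p X hp hX hpX hbX hmax
  have hX1 : (1 : ℝ) ≤ X := by exact_mod_cast hX
  obtain ⟨n, hn, e, he, hw0⟩ := hc b p (X : ℝ) hp hX1 (by
    rcases hmax with ⟨n, hn⟩ | ⟨j, hj, hj'⟩
    · left; exact ⟨n, by exact_mod_cast hn⟩
    · right; exact ⟨j, hj, by exact_mod_cast hj'⟩)
  refine ⟨n, hn, e, he, fun D L hD hL => ?_⟩
  set Y : ℝ := ((S : ℝ) + 1) * X with hY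
  have hY1 : 1 ≤ Y := by
    have : (0 : ℝ) ≤ S := Nat.cast_nonneg _
    nlinarith
  have hwn : δ0 * Y ≤ |(wd S b p e n : ℝ)| := by
    have := hw0 e (Nat.mod_eq_of_lt he)
    unfold wd
    push_cast
    exact this
  have hwb : ∀ k, |(wd S b p e k : ℝ)| ≤ Y := by
    intro k
    unfold wd
    simp only [Int.cast_add, Int.cast_sum, Int.cast_mul, Int.cast_natCast]
    refine (abs_add_le _ _).trans ?_
    have h1 : |∑ j ∈ range S, (b j : ℝ) * ((((e + s2 (k + j)) % 2 : ℕ)) : ℝ)| ≤ S * X := by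
      refine (Finset.abs_sum_le_sum_abs _ _).trans ?_
      have h2 : ∑ j ∈ range S, |(b j : ℝ) * ((((e + s2 (k + j)) % 2 : ℕ)) : ℝ)| ≤
          ∑ j ∈ range S, (X : ℝ) := by
        refine Finset.sum_le_sum fun j hj => ?_
        rw [abs_mul, Nat.abs_cast]
        have h4 : (((e + s2 (k + j)) % 2 : ℕ) : ℝ) ≤ 1 := by
          have : (e + s2 (k + j)) % 2 ≤ 1 := by omega
          exact_mod_cast this
        have h5 : |(b j : ℝ)| ≤ X := by exact_mod_cast hbX j (Finset.mem_range.1 hj)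
        calc |(b j : ℝ)| * (((e + s2 (k + j)) % 2 : ℕ) : ℝ) ≤ |(b j : ℝ)| * 1 := by gcongr
          _ ≤ X := by linarith
      rw [Finset.sum_const, Finset.card_range, nsmul_eq_mul] at h2
      exact h2
    have h2 : |(p k : ℝ)| ≤ X := by exact_mod_cast hpX k
    rw [hY]
    linarith
  have hper : ∀ c k, p (k + P * c) = p k := by
    intro c
    induction c with
    | zero => intro k; simp
    | succ c ih =>
      intro k
      rw [show k + P * (c + 1) = (k + P * c) + P by ring, hp, ih]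
  have hwV : ∀ t, wd S b p e (n + 2 ^ κ * m t) = wd S b p e n := by
    intro t
    obtain ⟨h1, h2, h3, h4⟩ := hm t
    obtain ⟨c, hc⟩ := h3
    unfold wd
    congr 1
    · rw [hc, show 2 ^ κ * (P * c) = P * (2 ^ κ * c) by ring, hper]
    · refine sum_congr rfl fun j hj => ?_
      have hj' := mem_range.1 hj
      have h5 : s2 (n + 2 ^ κ * m t + j) = s2 (m t) + s2 (n + j) := by
        rw [show n + 2 ^ κ * m t + j = 2 ^ κ * m t + (n + j) by ring]
        exact s2_pow κ (m t) (n + j) (by omega)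
      rw [h5]
      congr 2
      omega
  have hbd : ∀ t < D, 2 ^ κ * (W * t) ≤ 2 ^ κ * m t ∧ 2 ^ κ * m t + I ≤ 2 ^ κ * (W * (t + 1)) := by
    intro t ht
    obtain ⟨h1, h2, h3, h4⟩ := hm t
    refine ⟨Nat.mul_le_mul_left _ h1, ?_⟩
    calc 2 ^ κ * m t + I ≤ 2 ^ κ * m t + 2 ^ κ := by omega
      _ = 2 ^ κ * (m t + 1) := by ring
      _ ≤ 2 ^ κ * (W * (t + 1)) := Nat.mul_le_mul_left _ h2
  have hWD : ∀ t < D, 2 * (2 ^ κ * (W * (t + 1))) ≤ L := by
    intro t ht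
    calc 2 * (2 ^ κ * (W * (t + 1))) ≤ 2 * (2 ^ κ * (W * D)) := by
          gcongr
          omega
      _ = 2 * 2 ^ κ * W * D := by ring
      _ ≤ L := hL
  have hex : ∀ t < D, ∃ i < I, δ0 / 8 ≤
      |∑ j ∈ range (L - (2 ^ κ * m t + i)), (wd S b p e (n + (2 ^ κ * m t + i) + j) : ℝ) /
        (j.factorial : ℝ)| := by
    intro t ht
    have h1 := hbd t ht
    have h2 := hWD t ht
    have h3 : 1 ≤ 2 ^ κ * (W * (t + 1)) := by
      have : 1 ≤ 2 ^ κ := Nat.one_le_two_pow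
      exact Nat.one_le_iff_ne_zero.2 (by positivity)
    obtain ⟨i, hi, h4⟩ := hI (fun k => (wd S b p e (n + 2 ^ κ * m t + k) : ℝ)) Y (L - 2 ^ κ * m t)
      (by linarith) (fun k => hwb _) (by simpa [hwV t] using hwn) (by omega) (by omega)
    refine ⟨i, hi, ?_⟩
    have h5 : δ0 / 8 ≤ δ0 * Y / 8 := by
      have : δ0 * 1 ≤ δ0 * Y := mul_le_mul_of_nonneg_left hY1 hδ0.le
      linarith
    refine h5.trans (h4.trans (le_of_eq ?_))
    rw [Nat.sub_sub]
    congr 1
    refine sum_congr rfl fun j _ => ?_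
    simp only [add_assoc]
  choose! g hg1 hg2 using hex
  refine ⟨(range D).image (fun t => 2 ^ κ * m t + g t), ?_, ?_⟩
  · rw [card_image_of_injOn, card_range]
    intro t ht t' ht' htt
    simp only [coe_range, Set.mem_Iio] at ht ht'
    simp only at htt
    have h1 := hbd t ht
    have h2 := hbd t' ht'
    have h3 := hg1 t ht
    have h4 := hg1 t' ht'
    by_contra hne
    rcases Nat.lt_or_gt_of_ne hne with h | h
    · have h5 : 2 ^ κ * (W * (t + 1)) ≤ 2 ^ κ * (W * t') := by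
        gcongr
        omega
      omega
    · have h5 : 2 ^ κ * (W * (t' + 1)) ≤ 2 ^ κ * (W * t) := by
        gcongr
        omega
      omega
  · intro v hv
    obtain ⟨t, ht, rfl⟩ := mem_image.1 hv
    have ht' := mem_range.1 ht
    have h1 := hbd t ht'
    have h2 := hWD t ht'
    have h3 := hg1 t ht'
    exact ⟨by omega, hg2 t ht'⟩

end Pool.Agent.Lib.MP_304139_nt.LM
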