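import Mathlib
import Pool.Agent.Lib.MP_304139_nt.LM.Base

set_option autoImplicit false

namespace Pool.Agent.Lib.MP_304139_nt.LM

open Finset

theorem dig_eq_wd (S P k P' : ℕ) (b p : ℕ → ℤ) (hp : ∀ n, p (n + P) = p n) (hPP : P = 2 ^ k * P')
    (l m u e : ℕ) (hkl : k ≤ l) (hm : P' ∣ m) (he : s2 m % 2 = e) (hu : u + S ≤ 2 ^ l) :
    dig S b p (2 ^ l * m + u) = wd S b p e u := by
  have hper : ∀ t : ℕ, p (u + t * P) = p u := by
    intro t
    induction t with
    | zero => simp
    | succ t ih =>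
      rw [show u + (t + 1) * P = (u + t * P) + P by ring, hp, ih]
  have hpe : p (2 ^ l * m + u) = p u := by
    obtain ⟨q, rfl⟩ := hm
    obtain ⟨d, rfl⟩ := Nat.exists_eq_add_of_le hkl
    have h1 := hper (2 ^ d * q)
    rw [← h1, hPP]
    congr 1
    rw [pow_add]
    ring
  unfold dig wd
  rw [hpe]
  congr 1
  refine Finset.sum_congr rfl fun j hj => ?_
  have hj' : j < S := Finset.mem_range.1 hj
  have h2 : s2 (2 ^ l * m + u + j) = s2 m + s2 (u + j) := by
    rw [add_assoc]
    exact s2_pow l m (u + j) (by omega)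
  have h3 : s2 (2 ^ l * m + u + j) % 2 = (e + s2 (u + j)) % 2 := by
    rw [h2]
    omega
  rw [h3]

end Pool.Agent.Lib.MP_304139_nt.LM
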