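import Mathlib
import Pool.Agent.Lib.MP_304139_nt.LM.Base

set_option autoImplicit false

namespace Pool.Agent.Lib.MP_304139_nt.LM

open Finset

/-- rho_int and rho_split: x = n! a + I. -/
theorem exists_int (g : ℕ → ℤ) (B : ℝ) (hB : 0 ≤ B) (hg : ∀ n, |(g n : ℝ)| ≤ B) (a : ℤ) (n L : ℕ) (hn : 1 ≤ n) :
    ∃ x : ℤ, |(x : ℝ) + ∑ u ∈ range L, (g (n + 1 + u) : ℝ) / ∏ v ∈ range (u + 1), ((n : ℝ) + 1 + v)| ≤
      2 * B / ((n : ℝ) + 1) ^ (L + 1) + (n.factorial : ℝ) * |(a : ℝ) + ser g| := by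
  obtain ⟨I, hI⟩ := rho_int g n
  obtain ⟨E, hE, hrho⟩ := rho_split g B hB hg n L
  have hr := hrho hn
  have hprod : ∀ u : ℕ, ((n + u + 1).factorial : ℝ) =
      (n.factorial : ℝ) * ∏ v ∈ range (u + 1), ((n : ℝ) + 1 + v) := by
    intro u
    induction u with
    | zero =>
      rw [Finset.prod_range_one, Nat.add_zero, Nat.factorial_succ]
      push_cast
      ring
    | succ u ih =>
      rw [Finset.prod_range_succ, ← mul_assoc, ← ih, show n + (u + 1) + 1 = (n + u + 1) + 1 by ring,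
        Nat.factorial_succ (n + u + 1)]
      push_cast
      ring
  have hf0 : (n.factorial : ℝ) ≠ 0 := by
    exact_mod_cast n.factorial_ne_zero
  have hsum : ∑ u ∈ range L, (g (n + 1 + u) : ℝ) / ∏ v ∈ range (u + 1), ((n : ℝ) + 1 + v) =
      ∑ u ∈ range L, (g (n + 1 + u) : ℝ) * ((n.factorial : ℝ) / (n + u + 1).factorial) := by
    refine Finset.sum_congr rfl fun u _ => ?_
    have hp0 : ∏ v ∈ range (u + 1), ((n : ℝ) + 1 + v) ≠ 0 :=
      (Finset.prod_pos fun v _ => by positivity).ne'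
    rw [hprod u]
    field_simp
  refine ⟨(n.factorial : ℤ) * a + I, ?_⟩
  have h1 : (((n.factorial : ℤ) * a + I : ℤ) : ℝ) +
      ∑ u ∈ range L, (g (n + 1 + u) : ℝ) / ∏ v ∈ range (u + 1), ((n : ℝ) + 1 + v) =
      (n.factorial : ℝ) * ((a : ℝ) + ser g) - E := by
    rw [hsum]
    push_cast
    linarith
  rw [h1]
  have h2 : |(n.factorial : ℝ) * ((a : ℝ) + ser g) - E| ≤
      |(n.factorial : ℝ) * ((a : ℝ) + ser g)| + |E| := abs_sub _ _
  rw [abs_mul, Nat.abs_cast] at h2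
  have h3 : B * (2 / ((n : ℝ) + 1) ^ (L + 1)) = 2 * B / ((n : ℝ) + 1) ^ (L + 1) := by ring
  rw [h3] at hE
  linarith

end Pool.Agent.Lib.MP_304139_nt.LM
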