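import Mathlib
import Pool.Agent.Lib.MP_304139_nt.LM.Base
import Pool.Agent.Lib.MP_304139_nt.LM.Enum
import Pool.Agent.Lib.MP_304139_nt.LM.Good
import Pool.Agent.Lib.MP_304139_nt.LM.Word
import Pool.Agent.Lib.MP_304139_nt.LM.XInt
import Pool.Agent.Lib.MP_304139_nt.LM.FinC
import Pool.Agent.Lib.MP_304139_nt.LM.Core

set_option autoImplicit false

namespace Pool.Agent.Lib.MP_304139_nt.LM

open Finset

theorem wd_bound (S X : ℕ) (b p : ℕ → ℤ) (hpX : ∀ n, |(p n : ℝ)| ≤ X)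
    (hbX : ∀ j < S, |(b j : ℝ)| ≤ X) (e n : ℕ) : |(wd S b p e n : ℝ)| ≤ ((S : ℝ) + 1) * X := by
  unfold wd
  simp only [Int.cast_add, Int.cast_sum, Int.cast_mul, Int.cast_natCast]
  refine (abs_add_le _ _).trans ?_
  have h1 : |∑ j ∈ range S, (b j : ℝ) * (((e + s2 (n + j)) % 2 : ℕ) : ℝ)| ≤ S * X := by
    refine (Finset.abs_sum_le_sum_abs _ _).trans ?_
    have h2 : ∑ j ∈ range S, |(b j : ℝ) * (((e + s2 (n + j)) % 2 : ℕ) : ℝ)| ≤ ∑ j ∈ range S, (X : ℝ) := by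
      refine Finset.sum_le_sum fun j hj => ?_
      rw [abs_mul, Nat.abs_cast]
      have h4 : (((e + s2 (n + j)) % 2 : ℕ) : ℝ) ≤ 1 := by
        have : (e + s2 (n + j)) % 2 ≤ 1 := by omega
        exact_mod_cast this
      have h5 := hbX j (Finset.mem_range.1 hj)
      calc |(b j : ℝ)| * (((e + s2 (n + j)) % 2 : ℕ) : ℝ) ≤ |(b j : ℝ)| * 1 := by gcongr
        _ ≤ X := by linarith
    rw [Finset.sum_const, Finset.card_range, nsmul_eq_mul] at h2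
    exact h2
  have h2 := hpX n
  linarith

theorem place_err (M n L : ℕ) (B Λ : ℝ) (hnM : n + 1 ≤ M) (hL : L + 1 ≤ M) (hB : 1 ≤ B)
    (hΛ : Λ ≤ 1 / (M : ℝ) ^ (2 * M)) :
    2 * B / ((n : ℝ) + 1) ^ (L + 1) + (n.factorial : ℝ) * Λ ≤ 3 * B / ((n : ℝ) + 1) ^ (L + 1) := by
  have hM : (0 : ℝ) < M := by
    have : 0 < M := by omega
    exact_mod_cast this
  have h1 : (n.factorial : ℝ) ≤ (M : ℝ) ^ M := by
    have h2 : n.factorial ≤ M ^ M := by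
      calc n.factorial ≤ M.factorial := Nat.factorial_le (by omega)
        _ ≤ M ^ M := Nat.factorial_le_pow M
    exact_mod_cast h2
  have h2 : (n.factorial : ℝ) * Λ ≤ 1 / (M : ℝ) ^ M := by
    calc (n.factorial : ℝ) * Λ ≤ (n.factorial : ℝ) * (1 / (M : ℝ) ^ (2 * M)) := by gcongr
      _ ≤ (M : ℝ) ^ M * (1 / (M : ℝ) ^ (2 * M)) := by gcongr
      _ = 1 / (M : ℝ) ^ M := by
        rw [two_mul, pow_add]
        field_simp
  have h3 : ((n : ℝ) + 1) ^ (L + 1) ≤ (M : ℝ) ^ M := by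
    have h4 : (n + 1) ^ (L + 1) ≤ M ^ M := by
      calc (n + 1) ^ (L + 1) ≤ M ^ (L + 1) := Nat.pow_le_pow_left hnM _
        _ ≤ M ^ M := Nat.pow_le_pow_right (by omega) hL
    exact_mod_cast h4
  have h5 : (0 : ℝ) < ((n : ℝ) + 1) ^ (L + 1) := by positivity
  have h6 : 1 / (M : ℝ) ^ M ≤ B / ((n : ℝ) + 1) ^ (L + 1) := by
    gcongr
  have h7 : 3 * B / ((n : ℝ) + 1) ^ (L + 1) = 2 * B / ((n : ℝ) + 1) ^ (L + 1) + B / ((n : ℝ) + 1) ^ (L + 1) := by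
    ring
  rw [h7]
  linarith

theorem exists_Q (y : ℕ) (hy : 1 ≤ y) : ∃ l : ℕ, y ≤ 2 ^ l ∧ 2 ^ l ≤ 2 * y := by
  refine ⟨Nat.log 2 y + 1, (Nat.lt_pow_succ_log_self (by norm_num) y).le, ?_⟩
  have := Nat.pow_log_le_self 2 (show y ≠ 0 by omega)
  rw [pow_succ]
  omega

theorem measure (S P : ℕ) (hP : 0 < P) : ∃ C : ℝ, 0 < C ∧ ∀ (a : ℤ) (b p : ℕ → ℤ) (H : ℕ), 3 ≤ H →
    (∀ n, p (n + P) = p n) → (∀ n, |p n| ≤ H) → (∀ j < S, |b j| ≤ H) →
    ((∃ n, p n ≠ 0) ∨ ∃ j < S, b j ≠ 0) →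
    Real.exp (-(C * (Real.log H ^ 2 * Real.log (Real.log H)))) ≤
      |(a : ℝ) + ((∑' n : ℕ, (p n : ℝ) / ((Nat.factorial n : ℕ) : ℝ)) + ∑ j ∈ range S, (b j : ℝ) *
        ∑' n : ℕ, ((((Nat.digits 2 (n + j)).sum % 2 : ℕ) : ℝ) / ((Nat.factorial n : ℕ) : ℝ)))| := by
  obtain ⟨N1, A0, δ, hA0, hδ, hgood⟩ := exists_good S P hP
  obtain ⟨k, P', hP'odd, hPP'⟩ := Nat.exists_eq_two_pow_mul_odd (n := P) (by omega)
  have hP'1 : 1 ≤ P' := hP'odd.pos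
  obtain ⟨W, hW, henum⟩ := exists_enum P' hP'1
  obtain ⟨A, hA⟩ : ∃ A : ℕ, A = 16 + 2 * A0 := ⟨_, rfl⟩
  obtain ⟨D1, hD1⟩ := no_good W A hW (by omega) δ hδ
  obtain ⟨κ, hκ⟩ : ∃ κ : ℕ, κ = 2 ^ k := ⟨_, rfl⟩
  obtain ⟨C, hC, hfin⟩ := final_choice (4 * A * ((eta W A + 1) * (W * (A + 2))) + N1)
    (D1 + N1 + S + κ + 1) (S + 1)
  refine ⟨C, hC, fun a b p H hH hp hpH hbH h0 => ?_⟩
  obtain ⟨X, hX1, hXH, hpX, hbX, hmax⟩ := exists_max S H b p hpH hbH h0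
  obtain ⟨d, hd, hsd, hM⟩ := hfin H hH
  obtain ⟨u0, hu0, e, he, hG⟩ := hgood b p X hp hX1 hpX hbX hmax
  have hd1 : 1 ≤ d := by omega
  obtain ⟨G, hGc, hGv⟩ := hG (2 * d) (A * d) (by omega) (by
    rw [hA]
    nlinarith)
  obtain ⟨m, hm⟩ := henum e he
  have hAd : 16 ≤ A * d := le_trans (by omega) (Nat.le_mul_of_pos_right A hd1)
  have hdA : d ≤ A * d := Nat.le_mul_of_pos_left d (by omega)
  obtain ⟨l, hl1, hl2⟩ := exists_Q (N1 + S + κ + A * d) (by omega)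
  obtain ⟨Q, hQ⟩ : ∃ Q : ℕ, Q = 2 ^ l := ⟨_, rfl⟩
  have hk : k ≤ l := by
    have h1 : 2 ^ k ≤ 2 ^ l := by rw [← hκ]; omega
    exact (Nat.pow_le_pow_iff_right (by norm_num)).1 h1
  obtain ⟨i0, hi0⟩ : ∃ i0 : ℕ, i0 = eta W A * ((A + 2) * d) := ⟨_, rfl⟩
  have hmi0 : W * i0 = mz W A d := by
    unfold mz NN
    rw [hi0]
    ring
  have hNNe : W * ((A + 2) * d) = NN W A d := rfl
  have hNd : d ≤ NN W A d := by
    unfold NN
    calc d ≤ (A + 2) * d := Nat.le_mul_of_pos_left _ (by omega)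
      _ ≤ W * ((A + 2) * d) := Nat.le_mul_of_pos_left _ hW
  have heta : 1 ≤ eta W A := by
    unfold eta
    have h3 : 1 ≤ W * (A + 2) := Nat.mul_pos hW (by omega)
    exact Nat.mul_pos (by positivity) (by positivity)
  have hm1 : NN W A d ≤ mz W A d := by
    unfold mz
    exact Nat.le_mul_of_pos_left _ heta
  have hmmono : StrictMono m := by
    refine strictMono_nat_of_lt_succ fun i => ?_
    exact lt_of_lt_of_le (hm i).2.1 (hm (i + 1)).1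
  have hνm : StrictMono (fun j => m (i0 + j)) := by
    intro x y hxy
    exact hmmono (by omega)
  have hνb : ∀ j < (A + 2) * d, mz W A d ≤ m (i0 + j) ∧ m (i0 + j) < mz W A d + NN W A d := by
    intro j hj
    obtain ⟨h1, h2, -, -⟩ := hm (i0 + j)
    constructor
    · rw [← hmi0]
      exact le_trans (Nat.mul_le_mul_left _ (by omega)) h1
    · refine lt_of_lt_of_le h2 ?_
      rw [← hmi0, ← hNNe, ← Nat.mul_add]
      exact Nat.mul_le_mul_left _ (by omega)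
  obtain ⟨M, hMe⟩ : ∃ M : ℕ, M = Q * (mz W A d + NN W A d) + u0 := ⟨_, rfl⟩
  have hQA : A * d ≤ Q := by omega
  have hQ4 : Q ≤ 4 * (A * d) := by omega
  have hMbig : 2 * (A * d) ≤ M := by
    have h1 : A * d * 2 ≤ Q * (mz W A d + NN W A d) := Nat.mul_le_mul hQA (by omega)
    omega
  have hMc : M ≤ (4 * A * ((eta W A + 1) * (W * (A + 2))) + N1) * d ^ 2 := by
    have h1 : Q * (mz W A d + NN W A d) ≤ 4 * (A * d) * (mz W A d + NN W A d) := Nat.mul_le_mul_right _ hQ4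
    have h2 : 4 * (A * d) * (mz W A d + NN W A d) = (4 * A * ((eta W A + 1) * (W * (A + 2)))) * d ^ 2 := by
      unfold mz NN
      ring
    have h3 : u0 ≤ N1 * d ^ 2 := by
      calc u0 ≤ N1 := by omega
        _ ≤ N1 * d ^ 2 := Nat.le_mul_of_pos_right _ (by positivity)
    calc M ≤ (4 * A * ((eta W A + 1) * (W * (A + 2)))) * d ^ 2 + N1 * d ^ 2 := by omega
      _ = _ := by ring
  refine (hM M (by omega) hMc).trans ?_
  by_contra hcon
  push Not at hcon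
  have hpX' : ∀ n, |(p n : ℝ)| ≤ X := by
    intro n
    have := hpX n
    exact_mod_cast this
  have hbX' : ∀ j < S, |(b j : ℝ)| ≤ X := by
    intro j hj
    have := hbX j hj
    exact_mod_cast this
  have hdb := dig_bound S X b p hpX' hbX'
  have hB1 : (1 : ℝ) ≤ ((S : ℝ) + 1) * X := by
    have h1 : 1 ≤ (S + 1) * X := Nat.mul_pos (by omega) hX1
    exact_mod_cast h1
  have hB2 : ((S : ℝ) + 1) * X ≤ 2 ^ d := by
    have h1 : (S + 1) * X ≤ 2 ^ d := le_trans (Nat.mul_le_mul_left _ hXH) hsd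
    exact_mod_cast h1
  have hser : ser (dig S b p) = (∑' n : ℕ, (p n : ℝ) / ((Nat.factorial n : ℕ) : ℝ)) + ∑ j ∈ range S, (b j : ℝ) *
        ∑' n : ℕ, ((((Nat.digits 2 (n + j)).sum % 2 : ℕ) : ℝ) / ((Nat.factorial n : ℕ) : ℝ)) :=
    ser_split S b p X hpX'
  rw [← hser] at hcon
  have hex : ∀ j : ℕ, ∃ x : ℤ, j < (A + 2) * d →
      |(x : ℝ) + ∑ u ∈ range (A * d), (wd S b p e (u0 + u) : ℝ) /
        ∏ v ∈ range (u + 1), ((Q : ℝ) * (m (i0 + j) : ℝ) + u0 + v)|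
      ≤ 3 * (((S : ℝ) + 1) * X) / ((Q : ℝ) * (m (i0 + j) : ℝ) + u0) ^ (A * d + 1) := by
    intro j
    by_cases hj : j < (A + 2) * d
    swap
    · exact ⟨0, fun h => absurd h hj⟩
    obtain ⟨h1, h2⟩ := hνb j hj
    have h3 : 16 ≤ Q * m (i0 + j) := by
      calc 16 ≤ A * d * 1 := by omega
        _ ≤ Q * m (i0 + j) := Nat.mul_le_mul hQA (by omega)
    obtain ⟨n, hn⟩ : ∃ n : ℕ, n + 1 = Q * m (i0 + j) + u0 := ⟨Q * m (i0 + j) + u0 - 1, by omega⟩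
    obtain ⟨x, hx⟩ := exists_int (dig S b p) (((S : ℝ) + 1) * X) (by linarith) hdb a n (A * d) (by omega)
    refine ⟨x, fun _ => ?_⟩
    have hnR : (n : ℝ) + 1 = (Q : ℝ) * (m (i0 + j) : ℝ) + u0 := by exact_mod_cast hn
    have hnM : n + 1 ≤ M := by
      rw [hn, hMe]
      have := Nat.mul_le_mul_left Q h2.le
      omega
    have herr := place_err M n (A * d) (((S : ℝ) + 1) * X) _ hnM (by omega) hB1 hcon.le
    have h5 := hx.trans herr
    rw [hnR] at h5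
    have h7 : ∑ u ∈ range (A * d), (wd S b p e (u0 + u) : ℝ) /
        ∏ v ∈ range (u + 1), ((Q : ℝ) * (m (i0 + j) : ℝ) + u0 + v) =
        ∑ u ∈ range (A * d), (dig S b p (n + 1 + u) : ℝ) /
        ∏ v ∈ range (u + 1), ((Q : ℝ) * (m (i0 + j) : ℝ) + u0 + v) := by
      refine Finset.sum_congr rfl fun u hu => ?_
      rw [Finset.mem_range] at hu
      have h6 : n + 1 + u = 2 ^ l * m (i0 + j) + (u0 + u) := by
        rw [hn, hQ]; ring
      rw [h6, dig_eq_wd S P k P' b p hp hPP' l (m (i0 + j)) (u0 + u) e hk (hm _).2.2.1 (hm _).2.2.2 (by omega)]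
    rw [h7]
    exact h5
  choose x hx using hex
  refine hD1 d Q u0 (fun j => m (i0 + j)) (fun u => wd S b p e (u0 + u)) x (((S : ℝ) + 1) * X) G (by omega) hB1 hB2
    (by omega) hQ4 hνm hνb (fun u => wd_bound S X b p hpX' hbX' e _) hx hGc ?_
  intro v hv
  obtain ⟨h1, h2⟩ := hGv v hv
  refine ⟨h1, ?_⟩
  simp only [← add_assoc]
  exact h2

end Pool.Agent.Lib.MP_304139_nt.LM
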